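import Pool.Agent.T6.H33.ST.Centre

/-!
# Adjoints of endomorphisms
-/

set_option autoImplicit false

namespace Pool.Agent.T6.H33.ST

open Module

section one
variable {K V : Type} [Field K] [AddCommGroup V] [Module K V]

/-- the adjoint with respect to a nondegenerate form -/
noncomputable def adjW (E : V ≃ₗ[K] Module.Dual K V) (e : Module.End K V) : Module.End K V :=
  E.symm.conj (Module.Dual.transpose (R := K) e)

theorem adjW_apply (E : V ≃ₗ[K] Module.Dual K V) (e : Module.End K V) (x y : V) :
    E (adjW E e x) y = E x (e y) := by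
  rw [adjW, LinearEquiv.conj_apply]
  simp [Module.Dual.transpose_apply]

theorem adjW_eq (E : V ≃ₗ[K] Module.Dual K V) {e e' : Module.End K V}
    (h : ∀ x y, E (e' x) y = E x (e y)) : adjW E e = e' := by
  refine LinearMap.ext fun x => ?_
  apply E.injective
  refine LinearMap.ext fun y => ?_
  rw [adjW_apply, h]

theorem adjW_mul (E : V ≃ₗ[K] Module.Dual K V) (a b : Module.End K V) :
    adjW E (a * b) = adjW E b * adjW E a :=
  adjW_eq E fun x y => by
    rw [Module.End.mul_apply, adjW_apply, adjW_apply, Module.End.mul_apply]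

theorem trace_adjW [FiniteDimensional K V] (E : V ≃ₗ[K] Module.Dual K V) (e : Module.End K V) :
    LinearMap.trace K V (adjW E e) = LinearMap.trace K V e := by
  rw [adjW, LinearMap.trace_conj', LinearMap.trace_transpose']

theorem isEndo_adjW {G : Type} [Group G] {ρ : Representation K G V} (E : V ≃ₗ[K] Module.Dual K V)
    {c : G → K} (hc : ∀ g, c g ≠ 0) (hE : ∀ g x y, E (ρ g x) (ρ g y) = c g * E x y)
    {e : Module.End K V} (he : IsEndo ρ e) : IsEndo ρ (adjW E e) := by
  obtain ⟨Δ, hΔ, h⟩ := he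
  refine ⟨Δ, hΔ, fun g hg => LinearMap.ext fun x => ?_⟩
  apply E.injective
  refine LinearMap.ext fun y => ?_
  obtain ⟨y, rfl⟩ : ∃ y', y = ρ g y' := ⟨ρ g⁻¹ y, by
    rw [← Module.End.mul_apply, ← map_mul, mul_inv_cancel, map_one]; rfl⟩
  have h1 : e (ρ g y) = ρ g (e y) := by
    rw [← Module.End.mul_apply, (h g hg).eq]
    rfl
  rw [Module.End.mul_apply, Module.End.mul_apply, adjW_apply, h1, hE, hE, adjW_apply]

end one

variable {K Γ G I : Type} [Field K] [Group Γ] [Group G] {T : I → Type}
  [∀ i, AddCommGroup (T i)] [∀ i, Module K (T i)] [∀ i, FiniteDimensional K (T i)]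
  {ι : Γ →* G} {q : G →* Kˣ} {ρ : ∀ i, Representation K G (T i)} {w : I → ℤ}
  {B : ∀ i, T i →ₗ[K] T i →ₗ[K] K}

/-- the polarization as an isomorphism, in the first and in the second variable -/
theorem exists_equiv (hB : IsPolarized q ρ w B) (i : I) :
    ∃ El Er : T i ≃ₗ[K] Module.Dual K (T i), (∀ x y, El x y = B i x y) ∧ ∀ x y, Er x y = B i y x := by
  have hinj : Function.Injective (B i) := by
    rw [← LinearMap.ker_eq_bot, eq_bot_iff]
    intro x hx
    rw [LinearMap.mem_ker] at hx
    exact hB.nondeg i x fun y => by rw [hx]; rfl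
  have hfin := (Subspace.dual_finrank_eq (K := K) (V := T i)).symm
  have hsurj : Function.Surjective (B i) :=
    (LinearMap.injective_iff_surjective_of_finrank_eq_finrank hfin).1 hinj
  have hinj' : Function.Injective (B i).flip := by
    rw [← LinearMap.ker_eq_bot, eq_bot_iff]
    intro x hx
    rw [LinearMap.mem_ker] at hx
    rw [Submodule.mem_bot, ← Module.forall_dual_apply_eq_zero_iff K x]
    intro φ
    obtain ⟨y, rfl⟩ := hsurj φ
    have := congrArg (fun f => f y) hx
    exact this
  have hsurj' : Function.Surjective (B i).flip :=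
    (LinearMap.injective_iff_surjective_of_finrank_eq_finrank hfin).1 hinj'
  exact ⟨LinearEquiv.ofBijective (B i) ⟨hinj, hsurj⟩, LinearEquiv.ofBijective (B i).flip
    ⟨hinj', hsurj'⟩, fun x y => rfl, fun x y => rfl⟩

/-- the adjoint of a central idempotent -/
theorem exists_adjoint (hB : IsPolarized q ρ w B) {i : I} {e : Module.End K (T i)}
    (he : IsCentralIdem (ρ i) e) : ∃ e', IsCentralIdem (ρ i) e' ∧
      ∀ u ∈ lieT (MonoidHom.id G) q ρ, LinearMap.trace K (T i) (u.1 i * e') =
        (w i : K) * u.2 * LinearMap.trace K (T i) e - LinearMap.trace K (T i) (u.1 i * e) := by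
  obtain ⟨El, Er, hl, hr⟩ := exists_equiv hB i
  obtain ⟨hee, hen, hec⟩ := he
  have hcl : ∀ g x y, El (ρ i g x) (ρ i g y) = ((q g ^ w i : Kˣ) : K) * El x y := by
    intro g x y
    rw [hl, hl, hB.equiv]
  have hcr : ∀ g x y, Er (ρ i g x) (ρ i g y) = ((q g ^ w i : Kˣ) : K) * Er x y := by
    intro g x y
    rw [hr, hr, hB.equiv]
  refine ⟨adjW Er e, ⟨?_, ?_, ?_⟩, ?_⟩
  · rw [← adjW_mul, hee]
  · exact isEndo_adjW Er (fun g => Units.ne_zero _) hcr hen
  · intro e' he'
    have h1 : IsEndo (ρ i) (adjW El e') := isEndo_adjW El (fun g => Units.ne_zero _) hcl he'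
    have h2 := (hec _ h1).eq
    refine LinearMap.ext fun x => ?_
    apply Er.injective
    refine LinearMap.ext fun y => ?_
    rw [Module.End.mul_apply, Module.End.mul_apply, adjW_apply]
    have e1 : Er (e' x) (e y) = Er x (adjW El e' (e y)) := by
      rw [hr, hr, ← hl, ← hl, adjW_apply]
    have e2 : Er (e' (adjW Er e x)) y = Er x (e (adjW El e' y)) := by
      rw [← adjW_apply Er e, hr, hr, ← hl, ← hl, adjW_apply]
    rw [e1, e2, ← Module.End.mul_apply, ← Module.End.mul_apply, h2]
  · intro u hu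
    have h1 := der_two (ι := MonoidHom.id G) (b := B i) (j := w i)
      ⟨⊤, inferInstance, fun g _ x y => hB.equiv i g x y⟩ hu
    have h2 : adjW Er (u.1 i) = ((w i : K) * u.2) • 1 - u.1 i := by
      refine adjW_eq Er fun x y => ?_
      rw [LinearMap.sub_apply, LinearMap.smul_apply, Module.End.one_apply, map_sub, map_smul,
        LinearMap.sub_apply, LinearMap.smul_apply, hr, hr, hr, smul_eq_mul, ← h1 y x]
      ring
    have h3 : u.1 i = ((w i : K) * u.2) • 1 - adjW Er (u.1 i) := by
      rw [h2, sub_sub_cancel]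
    have h4 : u.1 i * adjW Er e = ((w i : K) * u.2) • adjW Er e - adjW Er (e * u.1 i) := by
      conv_lhs => rw [h3]
      rw [sub_mul, smul_mul_assoc, one_mul, adjW_mul]
    rw [h4, map_sub, map_smul, trace_adjW, trace_adjW, smul_eq_mul, LinearMap.trace_mul_comm K e]

end Pool.Agent.T6.H33.ST
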