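import Pool.Agent.T6.H33.ST.Defs

/-!
# Determinants of isotypic parts: definitions
-/

set_option autoImplicit false

namespace Pool.Agent.T6.H33.ST

open Module

variable {K Γ G I : Type} [Field K] [Group Γ] [Group G] {T : I → Type}
  [∀ i, AddCommGroup (T i)] [∀ i, Module K (T i)]

/-- The determinant of `g` on the image of the idempotent `e` (if `e` commutes with `g`). -/
noncomputable def detOn {V : Type} [AddCommGroup V] [Module K V] (ρ : Representation K G V)
    (e : Module.End K V) (g : G) : K := LinearMap.det (ρ g * e + (1 - e))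

/-- `e` is an idempotent in the centre of the algebra of endomorphisms of the motive, the projector
onto a sum of isotypic components. -/
def IsCentralIdem {V : Type} [AddCommGroup V] [Module K V] (ρ : Representation K G V)
    (e : Module.End K V) : Prop :=
  e * e = e ∧ IsEndo ρ e ∧ ∀ e', IsEndo ρ e' → Commute e e'

/-- **The Tate classes in the products of the determinants of isotypic components are motivated**: if a
subgroup of finite index of `Γ` acts on the one-dimensional space, the product of the determinants of
finitely many sums `e_a M_(s a)` of isotypic components (repetitions are allowed), through `q ^ j`, then a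
subgroup of finite index of `G` acts on it through `q ^ j`. -/
def DeterminantsMotivated (ι : Γ →* G) (q : G →* Kˣ) (ρ : ∀ i, Representation K G (T i)) : Prop :=
  ∀ (A : Type) [Fintype A] (s : A → I) (e : ∀ a, Module.End K (T (s a))) (j : ℤ),
    (∀ a, IsCentralIdem (ρ (s a)) (e a)) →
    (∃ Δ : Subgroup Γ, Δ.FiniteIndex ∧ ∀ γ ∈ Δ,
      ∏ a, detOn (ρ (s a)) (e a) (ι γ) = ((q (ι γ) ^ j : Kˣ) : K)) →
    ∃ Δ : Subgroup G, Δ.FiniteIndex ∧ ∀ g ∈ Δ,
      ∏ a, detOn (ρ (s a)) (e a) g = ((q g ^ j : Kˣ) : K)

/-- `Γ` has a subgroup of finite index of neat elements: the group generated by `q` and by the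
eigenvalues on all `T i` has no torsion (a property of ℓ-adic representations of compact groups). -/
def IsNeatFamily (ι : Γ →* G) (q : G →* Kˣ) (ρ : ∀ i, Representation K G (T i)) : Prop :=
  ∃ Δ : Subgroup Γ, Δ.FiniteIndex ∧ ∀ γ ∈ Δ, ∀ x ∈ Subgroup.closure
    ({q (ι γ)} ∪ {α : Kˣ | ∃ i, Module.End.HasEigenvalue (ρ i (ι γ)) (α : K)}),
    ∀ m : ℕ, 0 < m → x ^ m = 1 → x = 1

end Pool.Agent.T6.H33.ST
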