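import Pool.Agent.T6.H33.ST.Det
import Pool.Agent.T6.H33.ST.DetDefs

/-!
# Determinants and traces of logarithms
-/

set_option autoImplicit false

namespace Pool.Agent.T6.H33.ST

open Module

section lin
variable {K A : Type} [Field K] [Fintype A] [DecidableEq A] {V : A → Type}
  [∀ a, AddCommGroup (V a)] [∀ a, Module K (V a)]

theorem hasEigenvalue_of_gen {V : Type} [AddCommGroup V] [Module K V] [FiniteDimensional K V]
    {g : Module.End K V} {α : K} {x : V} (hx : x ∈ g.maxGenEigenspace α) (hx0 : x ≠ 0) :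
    g.HasEigenvalue α := by
  have h2 : g.HasUnifEigenvalue α ⊤ := by
    intro h3
    have h4 : x ∈ g.genEigenspace α ⊤ := hx
    rw [h3] at h4
    exact hx0 (by simpa using h4)
  exact h2.lt zero_lt_one

/-- the product of the eigenvalues is the multiplier -/
theorem prod_of_ne [∀ a, FiniteDimensional K (V a)] (f : MultilinearMap K V K)
    (h h' : ∀ a, Module.End K (V a)) (hh : ∀ a, h' a * h a = 1) (μ : K)
    (hf : ∀ t, f (fun a => h a (t a)) = μ * f t) (α : A → K) (t : ∀ a, V a)
    (ht : ∀ a, t a ∈ (h a).maxGenEigenspace (α a)) (h0 : f t ≠ 0) :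
    (∀ a, (h a).HasEigenvalue (α a)) ∧ (∀ a, α a ≠ 0) ∧ ∏ a, α a = μ := by
  have ht0 : ∀ a, t a ≠ 0 := fun a ha => h0 (f.map_coord_zero a ha)
  have h1 : ∀ a, (h a).HasEigenvalue (α a) := fun a => hasEigenvalue_of_gen (ht a) (ht0 a)
  refine ⟨h1, fun a ha => ?_, ?_⟩
  · obtain ⟨x, hx, hx0⟩ := (h1 a).exists_hasEigenvector
    apply hx0
    rw [ha, Module.End.mem_eigenspace_iff, zero_smul] at hx
    have : (h' a * h a) x = 0 := by rw [Module.End.mul_apply, hx, map_zero]
    rw [hh] at this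
    exact this
  · by_contra hne
    have hex : ∀ a, ∃ k : ℕ, ((h a - α a • 1) ^ k) (t a) = 0 := by
      intro a
      have := ht a
      rw [Module.End.mem_maxGenEigenspace] at this
      exact this
    choose k hk using hex
    exact h0 (mult_zero f h μ hf α hne _ k rfl t hk)

theorem der_of_mult [IsAlgClosed K] [∀ a, FiniteDimensional K (V a)]
    (f : MultilinearMap K V K) (h h' : ∀ a, Module.End K (V a)) (hh : ∀ a, h' a * h a = 1) (μ : Kˣ)
    (hf : ∀ t, f (fun a => h a (t a)) = μ * f t) (l : Additive Kˣ →+ K) :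
    derM f (fun a => fc (h a) (ext0 l)) = l (Additive.ofMul μ) • f := by
  refine mult_ext _ _ h fun α t ht => ?_
  rw [derM_apply]
  show _ = l (Additive.ofMul μ) • f t
  rw [smul_eq_mul]
  have e1 : ∀ a, f (Function.update t a (fc (h a) (ext0 l) (t a))) = ext0 l (α a) * f t := by
    intro a
    rw [fc_apply _ _ (ht a), MultilinearMap.map_update_smul, Function.update_eq_self, smul_eq_mul]
  rw [Finset.sum_congr rfl fun a _ => e1 a, ← Finset.sum_mul]
  by_cases h0 : f t = 0
  · rw [h0, mul_zero, mul_zero]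
  congr 1
  obtain ⟨-, hα, hprod⟩ := prod_of_ne f h h' hh μ hf α t ht h0
  have hu : μ = ∏ a, Units.mk0 (α a) (hα a) := by
    apply Units.ext
    rw [← hprod]
    simp
  rw [hu, ofMul_prod, map_sum]
  exact Finset.sum_congr rfl fun a _ => ext0_of_ne l (hα a)

theorem exists_eigen_prod [IsAlgClosed K] [∀ a, FiniteDimensional K (V a)]
    (f : MultilinearMap K V K) (hf0 : f ≠ 0) (h h' : ∀ a, Module.End K (V a))
    (hh : ∀ a, h' a * h a = 1) (μ : K) (hf : ∀ t, f (fun a => h a (t a)) = μ * f t) :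
    ∃ α : A → Kˣ, (∀ a, (h a).HasEigenvalue (α a : K)) ∧ ∏ a, (α a : K) = μ := by
  by_contra hcon
  apply hf0
  refine mult_ext f 0 h fun α t ht => ?_
  by_contra h0
  obtain ⟨h1, h2, h3⟩ := prod_of_ne f h h' hh μ hf α t ht h0
  exact hcon ⟨fun a => Units.mk0 (α a) (h2 a), h1, h3⟩

end lin

variable {K Γ G I : Type} [Field K] [Group Γ] [Group G] {T : I → Type}
  [∀ i, AddCommGroup (T i)] [∀ i, Module K (T i)]
  {ι : Γ →* G} {q : G →* Kˣ} {ρ : ∀ i, Representation K G (T i)}

/-- the trace of the logarithm is the logarithm of the determinant -/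
theorem trace_fc [IsAlgClosed K] {V : Type} [AddCommGroup V] [Module K V]
    [FiniteDimensional K V] {g g' e : Module.End K V} (hg : g' * g = 1) (he : e * e = e)
    (hc : Commute e g) (μ : Kˣ) (hμ : LinearMap.det (g * e + (1 - e)) = (μ : K)) (l : Additive Kˣ →+ K) :
    LinearMap.trace K V (fc g (ext0 l) * e) = l (Additive.ofMul μ) := by
  have h1 := der_of_mult (detForm e) (fun _ => g) (fun _ => g') (fun _ => hg) μ
    (fun t => by rw [detForm_mul he hc, hμ]) l
  obtain ⟨v, hv⟩ := detForm_ne he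
  have h2 := congrArg (fun f => f v) h1
  rw [derM_apply, detForm_der he (fc_commute hc _)] at h2
  have h3 : (l (Additive.ofMul μ) • detForm e) v = l (Additive.ofMul μ) * detForm e v := rfl
  rw [h3] at h2
  exact mul_right_cancel₀ hv h2

/-- the determinant is in the group generated by the eigenvalues -/
theorem det_mem [IsAlgClosed K] {V : Type} [AddCommGroup V] [Module K V]
    [FiniteDimensional K V] {g g' e : Module.End K V} (hg : g' * g = 1) (he : e * e = e)
    (hc : Commute e g) (H : Subgroup Kˣ) (hH : ∀ α : Kˣ, g.HasEigenvalue (α : K) → α ∈ H) :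
    ∃ μ : Kˣ, μ ∈ H ∧ LinearMap.det (g * e + (1 - e)) = (μ : K) := by
  obtain ⟨v, hv⟩ := detForm_ne he
  obtain ⟨α, h1, h2⟩ := exists_eigen_prod (detForm e) (fun h => hv (by rw [h]; rfl)) (fun _ => g)
    (fun _ => g') (fun _ => hg) _ (fun t => detForm_mul he hc t)
  refine ⟨∏ k, α k, Subgroup.prod_mem _ fun k _ => hH _ (h1 k), ?_⟩
  rw [← h2]
  simp

end Pool.Agent.T6.H33.ST
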