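import Pool.Agent.T6.H33.ST.Main
import Pool.Agent.T6.H33.ST.DetEig

/-!
# The centre of the algebra of endomorphisms
-/

set_option autoImplicit false

namespace Pool.Agent.T6.H33.ST

open Module

variable {K Γ G I : Type} [Field K] [Group Γ] [Group G] {T : I → Type}
  [∀ i, AddCommGroup (T i)] [∀ i, Module K (T i)]
  {ι : Γ →* G} {q : G →* Kˣ} {ρ : ∀ i, Representation K G (T i)} {w : I → ℤ}
  {B : ∀ i, T i →ₗ[K] T i →ₗ[K] K}

/-- the centre of the algebra of endomorphisms -/
def zen {V : Type} [AddCommGroup V] [Module K V] (ρ : Representation K G V) :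
    Submodule K (Module.End K V) where
  carrier := {e | IsEndo ρ e ∧ ∀ e', IsEndo ρ e' → Commute e e'}
  zero_mem' := ⟨⟨⊤, inferInstance, fun g _ => Commute.zero_left _⟩, fun e' _ => Commute.zero_left _⟩
  add_mem' := by
    rintro a b ⟨⟨Δ, hΔ, ha⟩, ha'⟩ ⟨⟨Δ', hΔ', hb⟩, hb'⟩
    exact ⟨⟨Δ ⊓ Δ', inferInstance, fun g hg => (ha g hg.1).add_left (hb g hg.2)⟩,
      fun e' he' => (ha' e' he').add_left (hb' e' he')⟩
  smul_mem' := by
    rintro c a ⟨⟨Δ, hΔ, ha⟩, ha'⟩
    exact ⟨⟨Δ, hΔ, fun g hg => (ha g hg).smul_left c⟩, fun e' he' => (ha' e' he').smul_left c⟩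

theorem mem_zen {V : Type} [AddCommGroup V] [Module K V] {ρ : Representation K G V}
    {e : Module.End K V} : e ∈ zen ρ ↔ IsEndo ρ e ∧ ∀ e', IsEndo ρ e' → Commute e e' := Iff.rfl

theorem isEndo_mul {V : Type} [AddCommGroup V] [Module K V] {ρ : Representation K G V}
    {a b : Module.End K V} (ha : IsEndo ρ a) (hb : IsEndo ρ b) : IsEndo ρ (a * b) := by
  obtain ⟨Δ, hΔ, ha⟩ := ha
  obtain ⟨Δ', hΔ', hb⟩ := hb
  exact ⟨Δ ⊓ Δ', inferInstance, fun g hg => (ha g hg.1).mul_left (hb g hg.2)⟩

/-- functions of central endomorphisms are central endomorphisms -/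
theorem fc_mem_zen [IsAlgClosed K] {V : Type} [AddCommGroup V] [Module K V] [FiniteDimensional K V]
    {ρ : Representation K G V} {e : Module.End K V} (he : e ∈ zen ρ) (c : K → K) :
    fc e c ∈ zen ρ := by
  obtain ⟨⟨Δ, hΔ, h⟩, h'⟩ := he
  exact ⟨⟨Δ, hΔ, fun g hg => (fc_commute (h g hg).symm c).symm⟩,
    fun e' he' => (fc_commute (h' e' he').symm c).symm⟩

/-- central endomorphisms are semisimple -/
theorem fc_id_of_zen [IsAlgClosed K] [CharZero K] {V : Type} [AddCommGroup V] [Module K V]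
    [FiniteDimensional K V] {ρ : Representation K G V}
    (hss : ∀ Δ : Subgroup G, Δ.FiniteIndex → (conjRep Δ.subtype ρ).IsSemisimpleRepresentation)
    {e : Module.End K V} (he : e ∈ zen ρ) : fc e id = e := by
  obtain ⟨n, hn⟩ : ∃ n, n = e - fc e id := ⟨_, rfl⟩
  have hnz : n ∈ zen ρ := by rw [hn]; exact Submodule.sub_mem _ he (fc_mem_zen he id)
  have hnil : IsNilpotent n := by rw [hn]; exact isNilpotent_sub_fc e
  suffices h0 : n = 0 by
    rw [hn, sub_eq_zero] at h0
    exact h0.symm
  by_contra hne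
  obtain ⟨v, hv⟩ : ∃ v, n v ≠ 0 := by
    by_contra hcon
    push Not at hcon
    exact hne (LinearMap.ext hcon)
  obtain ⟨φ, hφ⟩ := Module.Projective.exists_dual_eq_one K hv
  obtain ⟨⟨Δ, hΔ, hc⟩, hc'⟩ := hnz
  have hg1 : ∀ g : G, ρ g * ρ g⁻¹ = 1 := fun g => by rw [← map_mul, mul_inv_cancel, map_one]
  have hg2 : ∀ g : G, ρ g⁻¹ * ρ g = 1 := fun g => by rw [← map_mul, inv_mul_cancel, map_one]
  let W : Submodule K (Module.End K V) :=
    LinearMap.ker ((LinearMap.trace K V) ∘ₗ (LinearMap.mulLeft K n))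
  have hW : ∀ a, a ∈ W ↔ LinearMap.trace K V (n * a) = 0 := fun a => Iff.rfl
  have htr : ∀ g ∈ Δ, ∀ a, LinearMap.trace K V (n * (ρ g * a * ρ g⁻¹)) =
      LinearMap.trace K V (n * a) := by
    intro g hg a
    have h1 : n * (ρ g * a * ρ g⁻¹) = ρ g * (n * a * ρ g⁻¹) := by
      calc n * (ρ g * a * ρ g⁻¹) = (n * ρ g) * (a * ρ g⁻¹) := by noncomm_ring
        _ = (ρ g * n) * (a * ρ g⁻¹) := by rw [(hc g hg).eq]
        _ = ρ g * (n * a * ρ g⁻¹) := by noncomm_ring
    rw [h1, LinearMap.trace_mul_comm, mul_assoc, hg2, mul_one]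
  obtain ⟨W', hW', hst⟩ := exists_compl_one (conjRep Δ.subtype ρ) (hss Δ hΔ) W (fun g a ha => by
    rw [hW] at ha ⊢
    exact (htr g g.2 a).trans ha)
  -- an invariant element
  obtain ⟨b, hb, hb1, hb2⟩ : ∃ b ∈ W', (∀ g ∈ Δ, ρ g * b * ρ g⁻¹ = b) ∧
      LinearMap.trace K V (n * b) ≠ 0 := by
    have h1 : φ.smulRight v ∈ W ⊔ W' := by
      rw [hW'.sup_eq_top]
      exact Submodule.mem_top
    obtain ⟨a, ha, b, hb, hab⟩ := Submodule.mem_sup.1 h1
    refine ⟨b, hb, fun g hg => ?_, ?_⟩
    · rw [← sub_eq_zero]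
      refine (Submodule.disjoint_def.1 hW'.disjoint) _ ?_ (Submodule.sub_mem _ (hst ⟨g, hg⟩ b hb) hb)
      rw [hW, mul_sub, map_sub, htr g hg, sub_self]
    · have h2 : n * φ.smulRight v = φ.smulRight (n v) := by
        refine LinearMap.ext fun x => ?_
        rw [Module.End.mul_apply, LinearMap.smulRight_apply, LinearMap.smulRight_apply, map_smul]
      have h3 : LinearMap.trace K V (n * φ.smulRight v) = 1 := by
        rw [h2, LinearMap.trace_smulRight, hφ]
      rw [← hab, mul_add, map_add, (hW a).1 ha, zero_add] at h3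
      rw [h3]
      exact one_ne_zero
  have hbe : IsEndo ρ b := ⟨Δ, hΔ, fun g hg => by
    show b * ρ g = ρ g * b
    calc b * ρ g = ρ g * b * ρ g⁻¹ * ρ g := by rw [hb1 g hg]
      _ = _ := by rw [mul_assoc, hg2, mul_one]⟩
  have h4 : IsNilpotent (n * b) := (hc' b hbe).isNilpotent_mul_right hnil
  have h5 : LinearMap.trace K V (n * b) = 0 :=
    (LinearMap.isNilpotent_trace_of_isNilpotent h4).eq_zero
  exact hb2 h5

/-- a central endomorphism is a combination of central idempotents -/
theorem zen_span [IsAlgClosed K] [CharZero K] {V : Type} [AddCommGroup V] [Module K V]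
    [FiniteDimensional K V] {ρ : Representation K G V}
    (hss : ∀ Δ : Subgroup G, Δ.FiniteIndex → (conjRep Δ.subtype ρ).IsSemisimpleRepresentation) :
    zen ρ = Submodule.span K {e | IsCentralIdem ρ e} := by
  classical
  apply le_antisymm
  · intro e he
    have h1 : e = ∑ α ∈ e.finite_hasEigenvalue.toFinset, α • fc e (fun a => if a = α then 1 else 0) := by
      conv_lhs => rw [← fc_id_of_zen hss he]
      refine lin_ext e _ _ fun γ y hy => ?_
      rw [fc_apply e _ hy, LinearMap.sum_apply]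
      simp only [LinearMap.smul_apply, fc_apply e _ hy]
      by_cases hγ : e.HasEigenvalue γ
      · rw [Finset.sum_eq_single γ]
        · simp
        · intro β _ hβ
          rw [if_neg hβ.symm, zero_smul, smul_zero]
        · intro h'
          exact absurd (e.finite_hasEigenvalue.mem_toFinset.2 hγ) h'
      · have hy0 : y = 0 := by
          by_contra h0
          exact hγ (hasEigenvalue_of_gen hy h0)
        simp [hy0]
    rw [h1]
    refine Submodule.sum_mem _ fun α _ => Submodule.smul_mem _ _ (Submodule.subset_span ?_)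
    refine ⟨?_, (fc_mem_zen he _).1, (fc_mem_zen he _).2⟩
    rw [fc_mul]
    congr 1
    funext a
    split_ifs <;> simp
  · rw [Submodule.span_le]
    rintro e ⟨_, h1, h2⟩
    exact ⟨h1, h2⟩

/-- the trace form on the centre is nondegenerate -/
theorem eq_of_trace [IsAlgClosed K] [CharZero K] {V : Type} [AddCommGroup V] [Module K V]
    [FiniteDimensional K V] {ρ : Representation K G V}
    (hss : ∀ Δ : Subgroup G, Δ.FiniteIndex → (conjRep Δ.subtype ρ).IsSemisimpleRepresentation)
    {c : Module.End K V} (hc : c ∈ zen ρ)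
    (h : ∀ e ∈ zen ρ, LinearMap.trace K V (c * e) = 0) : c = 0 := by
  classical
  have h1 : ∀ α, c.HasEigenvalue α → α = 0 := by
    intro α hα
    obtain ⟨e, he⟩ : ∃ e, e = fc c (fun a => if a = α then 1 else 0) := ⟨_, rfl⟩
    have h2 : c * e = α • e := by
      have h3 : c * e = fc c id * e := by rw [fc_id_of_zen hss hc]
      rw [h3, he, fc_mul]
      refine lin_ext c _ _ fun γ y hy => ?_
      rw [fc_apply c _ hy, LinearMap.smul_apply, fc_apply c _ hy, smul_smul]
      congr 1
      by_cases hγ : γ = α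
      · simp [hγ]
      · simp [hγ]
    have hee : e * e = e := by
      rw [he, fc_mul]
      congr 1
      funext a
      split_ifs <;> simp
    have h3 := h e (by rw [he]; exact fc_mem_zen hc _)
    rw [h2, map_smul, smul_eq_mul] at h3
    rcases mul_eq_zero.1 h3 with h4 | h4
    · exact h4
    · exfalso
      -- the trace of an idempotent is its rank
      have h5 := trace_restrict hee (Commute.one_right e)
      rw [one_mul] at h5
      have h6 : (1 : Module.End K V).restrict (mapsTo_range (Commute.one_right e)) = 1 := rfl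
      rw [h6, LinearMap.trace_one, h4] at h5
      have h7 : finrank K (LinearMap.range e) = 0 := by exact_mod_cast h5.symm
      obtain ⟨y, hy⟩ := hα.exists_hasEigenvector
      have h8 : y ∈ c.maxGenEigenspace α := by
        rw [Module.End.mem_maxGenEigenspace]
        refine ⟨1, ?_⟩
        rw [pow_one, LinearMap.sub_apply, hy.apply_eq_smul]
        simp
      have h9 : e y = y := by
        rw [he, fc_apply c _ h8, if_pos rfl, one_smul]
      rw [Submodule.finrank_eq_zero] at h7
      have h10 : y ∈ LinearMap.range e := ⟨y, h9⟩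
      rw [h7, Submodule.mem_bot] at h10
      exact hy.2 h10
  rw [← fc_id_of_zen hss hc, fc_congr c id (fun _ => 0) fun α hα => h1 α hα]
  refine lin_ext c _ _ fun γ y hy => ?_
  rw [fc_apply c _ hy, zero_smul]
  rfl

end Pool.Agent.T6.H33.ST
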