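import Mathlib

/-!
# Families of motives as representations: definitions

`G` is the group of the points of the motivic Galois group of a family of motives with values in an
algebraically closed field `K` which contains `ℚ_ℓ`, and `q` is the character of `G` on the Tate
motive. The realizations of the motives, with coefficients in `K`, are representations `ρ i` of `G` on
spaces `T i`. The Galois group `Γ` maps to `G` by `ι`.

In general the identity component of the algebraic group is described by the subgroups of finite index
of `G`: a motivated class is here a class which is invariant under a subgroup of finite index of `G`,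
up to the twist (an invariant of the identity component), and a Tate class is a class which is
invariant under a subgroup of finite index of `Γ`, up to the twist.
-/

set_option autoImplicit false

namespace Pool.Agent.T6.H33.ST

open Module

variable {K Γ G I : Type} [Field K] [Group Γ] [Group G] {T : I → Type}
  [∀ i, AddCommGroup (T i)] [∀ i, Module K (T i)]

/-- The element `g` acts through `q ^ j` on the multilinear form `f` on the product of the spaces
`T (s a)`, `a` in a finite set `A`. -/
def ActsBy (q : G →* Kˣ) (ρ : ∀ i, Representation K G (T i)) {A : Type} (s : A → I) (j : ℤ)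
    (f : MultilinearMap K (fun a => T (s a)) K) (g : G) : Prop :=
  ∀ t, f (fun a => ρ (s a) g (t a)) = ((q g ^ j : Kˣ) : K) * f t

/-- The form `f` is a Tate class (over a finite extension of the base field), of twist `j`. -/
def IsTate (ι : Γ →* G) (q : G →* Kˣ) (ρ : ∀ i, Representation K G (T i)) {A : Type} (s : A → I)
    (j : ℤ) (f : MultilinearMap K (fun a => T (s a)) K) : Prop :=
  ∃ Δ : Subgroup Γ, Δ.FiniteIndex ∧ ∀ γ ∈ Δ, ActsBy q ρ s j f (ι γ)

/-- The form `f` is (potentially) motivated, of twist `j`: a subgroup of finite index of `G` acts on it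
through `q ^ j`. -/
def IsMot (q : G →* Kˣ) (ρ : ∀ i, Representation K G (T i)) {A : Type} (s : A → I)
    (j : ℤ) (f : MultilinearMap K (fun a => T (s a)) K) : Prop :=
  ∃ Δ : Subgroup G, Δ.FiniteIndex ∧ ∀ g ∈ Δ, ActsBy q ρ s j f g

/-- **All Tate classes in all tensor constructions are motivated** (the equality of the identity
components of the ℓ-adic monodromy group and of the motivic Galois group). -/
def AllTateMotivated (ι : Γ →* G) (q : G →* Kˣ) (ρ : ∀ i, Representation K G (T i)) : Prop :=
  ∀ (A : Type) [Finite A] (s : A → I) (j : ℤ) (f : MultilinearMap K (fun a => T (s a)) K),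
    IsTate ι q ρ s j f → IsMot q ρ s j f

/-- The linear map `φ` from the endomorphisms of `T x` to those of `T y` commutes with the
conjugation by `g`. -/
def EndEquivariant (ρ : ∀ i, Representation K G (T i)) (x y : I)
    (φ : Module.End K (T x) →ₗ[K] Module.End K (T y)) (g : G) : Prop :=
  ∀ a, φ (ρ x g * a * ρ x g⁻¹) = ρ y g * φ a * ρ y g⁻¹

/-- **The Tate classes in `M_x ⊗ M_x^∨ ⊗ M_y ⊗ M_y^∨` are motivated**, for all members `M_x`, `M_y` of
the family: linear maps from `End (T x)` to `End (T y)` which commute with a subgroup of finite index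
of `Γ` commute with a subgroup of finite index of `G`. -/
def FourfoldTateMotivated (ι : Γ →* G) (ρ : ∀ i, Representation K G (T i)) : Prop :=
  ∀ (x y : I) (φ : Module.End K (T x) →ₗ[K] Module.End K (T y)),
    (∃ Δ : Subgroup Γ, Δ.FiniteIndex ∧ ∀ γ ∈ Δ, EndEquivariant ρ x y φ (ι γ)) →
    ∃ Δ : Subgroup G, Δ.FiniteIndex ∧ ∀ g ∈ Δ, EndEquivariant ρ x y φ g

/-- The motives are pure, of weights `- w i` up to the factor two, and polarised: `B i` is a
nondegenerate form on `T i` on which `G` acts through `q ^ (w i)`. -/
structure IsPolarized (q : G →* Kˣ) (ρ : ∀ i, Representation K G (T i)) (w : I → ℤ)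
    (B : ∀ i, T i →ₗ[K] T i →ₗ[K] K) : Prop where
  nondeg : ∀ i x, (∀ y, B i x y = 0) → x = 0
  equiv : ∀ i g x y, B i (ρ i g x) (ρ i g y) = ((q g ^ w i : Kˣ) : K) * B i x y

/-- The pair `(z, c)` of endomorphisms `z i` of `T i` and a number `c` (the action on the Tate motive)
kills, as a derivation, the form `f` of twist `j`. -/
def Kills {A : Type} [Fintype A] [DecidableEq A] (s : A → I) (j : ℤ)
    (f : MultilinearMap K (fun a => T (s a)) K) (z : (∀ i, Module.End K (T i)) × K) : Prop :=
  ∀ t, ∑ a, f (Function.update t a (z.1 (s a) (t a))) = (j : K) * z.2 * f t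

/-- `z` is in the Lie algebra of the group `G`: it kills all motivated classes. -/
def InLie (q : G →* Kˣ) (ρ : ∀ i, Representation K G (T i))
    (z : (∀ i, Module.End K (T i)) × K) : Prop :=
  ∀ (A : Type) [Fintype A] [DecidableEq A] (s : A → I) (j : ℤ)
    (f : MultilinearMap K (fun a => T (s a)) K), IsMot q ρ s j f → Kills s j f z

/-- `G` is an algebraic group (a property of the points of reductive algebraic groups): a form which
is killed by the Lie algebra is fixed by a subgroup of finite index, up to the twist. -/
def IsAlgebraic (q : G →* Kˣ) (ρ : ∀ i, Representation K G (T i)) : Prop :=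
  ∀ (A : Type) [Fintype A] [DecidableEq A] (s : A → I) (j : ℤ)
    (f : MultilinearMap K (fun a => T (s a)) K), (∀ z, InLie q ρ z → Kills s j f z) →
    IsMot q ρ s j f

/-- The conjugation action of `Γ` on the endomorphisms of `T i`. -/
def conjRep (ι : Γ →* G) {V : Type} [AddCommGroup V] [Module K V] (ρ : Representation K G V) :
    Representation K Γ (Module.End K V) where
  toFun γ :=
    { toFun := fun a => ρ (ι γ) * a * ρ (ι γ)⁻¹
      map_add' := fun a b => by rw [mul_add, add_mul]
      map_smul' := fun c a => by simp }
  map_one' := by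
    ext a
    simp
  map_mul' γ δ := by
    ext a
    simp [mul_assoc]

/-- The points of a reductive algebraic group: a form which is killed by the Lie algebra is fixed by a
subgroup of finite index, up to the twist, and the representations of the subgroups of finite index on
the endomorphisms of the `T i` are semisimple. -/
structure IsReductive (q : G →* Kˣ) (ρ : ∀ i, Representation K G (T i)) : Prop where
  algebraic : IsAlgebraic q ρ
  semisimple : ∀ Δ : Subgroup G, Δ.FiniteIndex → ∀ i,
    (conjRep Δ.subtype (ρ i)).IsSemisimpleRepresentation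

/-- `Γ` has a subgroup of finite index of elements which are neat on `V`: two eigenvalues whose
quotient is a root of unity are equal (a property of ℓ-adic representations of compact groups). -/
def IsNeat (ι : Γ →* G) {V : Type} [AddCommGroup V] [Module K V] (ρ : Representation K G V) : Prop :=
  ∃ Δ : Subgroup Γ, Δ.FiniteIndex ∧ ∀ γ ∈ Δ, ∀ α β : K,
    Module.End.HasEigenvalue (ρ (ι γ)) α → Module.End.HasEigenvalue (ρ (ι γ)) β →
    ∀ m : ℕ, 0 < m → α ^ m = β ^ m → α = β

/-- `e` is a (potential) endomorphism of the motive: it commutes with a subgroup of finite index. -/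
def IsEndo {V : Type} [AddCommGroup V] [Module K V] (ρ : Representation K G V)
    (e : Module.End K V) : Prop :=
  ∃ Δ : Subgroup G, Δ.FiniteIndex ∧ ∀ g ∈ Δ, Commute e (ρ g)

/-- All endomorphisms of the realizations which commute with a subgroup of finite index of `Γ` are
endomorphisms of the motives (the Tate classes in `M_i ⊗ M_i^∨` are motivated). -/
def EndosMotivated (ι : Γ →* G) (ρ : ∀ i, Representation K G (T i)) : Prop :=
  ∀ i (e : Module.End K (T i)), (∃ Δ : Subgroup Γ, Δ.FiniteIndex ∧ ∀ γ ∈ Δ, Commute e (ρ i (ι γ))) →
    IsEndo (ρ i) e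

/-- `z` is in the Lie algebra of the ℓ-adic monodromy group: it kills all Tate classes. -/
def InTateLie (ι : Γ →* G) (q : G →* Kˣ) (ρ : ∀ i, Representation K G (T i))
    (z : (∀ i, Module.End K (T i)) × K) : Prop :=
  ∀ (A : Type) [Fintype A] [DecidableEq A] (s : A → I) (j : ℤ)
    (f : MultilinearMap K (fun a => T (s a)) K), IsTate ι q ρ s j f → Kills s j f z

/-- The Lie algebra of the ℓ-adic monodromy group is stable under the conjugation by a subgroup of
finite index of `G`: it is stable under the identity component of the motivic Galois group (it is a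
submotive of the sum of the `M_i ⊗ M_i^∨` and the unit motive). -/
def LieIsMotivic (ι : Γ →* G) (q : G →* Kˣ) (ρ : ∀ i, Representation K G (T i)) : Prop :=
  ∃ Δ : Subgroup G, Δ.FiniteIndex ∧ ∀ g ∈ Δ, ∀ z : (∀ i, Module.End K (T i)) × K,
    InTateLie ι q ρ z → InTateLie ι q ρ (fun i => ρ i g * z.1 i * ρ i g⁻¹, z.2)

/-- The centre of the Lie algebra of the group `G` is contained in the Lie algebra of the ℓ-adic
monodromy group. -/
def CentreIsTate (ι : Γ →* G) (q : G →* Kˣ) (ρ : ∀ i, Representation K G (T i)) : Prop :=
  ∀ z : (∀ i, Module.End K (T i)) × K, InLie q ρ z →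
    (∀ m, InLie q ρ m → ∀ i, z.1 i * m.1 i = m.1 i * z.1 i) → InTateLie ι q ρ z

/-- No type IV: the endomorphisms of the motive `M_i` which are in the centre of the algebra of
endomorphisms are self-adjoint for the polarization (the Rosati involution is trivial on the centre,
so that it is a product of totally real fields). -/
def NoTypeFour (ρ : ∀ i, Representation K G (T i)) (B : ∀ i, T i →ₗ[K] T i →ₗ[K] K) : Prop :=
  ∀ i (e : Module.End K (T i)), IsEndo (ρ i) e → (∀ e', IsEndo (ρ i) e' → Commute e e') →
    ∀ x y, B i (e x) y = B i x (e y)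

/-- Some element of `Γ` acts on the Tate motive through a number which is not a root of unity. -/
def NotTorsion (ι : Γ →* G) (q : G →* Kˣ) : Prop :=
  ∃ γ : Γ, ∀ m : ℕ, 0 < m → q (ι γ) ^ m ≠ 1

/-- The Galois group maps onto all finite quotients of the motivic Galois group. -/
def OntoQuotients (ι : Γ →* G) : Prop :=
  ∀ Δ : Subgroup G, Δ.FiniteIndex → ∀ g : G, ∃ γ : Γ, ∃ d ∈ Δ, g = ι γ * d

/-- All forms on which `Γ` itself acts through `q ^ j` are forms on which `G` itself acts through
`q ^ j`: the ℓ-adic monodromy group and the motivic Galois group have the same invariants (the motivic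
Tate conjecture and the motivic Sato-Tate conjecture). -/
def SameClasses (ι : Γ →* G) (q : G →* Kˣ) (ρ : ∀ i, Representation K G (T i)) : Prop :=
  ∀ (A : Type) [Finite A] (s : A → I) (j : ℤ) (f : MultilinearMap K (fun a => T (s a)) K),
    (∀ γ, ActsBy q ρ s j f (ι γ)) → ∀ g, ActsBy q ρ s j f g

end Pool.Agent.T6.H33.ST
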