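import Pool.Agent.T6.H33.ST.Mult

/-!
# The determinant of an idempotent as a form
-/

set_option autoImplicit false

namespace Pool.Agent.T6.H33.ST

open Module

section one
variable {K V : Type} [Field K] [AddCommGroup V] [Module K V]

/-- the determinant form is an eigenvector of derivations -/
theorem sum_det_update {n : Type} [Fintype n] [DecidableEq n] (b : Basis n K V)
    (z : Module.End K V) (v : n → V) :
    ∑ k, b.det (Function.update v k (z (v k))) = LinearMap.trace K V z * b.det v := by
  obtain ⟨A, hA⟩ : ∃ A, A = b.toMatrix v := ⟨_, rfl⟩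
  obtain ⟨M, hM⟩ : ∃ M, M = LinearMap.toMatrix b b z := ⟨_, rfl⟩
  have h1 : ∀ k, b.det (Function.update v k (z (v k))) = (A.adjugate * (M * A)) k k := by
    intro k
    rw [Basis.det_apply, Basis.toMatrix_update, ← Matrix.cramer_apply,
      Matrix.cramer_eq_adjugate_mulVec, ← hA, ← LinearMap.toMatrix_mulVec_repr b b z (v k), ← hM,
      Matrix.mul_apply, Matrix.mulVec, dotProduct]
    refine Finset.sum_congr rfl fun i _ => ?_
    congr 1
    rw [Matrix.mul_apply, Matrix.mulVec, dotProduct]
    refine Finset.sum_congr rfl fun l _ => ?_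
    rw [hA, Basis.toMatrix_apply]
  rw [Finset.sum_congr rfl fun k _ => h1 k, Basis.det_apply, ← hA, LinearMap.trace_eq_matrix_trace K b,
    ← hM]
  show Matrix.trace (A.adjugate * (M * A)) = _
  rw [Matrix.trace_mul_comm, mul_assoc, Matrix.mul_adjugate, Matrix.mul_smul, mul_one,
    Matrix.trace_smul, smul_eq_mul, mul_comm]

variable [FiniteDimensional K V]

/-- the determinant form of an idempotent -/
noncomputable def detForm (e : Module.End K V) :
    MultilinearMap K (fun _ : Fin (finrank K (LinearMap.range e)) => V) K :=
  ((Module.finBasis K (LinearMap.range e)).det.toMultilinearMap).compLinearMap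
    (fun _ => e.rangeRestrict)

theorem detForm_apply (e : Module.End K V) (v : Fin (finrank K (LinearMap.range e)) → V) :
    detForm e v = (Module.finBasis K (LinearMap.range e)).det fun k => e.rangeRestrict (v k) := rfl

theorem mapsTo_range {e u : Module.End K V} (h : Commute e u) :
    ∀ x ∈ LinearMap.range e, u x ∈ LinearMap.range e := by
  rintro _ ⟨y, rfl⟩
  exact ⟨u y, by rw [← Module.End.mul_apply, h.eq]; rfl⟩

theorem restrict_range {e u : Module.End K V} (h : Commute e u) (x : V) :
    e.rangeRestrict (u x) = u.restrict (mapsTo_range h) (e.rangeRestrict x) := by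
  apply Subtype.ext
  show e (u x) = u (e x)
  rw [← Module.End.mul_apply, h.eq]
  rfl

/-- the determinant on the image of an idempotent -/
theorem det_restrict {e u : Module.End K V} (he : e * e = e) (h : Commute e u) :
    LinearMap.det (u * e + (1 - e)) = LinearMap.det (u.restrict (mapsTo_range h)) := by
  have hee : ∀ x ∈ LinearMap.range e, e x = x := by
    rintro _ ⟨y, rfl⟩
    rw [← Module.End.mul_apply, he]
  have h1 : LinearMap.range e ≤ (LinearMap.range e).comap (u * e + (1 - e)) := by
    intro x hx
    rw [Submodule.mem_comap]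
    rw [LinearMap.add_apply, LinearMap.sub_apply, Module.End.mul_apply, Module.End.one_apply,
      hee x hx, sub_self, add_zero]
    exact mapsTo_range h x hx
  rw [LinearMap.det_eq_det_mul_det (LinearMap.range e) (u * e + (1 - e)) h1]
  have h2 : (LinearMap.range e).mapQ (LinearMap.range e) (u * e + (1 - e)) h1 = LinearMap.id := by
    apply Submodule.linearMap_qext
    refine LinearMap.ext fun x => ?_
    rw [LinearMap.comp_apply, Submodule.mkQ_apply, Submodule.mapQ_apply, LinearMap.comp_apply,
      Submodule.mkQ_apply, LinearMap.id_apply, Submodule.Quotient.eq]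
    refine ⟨u x - x, ?_⟩
    rw [LinearMap.add_apply, LinearMap.sub_apply, Module.End.mul_apply, Module.End.one_apply, map_sub,
      ← Module.End.mul_apply e u, h.eq, Module.End.mul_apply]
    abel
  have h3 : (u * e + (1 - e)).restrict h1 = u.restrict (mapsTo_range h) := by
    refine LinearMap.ext fun x => ?_
    apply Subtype.ext
    show (u * e + (1 - e)) (x : V) = u x
    rw [LinearMap.add_apply, LinearMap.sub_apply, Module.End.mul_apply, Module.End.one_apply,
      hee x x.2, sub_self, add_zero]
  rw [h2, h3, LinearMap.det_id, mul_one]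

/-- the trace on the image of an idempotent -/
theorem trace_restrict {e z : Module.End K V} (he : e * e = e) (h : Commute e z) :
    LinearMap.trace K V (z * e) = LinearMap.trace K _ (z.restrict (mapsTo_range h)) := by
  have hee : ∀ x ∈ LinearMap.range e, e x = x := by
    rintro _ ⟨y, rfl⟩
    rw [← Module.End.mul_apply, he]
  have h1 : ∀ x, (z * e) x ∈ LinearMap.range e := fun x => mapsTo_range h _ ⟨x, rfl⟩
  rw [← LinearMap.trace_restrict_eq_of_forall_mem (LinearMap.range e) (z * e) h1]
  congr 1
  refine LinearMap.ext fun x => ?_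
  apply Subtype.ext
  show z (e x) = z x
  rw [hee x x.2]

theorem detForm_mul {e u : Module.End K V} (he : e * e = e) (h : Commute e u)
    (v : Fin (finrank K (LinearMap.range e)) → V) :
    detForm e (fun k => u (v k)) = LinearMap.det (u * e + (1 - e)) * detForm e v := by
  rw [det_restrict he h, detForm_apply, detForm_apply, ← Basis.det_comp]
  congr 1
  funext k
  exact restrict_range h (v k)

theorem detForm_der {e z : Module.End K V} (he : e * e = e) (h : Commute e z)
    (v : Fin (finrank K (LinearMap.range e)) → V) :
    ∑ k, detForm e (Function.update v k (z (v k))) = LinearMap.trace K V (z * e) * detForm e v := by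
  rw [trace_restrict he h, detForm_apply, ← sum_det_update]
  refine Finset.sum_congr rfl fun k _ => ?_
  rw [detForm_apply]
  congr 1
  funext l
  by_cases hl : l = k
  · subst hl
    rw [Function.update_self, Function.update_self]
    exact restrict_range h (v l)
  · rw [Function.update_of_ne hl, Function.update_of_ne hl]

theorem detForm_ne {e : Module.End K V} (he : e * e = e) : ∃ v, detForm e v ≠ 0 := by
  refine ⟨fun k => (Module.finBasis K (LinearMap.range e) k : V), ?_⟩
  rw [detForm_apply]
  have h1 : (fun k => e.rangeRestrict (Module.finBasis K (LinearMap.range e) k : V)) =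
      Module.finBasis K (LinearMap.range e) := by
    funext k
    apply Subtype.ext
    show e (Module.finBasis K (LinearMap.range e) k : V) = _
    obtain ⟨y, hy⟩ := (Module.finBasis K (LinearMap.range e) k).2
    rw [← hy, ← Module.End.mul_apply, he]
  rw [h1, Basis.det_self]
  exact one_ne_zero

end one

section prod
variable {K A : Type} {κ : A → Type} {V : A → Type}

theorem update_sigma [DecidableEq A] [∀ a, DecidableEq (κ a)] [inst : DecidableEq (Σ a, κ a)]
    (t : ∀ p : Σ a, κ a, V p.1) (a : A) (k : κ a) (x : V a) (a' : A) (h : a' ≠ a) :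
    (fun k' : κ a' => Function.update t ⟨a, k⟩ x ⟨a', k'⟩) = fun k' => t ⟨a', k'⟩ := by
  funext k'
  rw [Function.update_of_ne]
  intro h'
  exact h (congrArg Sigma.fst h')

theorem update_sigma_self [DecidableEq A] [∀ a, DecidableEq (κ a)] [inst : DecidableEq (Σ a, κ a)]
    (t : ∀ p : Σ a, κ a, V p.1) (a : A) (k : κ a) (x : V a) :
    (fun k' : κ a => Function.update t ⟨a, k⟩ x ⟨a, k'⟩) =
      Function.update (fun k' => t ⟨a, k'⟩) k x := by
  funext k'
  by_cases h : k' = k
  · subst h
    rw [Function.update_self, Function.update_self]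
  · rw [Function.update_of_ne h, Function.update_of_ne]
    intro h'
    apply h
    simpa using h'

variable [Field K] [∀ a, AddCommGroup (V a)] [∀ a, Module K (V a)] [Fintype A]

theorem prod_update [DecidableEq A] [∀ a, DecidableEq (κ a)] [inst : DecidableEq (Σ a, κ a)]
    (d : ∀ a, MultilinearMap K (fun _ : κ a => V a) K)
    (t : ∀ p : Σ a, κ a, V p.1) (a : A) (k : κ a) (x : V a) :
    ∏ a', d a' (fun k' => Function.update t ⟨a, k⟩ x ⟨a', k'⟩) =
      d a (Function.update (fun k' => t ⟨a, k'⟩) k x) *
        ∏ a' ∈ Finset.univ.erase a, d a' (fun k' => t ⟨a', k'⟩) := by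
  rw [← Finset.mul_prod_erase _ _ (Finset.mem_univ a), update_sigma_self (inst := inst)]
  congr 1
  refine Finset.prod_congr rfl fun a' ha' => ?_
  rw [update_sigma (inst := inst) t a k x a' (Finset.ne_of_mem_erase ha')]

/-- the product of multilinear forms in different variables -/
noncomputable def prodForm (d : ∀ a, MultilinearMap K (fun _ : κ a => V a) K) :
    MultilinearMap K (fun p : Σ a, κ a => V p.1) K where
  toFun t := ∏ a, d a (fun k => t ⟨a, k⟩)
  map_update_add' := by
    classical
    rintro inst t ⟨a, k⟩ x y
    rw [prod_update (inst := inst), prod_update (inst := inst), prod_update (inst := inst),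
      MultilinearMap.map_update_add, add_mul]
  map_update_smul' := by
    classical
    rintro inst t ⟨a, k⟩ c x
    rw [prod_update (inst := inst), prod_update (inst := inst), MultilinearMap.map_update_smul,
      smul_eq_mul, smul_eq_mul, mul_assoc]

theorem prodForm_apply (d : ∀ a, MultilinearMap K (fun _ : κ a => V a) K)
    (t : ∀ p : Σ a, κ a, V p.1) : prodForm d t = ∏ a, d a (fun k => t ⟨a, k⟩) := rfl

theorem prodForm_der [DecidableEq A] [∀ a, DecidableEq (κ a)] [∀ a, Fintype (κ a)]
    (d : ∀ a, MultilinearMap K (fun _ : κ a => V a) K) (z : ∀ a, Module.End K (V a)) (c : A → K)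
    (hd : ∀ a v, ∑ k, d a (Function.update v k (z a (v k))) = c a * d a v)
    (t : ∀ p : Σ a, κ a, V p.1) :
    ∑ p : Σ a, κ a, prodForm d (Function.update t p (z p.1 (t p))) =
      (∑ a, c a) * prodForm d t := by
  rw [Fintype.sum_sigma, Finset.sum_mul]
  refine Finset.sum_congr rfl fun a _ => ?_
  have h1 : ∀ k : κ a, prodForm d (Function.update t ⟨a, k⟩ (z a (t ⟨a, k⟩))) =
      d a (Function.update (fun k' => t ⟨a, k'⟩) k (z a (t ⟨a, k⟩))) *
        ∏ a' ∈ Finset.univ.erase a, d a' (fun k' => t ⟨a', k'⟩) := fun k => by
    rw [prodForm_apply, prod_update]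
  rw [Finset.sum_congr rfl fun k _ => h1 k, ← Finset.sum_mul, hd a (fun k' => t ⟨a, k'⟩), mul_assoc,
    Finset.mul_prod_erase _ (fun a' => d a' (fun k' => t ⟨a', k'⟩)) (Finset.mem_univ a)]
  rfl

end prod

end Pool.Agent.T6.H33.ST
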