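import Pool.Agent.T6.H33.ST.DetMain

/-!
# The centre of the Lie algebra and the determinants of isotypic components
-/

set_option autoImplicit false

namespace Pool.Agent.T6.H33.ST

open Module

variable {K Γ G I : Type} [Field K] [Group Γ] [Group G] {T : I → Type}
  [∀ i, AddCommGroup (T i)] [∀ i, Module K (T i)] [∀ i, FiniteDimensional K (T i)]
  {ι : Γ →* G} {q : G →* Kˣ} {ρ : ∀ i, Representation K G (T i)} {w : I → ℤ}
  {B : ∀ i, T i →ₗ[K] T i →ₗ[K] K}

theorem trace_idem {V : Type} [AddCommGroup V] [Module K V] [FiniteDimensional K V]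
    {e : Module.End K V} (hee : e * e = e) :
    LinearMap.trace K V e = (finrank K (LinearMap.range e) : K) := by
  have h5 := trace_restrict hee (Commute.one_right e)
  rw [one_mul] at h5
  have h6 : (1 : Module.End K V).restrict (mapsTo_range (Commute.one_right e)) = 1 := rfl
  rw [h6, LinearMap.trace_one] at h5
  exact h5

theorem exists_hat (hB : IsPolarized q ρ w B) {i : I} {e : Module.End K (T i)}
    (he : IsCentralIdem (ρ i) e) (n : ℤ) : ∃ e', IsCentralIdem (ρ i) e' ∧ ∃ δ : ℤ,
      ∀ u ∈ lieT (MonoidHom.id G) q ρ, (n.natAbs : K) * LinearMap.trace K (T i) (u.1 i * e') =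
        (n : K) * LinearMap.trace K (T i) (u.1 i * e) + (δ : K) * u.2 := by
  rcases le_or_gt 0 n with hn | hn
  · refine ⟨e, he, 0, fun u _ => ?_⟩
    have h1 : (n.natAbs : K) = (n : K) := by
      have : ((n.natAbs : ℕ) : ℤ) = n := by omega
      rw [← this]
      simp
    rw [h1, Int.cast_zero, zero_mul, add_zero]
  · obtain ⟨e', he', h⟩ := exists_adjoint hB he
    refine ⟨e', he', -n * w i * finrank K (LinearMap.range e), fun u hu => ?_⟩
    have h1 : (n.natAbs : K) = -(n : K) := by
      have : ((n.natAbs : ℕ) : ℤ) = -n := by omega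
      rw [← Int.cast_natCast, this, Int.cast_neg]
    rw [h1, h u hu, trace_idem he.1]
    push_cast
    ring

/-- integral relations of the logarithms are relations on the Lie algebra -/
theorem relation_of_log [IsAlgClosed K] [CharZero K] (hB : IsPolarized q ρ w B)
    (hneat : IsNeatFamily ι q ρ) (hD : DeterminantsMotivated ι q ρ) {A : Type} [Fintype A] {s : A → I}
    {e : ∀ a, Module.End K (T (s a))} (he : ∀ a, IsCentralIdem (ρ (s a)) (e a)) (n : A → ℤ) (n₀ : ℤ)
    (hr : ∃ Δ : Subgroup Γ, Δ.FiniteIndex ∧ ∀ γ ∈ Δ, ∀ l : Additive Kˣ →+ ℚ,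
      ∑ a, (n a : K) * LinearMap.trace K (T (s a)) ((zel ι q ρ γ (castL K l)).1 (s a) * e a) +
        (n₀ : K) * (zel ι q ρ γ (castL K l)).2 = 0)
    {z : (∀ i, Module.End K (T i)) × K} (hz : z ∈ lieT (MonoidHom.id G) q ρ) :
    ∑ a, (n a : K) * LinearMap.trace K (T (s a)) (z.1 (s a) * e a) + (n₀ : K) * z.2 = 0 := by
  choose e' he' δ hδ using fun a => exists_hat hB (he a) (n a)
  have key : ∀ u ∈ lieT (MonoidHom.id G) q ρ,
      ∑ p : Σ a, Fin (n a).natAbs, LinearMap.trace K (T (s p.1)) (u.1 (s p.1) * e' p.1) =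
      ∑ a, (n a : K) * LinearMap.trace K (T (s a)) (u.1 (s a) * e a) + (∑ a, (δ a : K)) * u.2 := by
    intro u hu
    rw [Fintype.sum_sigma, Finset.sum_mul, ← Finset.sum_add_distrib]
    refine Finset.sum_congr rfl fun a _ => ?_
    rw [← hδ a u hu]
    show ∑ _y : Fin (n a).natAbs, LinearMap.trace K (T (s a)) (u.1 (s a) * e' a) = _
    rw [Finset.sum_const, Finset.card_univ, Fintype.card_fin, nsmul_eq_mul]
  have h1 := lie_of_det (j := ∑ a, δ a - n₀) (s := fun p : Σ a, Fin (n a).natAbs => s p.1)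
    (e := fun p => e' p.1) hB hD (fun p => he' p.1) (det_of_log hneat (fun p => he' p.1) (by
      obtain ⟨Δ, hΔ, hr⟩ := hr
      refine ⟨Δ, hΔ, fun γ hγ l => ?_⟩
      have h2 := hr γ hγ l
      refine (key _ (lieT_le ι q ρ (zel_mem ι q ρ γ (castL K l)))).trans ?_
      push_cast
      linear_combination h2)) hz
  have h3 := (key z hz).symm.trans h1
  push_cast at h3
  linear_combination h3

/-- **the centre is in the Lie algebra of the monodromy group if the determinants are motivated** -/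
theorem centre_of_det [Finite I] [IsAlgClosed K] [CharZero K] (hB : IsPolarized q ρ w B)
    (hG : IsReductive q ρ) (hE : EndosMotivated ι ρ)
    (hss : ∀ i, (conjRep ι (ρ i)).IsSemisimpleRepresentation)
    (hneat : IsNeatFamily ι q ρ) (hD : DeterminantsMotivated ι q ρ) : CentreIsTate ι q ρ := by
  classical
  have : Fintype I := Fintype.ofFinite I
  intro z hz hzc
  have hzz : ∀ i, z.1 i ∈ zen (ρ i) := fun i =>
    ⟨isEndo_of_comm hB hG.algebraic fun m hm => hzc m hm i, fun e' he' => comm_of_endo hB he' hz⟩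
  -- finitely many central idempotents
  have hfin : ∀ i, ∃ S : Finset (Module.End K (T i)), (S : Set _) ⊆ {e | IsCentralIdem (ρ i) e} ∧
      zen (ρ i) = Submodule.span K (S : Set (Module.End K (T i))) := by
    intro i
    have h1 := zen_span (ρ := ρ i) (fun Δ hΔ => hG.semisimple Δ hΔ i)
    obtain ⟨S, hS1, hS2⟩ := (Submodule.fg_span_iff_fg_span_finset_subset
      {e | IsCentralIdem (ρ i) e}).1 (by rw [← h1]; exact IsNoetherian.noetherian _)
    exact ⟨S, hS1, h1.trans hS2⟩
  choose S hS1 hS2 using hfin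
  have he : ∀ a : Σ i, S i, IsCentralIdem (ρ a.1) (a.2 : Module.End K (T a.1)) := fun a =>
    hS1 a.1 a.2.2
  obtain ⟨Δ₁, hΔ₁, hc⟩ := exists_comm (s := fun a : Σ i, S i => a.1)
    (e := fun a => (a.2 : Module.End K (T a.1))) fun a => (he a).2.1
  have i1 := finiteIndex_comap ι Δ₁
  -- the functionals
  let χ : ((∀ i, Module.End K (T i)) × K) →ₗ[K] (Option (Σ i, S i) → K) :=
    { toFun := fun u b => b.elim u.2 fun a => LinearMap.trace K (T a.1) (u.1 a.1 * a.2)
      map_add' := fun u v => by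
        funext b
        cases b with
        | none => rfl
        | some a =>
          show LinearMap.trace K (T a.1) ((u.1 a.1 + v.1 a.1) * a.2) = _ + _
          rw [add_mul, map_add]
          rfl
      map_smul' := fun c u => by
        funext b
        cases b with
        | none => rfl
        | some a =>
          show LinearMap.trace K (T a.1) ((c • u.1 a.1) * a.2) = c * _
          rw [smul_mul_assoc, map_smul]
          rfl }
  have hχ0 : ∀ u, χ u none = u.2 := fun u => rfl
  have hχ1 : ∀ u a, χ u (some a) = LinearMap.trace K (T a.1) (u.1 a.1 * a.2) := fun u a => rfl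
  let R : Set (Option (Σ i, S i) → ℚ) :=
    {r | ∃ γ ∈ Δ₁.comap ι, ∃ l : Additive Kˣ →+ ℚ, castV r = χ (zel ι q ρ γ (castL K l))}
  -- the values of the logarithms are rational
  have hRmem : ∀ γ ∈ Δ₁.comap ι, ∀ l : Additive Kˣ →+ ℚ, ∃ r ∈ R,
      castV r = χ (zel ι q ρ γ (castL K l)) := by
    intro γ hγ l
    choose μ hμ1 hμ2 using fun a : Σ i, S i => det_mem (g := ρ a.1 (ι γ)) (g' := ρ a.1 (ι γ)⁻¹)
      (rho_inv_mul (ρ := ρ) _ _) (he a).1 (hc _ hγ a) ⊤ (fun _ _ => Subgroup.mem_top _)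
    obtain ⟨r, hr⟩ : ∃ r : Option (Σ i, S i) → ℚ, castV r = χ (zel ι q ρ γ (castL K l)) := by
      refine ⟨fun b => b.elim (l (Additive.ofMul (q (ι γ)))) fun a => l (Additive.ofMul (μ a)), ?_⟩
      funext b
      cases b with
      | none => exact (castL_apply l _).symm
      | some a =>
        show ((l (Additive.ofMul (μ a)) : ℚ) : K) = _
        rw [← castL_apply]
        exact (trace_fc (rho_inv_mul (ρ := ρ) _ _) (he a).1 (hc _ hγ a) (μ a) (hμ2 a) _).symm
    exact ⟨r, ⟨γ, hγ, l, hr⟩, hr⟩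
  -- the values of `z` are in the span
  have hspan : χ z ∈ Submodule.span K (castV '' R) := by
    refine mem_span_of_int R (χ z) fun n hn => ?_
    have h1 := relation_of_log hB hneat hD (s := fun a : Σ i, S i => a.1)
      (e := fun a => (a.2 : Module.End K (T a.1))) he (fun a => n (some a)) (n none)
      ⟨Δ₁.comap ι, i1, fun γ hγ l => by
        obtain ⟨r, hr, hr'⟩ := hRmem γ hγ l
        have h2 := hn r hr
        rw [Fintype.sum_option] at h2
        have h3 := congrArg (fun x : ℚ => (x : K)) h2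
        push_cast at h3
        have h4 : ∀ b, ((r b : ℚ) : K) = χ (zel ι q ρ γ (castL K l)) b := fun b => congrFun hr' b
        simp only [h4] at h3
        rw [add_comm]
        exact h3⟩ hz
    rw [Fintype.sum_option, add_comm]
    exact h1
  -- an element of the Lie algebra of the monodromy group with the same values
  obtain ⟨u, hu, hχu⟩ : ∃ u ∈ lieT ι q ρ, χ u = χ z := by
    have h1 : Submodule.span K (castV '' R) ≤ (lieT ι q ρ).map χ := by
      rw [Submodule.span_le]
      rintro _ ⟨r, ⟨γ, hγ, l, hr⟩, rfl⟩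
      exact ⟨_, zel_mem ι q ρ γ (castL K l), hr.symm⟩
    exact h1 hspan
  have htr : ∀ i, ∀ e ∈ zen (ρ i), LinearMap.trace K (T i) (u.1 i * e) =
      LinearMap.trace K (T i) (z.1 i * e) := by
    intro i e he'
    rw [hS2 i] at he'
    induction he' using Submodule.span_induction with
    | mem x hx => exact congrFun hχu (some ⟨i, x, hx⟩)
    | zero => rw [mul_zero, mul_zero]
    | add x y _ _ hx hy => rw [mul_add, mul_add, map_add, map_add, hx, hy]
    | smul c x _ hx => rw [mul_smul_comm, mul_smul_comm, map_smul, map_smul, hx]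
  -- the centre is stable
  have hzst : ∀ i (g : G), ∀ e ∈ zen (ρ i), ρ i g⁻¹ * e * ρ i g ∈ zen (ρ i) := by
    have hconj : ∀ i (g : G) (e : Module.End K (T i)), IsEndo (ρ i) e →
        IsEndo (ρ i) (ρ i g⁻¹ * e * ρ i g) := by
      rintro i g e ⟨Δ, hΔ, h⟩
      refine ⟨Δ.normalCore, inferInstance, fun g' hg' => ?_⟩
      have h1 : g * g' * g⁻¹ ∈ Δ :=
        Δ.normalCore_le ((Subgroup.normalCore_normal Δ).conj_mem g' hg' g)
      have h2 := (h _ h1).eq
      rw [map_mul, map_mul] at h2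
      show ρ i g⁻¹ * e * ρ i g * ρ i g' = ρ i g' * (ρ i g⁻¹ * e * ρ i g)
      calc ρ i g⁻¹ * e * ρ i g * ρ i g' =
          ρ i g⁻¹ * (e * (ρ i g * ρ i g' * ρ i g⁻¹)) * ρ i g := by
            rw [mul_assoc (ρ i g⁻¹) (e * _), mul_assoc e, mul_assoc (ρ i g * ρ i g'), rho_inv_mul,
              mul_one]
            simp only [mul_assoc]
        _ = ρ i g⁻¹ * (ρ i g * ρ i g' * ρ i g⁻¹ * e) * ρ i g := by rw [h2]
        _ = (ρ i g⁻¹ * ρ i g) * (ρ i g' * (ρ i g⁻¹ * e * ρ i g)) := by simp only [mul_assoc]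
        _ = _ := by rw [rho_inv_mul, one_mul]
    intro i g e he'
    refine ⟨hconj i g e he'.1, fun e' he'' => ?_⟩
    have h1 : IsEndo (ρ i) (ρ i g * e' * ρ i g⁻¹) := by
      have := hconj i g⁻¹ e' he''
      rwa [inv_inv] at this
    have h2 := (he'.2 _ h1).eq
    show ρ i g⁻¹ * e * ρ i g * e' = e' * (ρ i g⁻¹ * e * ρ i g)
    calc ρ i g⁻¹ * e * ρ i g * e' = ρ i g⁻¹ * (e * (ρ i g * e' * ρ i g⁻¹)) * ρ i g := by
          rw [mul_assoc (ρ i g⁻¹) (e * _), mul_assoc e, mul_assoc (ρ i g * e'), rho_inv_mul, mul_one]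
          simp only [mul_assoc]
      _ = ρ i g⁻¹ * (ρ i g * e' * ρ i g⁻¹ * e) * ρ i g := by rw [h2]
      _ = (ρ i g⁻¹ * ρ i g) * (e' * (ρ i g⁻¹ * e * ρ i g)) := by simp only [mul_assoc]
      _ = _ := by rw [rho_inv_mul, one_mul]
  -- an invariant element with the same values
  let W : Submodule K ((∀ i, Module.End K (T i)) × K) :=
    { carrier := {v | v ∈ lieT ι q ρ ∧ v.2 = 0 ∧
        ∀ i, ∀ e ∈ zen (ρ i), LinearMap.trace K (T i) (v.1 i * e) = 0}
      zero_mem' := ⟨Submodule.zero_mem _, rfl, fun i e _ => by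
        show LinearMap.trace K (T i) (0 * e) = 0
        rw [zero_mul, map_zero]⟩
      add_mem' := by
        rintro a b ⟨h1, h2, h3⟩ ⟨h1', h2', h3'⟩
        refine ⟨Submodule.add_mem _ h1 h1', ?_, fun i e he => ?_⟩
        · show a.2 + b.2 = 0
          rw [h2, h2', add_zero]
        · show LinearMap.trace K (T i) ((a.1 i + b.1 i) * e) = 0
          rw [add_mul, map_add, h3 i e he, h3' i e he, add_zero]
      smul_mem' := by
        rintro c a ⟨h1, h2, h3⟩
        refine ⟨Submodule.smul_mem _ _ h1, ?_, fun i e he => ?_⟩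
        · show c * a.2 = 0
          rw [h2, mul_zero]
        · show LinearMap.trace K (T i) ((c • a.1 i) * e) = 0
          rw [smul_mul_assoc, map_smul, h3 i e he, smul_zero] }
  have hconjtr : ∀ i (g : G) (a e : Module.End K (T i)),
      LinearMap.trace K (T i) (ρ i g * a * ρ i g⁻¹ * e) =
      LinearMap.trace K (T i) (a * (ρ i g⁻¹ * e * ρ i g)) := by
    intro i g a e
    rw [mul_assoc, mul_assoc, LinearMap.trace_mul_comm]
    simp only [mul_assoc]
  obtain ⟨W', hW', hst⟩ := exists_compl (fun i => conjRep ι (ρ i)) hss W (fun γ v hv =>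
    ⟨adL_mem γ hv.1, hv.2.1, fun i e he => (hconjtr i (ι γ) (v.1 i) e).trans
      (hv.2.2 i _ (hzst i (ι γ) e he))⟩)
  obtain ⟨b, hb, hb2, hbtr, hbfix⟩ : ∃ b ∈ lieT ι q ρ, b.2 = u.2 ∧
      (∀ i, ∀ e ∈ zen (ρ i), LinearMap.trace K (T i) (b.1 i * e) =
        LinearMap.trace K (T i) (u.1 i * e)) ∧
      ∀ γ ∈ Δ₁.comap ι, adL ρ (ι γ) b = b := by
    have h1 : u ∈ W ⊔ W' := by
      rw [hW'.sup_eq_top]
      exact Submodule.mem_top
    obtain ⟨a, ha, b, hb, hab⟩ := Submodule.mem_sup.1 h1
    have hb' : b ∈ lieT ι q ρ := by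
      have : b = u - a := by rw [← hab]; abel
      rw [this]
      exact Submodule.sub_mem _ hu ha.1
    refine ⟨b, hb', ?_, fun i e he => ?_, fun γ hγ => ?_⟩
    · rw [← hab]
      show b.2 = a.2 + b.2
      rw [ha.2.1, zero_add]
    · rw [← hab]
      show _ = LinearMap.trace K (T i) ((a.1 i + b.1 i) * e)
      rw [add_mul, map_add, ha.2.2 i e he, zero_add]
    · rw [← sub_eq_zero]
      refine (Submodule.disjoint_def.1 hW'.disjoint) _ ⟨Submodule.sub_mem _ (adL_mem γ hb') hb', ?_, ?_⟩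
        (Submodule.sub_mem _ (hst γ b hb) hb)
      · show b.2 - b.2 = 0
        exact sub_self _
      · intro i e he'
        show LinearMap.trace K (T i) ((ρ i (ι γ) * b.1 i * ρ i (ι γ)⁻¹ - b.1 i) * e) = 0
        have h2 : ρ i (ι γ)⁻¹ * e * ρ i (ι γ) = e := by
          rw [hS2 i] at he'
          induction he' using Submodule.span_induction with
          | mem x hx =>
            have h3 : x * ρ i (ι γ) = ρ i (ι γ) * x := (hc _ hγ ⟨i, x, hx⟩).eq
            rw [mul_assoc, h3, ← mul_assoc, rho_inv_mul, one_mul]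
          | zero => rw [mul_zero, zero_mul]
          | add x y _ _ hx hy => rw [mul_add, add_mul, hx, hy]
          | smul c x _ hx => rw [mul_smul_comm, smul_mul_assoc, hx]
        rw [sub_mul, map_sub, hconjtr, h2, sub_self]
  have hbz : ∀ i, b.1 i ∈ zen (ρ i) := fun i =>
    ⟨hE i _ ⟨Δ₁.comap ι, i1, fun γ hγ =>
      commute_of_conj (congrFun (congrArg Prod.fst (hbfix γ hγ)) i)⟩,
      fun e' he' => comm_of_endo hB he' (lieT_le ι q ρ hb)⟩
  have hzb : z = b := by
    refine Prod.ext ?_ ?_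
    · funext i
      rw [← sub_eq_zero]
      refine eq_of_trace (fun Δ hΔ => hG.semisimple Δ hΔ i) (Submodule.sub_mem _ (hzz i) (hbz i))
        fun e he => ?_
      rw [sub_mul, map_sub, hbtr i e he, htr i e he, sub_self]
    · rw [hb2]
      exact (congrFun hχu none).symm
  rw [hzb]
  exact hb

/-- neat families consist of neat representations -/
theorem isNeat_of_family (h : IsNeatFamily ι q ρ) (i : I) : IsNeat ι (ρ i) := by
  obtain ⟨Δ, hΔ, h⟩ := h
  refine ⟨Δ, hΔ, fun γ hγ α β hα hβ m hm hab => ?_⟩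
  have hne : ∀ α, Module.End.HasEigenvalue (ρ i (ι γ)) α → α ≠ 0 := by
    rintro α hα rfl
    obtain ⟨x, hx, hx0⟩ := hα.exists_hasEigenvector
    apply hx0
    rw [Module.End.mem_eigenspace_iff, zero_smul] at hx
    have : (ρ i (ι γ)⁻¹ * ρ i (ι γ)) x = 0 := by rw [Module.End.mul_apply, hx, map_zero]
    rw [rho_inv_mul] at this
    exact this
  have h1 := h γ hγ (Units.mk0 α (hne α hα) / Units.mk0 β (hne β hβ))
    (Subgroup.div_mem _ (Subgroup.subset_closure (Or.inr ⟨i, hα⟩))
      (Subgroup.subset_closure (Or.inr ⟨i, hβ⟩))) m hm (by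
        rw [div_pow, div_eq_one]
        apply Units.ext
        simpa using hab)
  rw [div_eq_one] at h1
  simpa using congrArg Units.val h1

end Pool.Agent.T6.H33.ST
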