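import Mathlib

/-!
# Subspaces which are spanned by rational vectors
-/

set_option autoImplicit false

namespace Pool.Agent.T6.H33.ST

open Module

variable {K B : Type} [Field K] [CharZero K] [Fintype B]

/-- the rational vector as a vector over `K` -/
def castV (r : B → ℚ) : B → K := fun b => ((r b : ℚ) : K)

theorem castV_mem_span {R : Set (B → ℚ)} {x : B → ℚ} (hx : x ∈ Submodule.span ℚ R) :
    (castV x : B → K) ∈ Submodule.span K (castV '' R) := by
  induction hx using Submodule.span_induction with
  | mem y hy => exact Submodule.subset_span ⟨y, hy, rfl⟩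
  | zero =>
    have : (castV (0 : B → ℚ) : B → K) = 0 := by
      funext b
      simp [castV]
    rw [this]
    exact Submodule.zero_mem _
  | add y z _ _ hy hz =>
    have : (castV (y + z) : B → K) = castV y + castV z := by
      funext b
      simp [castV]
    rw [this]
    exact Submodule.add_mem _ hy hz
  | smul c y _ hy =>
    have : (castV (c • y) : B → K) = (c : K) • castV y := by
      funext b
      simp [castV]
    rw [this]
    exact Submodule.smul_mem _ _ hy

/-- a vector which satisfies all integral relations of a set of rational vectors is in its span -/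
theorem mem_span_of_int (R : Set (B → ℚ)) (v : B → K)
    (h : ∀ n : B → ℤ, (∀ r ∈ R, ∑ b, (n b : ℚ) * r b = 0) → ∑ b, (n b : K) * v b = 0) :
    v ∈ Submodule.span K (castV '' R) := by
  classical
  obtain ⟨C, hC⟩ := exists_isCompl (Submodule.span ℚ R)
  let π := C.projection (Submodule.span ℚ R) hC.symm
  have hπ0 : ∀ r ∈ Submodule.span ℚ R, π r = 0 := fun r hr =>
    Submodule.projection_apply_of_mem_right hC.symm hr
  have hπ1 : ∀ x, x - π x ∈ Submodule.span ℚ R := by
    intro x
    have h1 : x ∈ Submodule.span ℚ R ⊔ C := by
      rw [hC.sup_eq_top]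
      exact Submodule.mem_top
    obtain ⟨y, hy, z, hz, rfl⟩ := Submodule.mem_sup.1 h1
    rw [map_add, hπ0 y hy, zero_add]
    have h2 : π z = z := Submodule.projection_apply_of_mem_left hC.symm hz
    rw [h2, add_sub_cancel_right]
    exact hy
  -- the relations
  have hlin : ∀ (x : B → ℚ) (b' : B), π x b' = ∑ b, x b * π (Pi.single b 1) b' := by
    intro x b'
    conv_lhs => rw [pi_eq_sum_univ' x, map_sum]
    rw [Finset.sum_apply]
    refine Finset.sum_congr rfl fun b _ => ?_
    rw [map_smul]
    rfl
  have key : ∀ b', ∑ b, ((π (Pi.single b 1) b' : ℚ) : K) * v b = 0 := by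
    intro b'
    obtain ⟨⟨D, hD⟩, hD'⟩ := IsLocalization.exist_integer_multiples_of_finite (nonZeroDivisors ℤ)
      (fun b => π (Pi.single b 1) b')
    have hD0 : D ≠ 0 := nonZeroDivisors.ne_zero hD
    choose n hn using hD'
    have hn' : ∀ b, (n b : ℚ) = D * π (Pi.single b 1) b' := by
      intro b
      have := hn b
      simpa [zsmul_eq_mul] using this
    have h1 := h n fun r hr => by
      have h2 := hlin r b'
      rw [hπ0 r (Submodule.subset_span hr)] at h2
      have h3 : ∑ b, (n b : ℚ) * r b = D * ∑ b, r b * π (Pi.single b 1) b' := by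
        rw [Finset.mul_sum]
        refine Finset.sum_congr rfl fun b _ => ?_
        rw [hn' b]
        ring
      rw [h3, ← h2]
      simp
    have h2 : ∑ b, (n b : K) * v b = (D : K) * ∑ b, ((π (Pi.single b 1) b' : ℚ) : K) * v b := by
      rw [Finset.mul_sum]
      refine Finset.sum_congr rfl fun b _ => ?_
      have h3 : (n b : K) = (D : K) * ((π (Pi.single b 1) b' : ℚ) : K) := by
        have := congrArg (fun x : ℚ => (x : K)) (hn' b)
        simpa using this
      rw [h3]
      ring
    rw [h2] at h1
    rcases mul_eq_zero.1 h1 with h3 | h3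
    · exact absurd (by exact_mod_cast h3) hD0
    · exact h3
  have hv : v = ∑ b, v b • (castV (Pi.single b 1 - π (Pi.single b 1)) : B → K) := by
    funext b'
    rw [Finset.sum_apply]
    have h1 : ∀ b, (v b • (castV (Pi.single b 1 - π (Pi.single b 1)) : B → K)) b' =
        v b * ((Pi.single b (1 : K) : B → K) b') - ((π (Pi.single b 1) b' : ℚ) : K) * v b := by
      intro b
      rw [Pi.smul_apply, smul_eq_mul, castV, Pi.sub_apply]
      by_cases hb : b' = b
      · subst hb
        simp
        ring
      · simp [hb]
        ring
    rw [Finset.sum_congr rfl fun b _ => h1 b, Finset.sum_sub_distrib, key b', sub_zero]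
    rw [Finset.sum_eq_single b']
    · simp
    · intro b _ hb
      rw [Pi.single_eq_of_ne hb.symm, mul_zero]
    · intro hb
      exact absurd (Finset.mem_univ _) hb
  rw [hv]
  exact Submodule.sum_mem _ fun b _ => Submodule.smul_mem _ _ (castV_mem_span (hπ1 _))

end Pool.Agent.T6.H33.ST
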