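import Pool.Agent.T6.H33.ST.Adj
import Pool.Agent.T6.H33.ST.Rat

/-!
# The centre and the determinants
-/

set_option autoImplicit false

namespace Pool.Agent.T6.H33.ST

open Module

/-- a number which is not a root of unity is detected by a rational additive map on the multiplicative
group -/
theorem exists_addQ {K : Type} [Field K] (x : Kˣ) (hx : ∀ m : ℕ, 0 < m → x ^ m ≠ 1) :
    ∃ l : Additive Kˣ →+ ℚ, l (Additive.ofMul x) ≠ 0 := by
  have : DivisibleBy ℚ ℤ :=
    { div := fun a n => a / n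
      div_zero := fun a => by simp
      div_cancel := fun {n} a hn => by
        have : (n : ℚ) ≠ 0 := by exact_mod_cast hn
        rw [zsmul_eq_mul]
        field_simp }
  have hB : Module.Baer ℤ ℚ := Module.Baer.of_divisible ℚ
  let f : ℤ →ₗ[ℤ] Additive Kˣ := LinearMap.toSpanSingleton ℤ _ (Additive.ofMul x)
  have hf : Function.Injective f := by
    rw [← LinearMap.ker_eq_bot, eq_bot_iff]
    intro n hn
    rw [LinearMap.mem_ker, LinearMap.toSpanSingleton_apply] at hn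
    by_contra h0
    have h1 : x ^ n = 1 := by
      have : Additive.ofMul (x ^ n) = 0 := by rw [ofMul_zpow]; exact hn
      exact ofMul_eq_zero.1 this
    have h2 : n ≠ 0 := fun h => h0 (by rw [h]; exact Submodule.zero_mem _)
    rcases lt_or_gt_of_ne h2 with h3 | h3
    · apply hx n.natAbs (Int.natAbs_pos.2 h2)
      have h4 : ((n.natAbs : ℕ) : ℤ) = -n := by omega
      rw [← zpow_natCast, h4, zpow_neg, h1, inv_one]
    · apply hx n.natAbs (Int.natAbs_pos.2 h2)
      have h4 : ((n.natAbs : ℕ) : ℤ) = n := by omega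
      rw [← zpow_natCast, h4, h1]
  obtain ⟨h, hh⟩ := hB.extension_property f hf (LinearMap.toSpanSingleton ℤ ℚ 1)
  refine ⟨h.toAddMonoidHom, ?_⟩
  have h1 : h (f 1) = 1 := by
    have := congrArg (fun g => g 1) hh
    simpa using this
  have h2 : f 1 = Additive.ofMul x := by simp [f]
  rw [h2] at h1
  show h (Additive.ofMul x) ≠ 0
  rw [h1]
  exact one_ne_zero

/-- a rational additive map as a map to the field -/
noncomputable def castL (K : Type) [Field K] [CharZero K] (l : Additive Kˣ →+ ℚ) :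
    Additive Kˣ →+ K :=
  (algebraMap ℚ K).toAddMonoidHom.comp l

theorem castL_apply {K : Type} [Field K] [CharZero K] (l : Additive Kˣ →+ ℚ) (x : Additive Kˣ) :
    castL K l x = ((l x : ℚ) : K) := by
  simp [castL]

variable {K Γ G I : Type} [Field K] [Group Γ] [Group G] {T : I → Type}
  [∀ i, AddCommGroup (T i)] [∀ i, Module K (T i)] [∀ i, FiniteDimensional K (T i)]
  {ι : Γ →* G} {q : G →* Kˣ} {ρ : ∀ i, Representation K G (T i)} {w : I → ℤ}
  {B : ∀ i, T i →ₗ[K] T i →ₗ[K] K}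

section forms
variable {A : Type} [Fintype A] (s : A → I) (e : ∀ a, Module.End K (T (s a)))

/-- the product of the determinant forms -/
noncomputable def dets : MultilinearMap K
    (fun p : Σ a, Fin (finrank K (LinearMap.range (e a))) => T (s p.1)) K :=
  prodForm (V := fun a => T (s a)) fun a => detForm (e a)

variable {s e}

theorem dets_ne (he : ∀ a, e a * e a = e a) : ∃ t, dets s e t ≠ 0 := by
  choose v hv using fun a => detForm_ne (he a)
  refine ⟨fun p => v p.1 p.2, ?_⟩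
  show ∏ a, detForm (e a) (fun k => v a k) ≠ 0
  exact Finset.prod_ne_zero_iff.2 fun a _ => hv a

theorem dets_mul (he : ∀ a, e a * e a = e a) {g : G} (hc : ∀ a, Commute (e a) (ρ (s a) g))
    (t : ∀ p : Σ a, Fin (finrank K (LinearMap.range (e a))), T (s p.1)) :
    dets s e (fun p => ρ (s p.1) g (t p)) = (∏ a, detOn (ρ (s a)) (e a) g) * dets s e t := by
  show ∏ a, detForm (e a) (fun k => ρ (s a) g (t ⟨a, k⟩)) = _ * ∏ a, detForm (e a) (fun k => t ⟨a, k⟩)
  rw [← Finset.prod_mul_distrib]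
  exact Finset.prod_congr rfl fun a _ => detForm_mul (he a) (hc a) _

theorem dets_kills [DecidableEq A] (he : ∀ a, e a * e a = e a)
    {u : (∀ i, Module.End K (T i)) × K} (hc : ∀ a, Commute (e a) (u.1 (s a))) {j : ℤ}
    (hk : Kills (fun p : Σ a, Fin (finrank K (LinearMap.range (e a))) => s p.1) j (dets s e) u) :
    ∑ a, LinearMap.trace K (T (s a)) (u.1 (s a) * e a) = (j : K) * u.2 := by
  obtain ⟨t, ht⟩ := dets_ne (s := s) he
  have h1 := hk t
  have h2 := prodForm_der (V := fun a => T (s a)) (fun a => detForm (e a)) (fun a => u.1 (s a))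
    (fun a => LinearMap.trace K (T (s a)) (u.1 (s a) * e a))
    (fun a v => detForm_der (he a) (hc a) v) t
  have h3 : (∑ a, LinearMap.trace K (T (s a)) (u.1 (s a) * e a)) * dets s e t =
      (j : K) * u.2 * dets s e t := h2.symm.trans h1
  exact mul_right_cancel₀ ht h3

end forms

theorem exists_comm {A : Type} [Fintype A] {s : A → I} {e : ∀ a, Module.End K (T (s a))}
    (he : ∀ a, IsEndo (ρ (s a)) (e a)) :
    ∃ Δ : Subgroup G, Δ.FiniteIndex ∧ ∀ g ∈ Δ, ∀ a, Commute (e a) (ρ (s a) g) := by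
  choose D hD h using he
  exact ⟨⨅ a, D a, Subgroup.finiteIndex_iInf hD, fun g hg a =>
    h a g (Subgroup.mem_iInf.1 hg a)⟩

/-- all Tate classes motivated ⇒ the determinants are -/
theorem det_of_all (h : AllTateMotivated ι q ρ) : DeterminantsMotivated ι q ρ := by
  rintro A _ s e j he ⟨Δ, hΔ, hr⟩
  obtain ⟨Δ₁, hΔ₁, hc⟩ := exists_comm (s := s) fun a => (he a).2.1
  have i1 := finiteIndex_comap ι Δ₁
  obtain ⟨Δ₂, hΔ₂, h2⟩ := h _ (fun p : Σ a, Fin (finrank K (LinearMap.range (e a))) => s p.1) j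
    (dets s e) ⟨Δ ⊓ Δ₁.comap ι, inferInstance, fun γ hγ t => by
      rw [← hr γ hγ.1]
      exact dets_mul (fun a => (he a).1) (hc _ hγ.2) t⟩
  refine ⟨Δ₂ ⊓ Δ₁, inferInstance, fun g hg => ?_⟩
  obtain ⟨t, ht⟩ := dets_ne (s := s) fun a => (he a).1
  exact mul_right_cancel₀ ht ((dets_mul (fun a => (he a).1) (hc _ hg.2) t).symm.trans (h2 g hg.1 t))

/-- relations between determinants give relations on the Lie algebra -/
theorem lie_of_det (hB : IsPolarized q ρ w B) (hD : DeterminantsMotivated ι q ρ) {A : Type}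
    [Fintype A] {s : A → I} {e : ∀ a, Module.End K (T (s a))} {j : ℤ}
    (he : ∀ a, IsCentralIdem (ρ (s a)) (e a))
    (hr : ∃ Δ : Subgroup Γ, Δ.FiniteIndex ∧ ∀ γ ∈ Δ,
      ∏ a, detOn (ρ (s a)) (e a) (ι γ) = ((q (ι γ) ^ j : Kˣ) : K))
    {u : (∀ i, Module.End K (T i)) × K} (hu : u ∈ lieT (MonoidHom.id G) q ρ) :
    ∑ a, LinearMap.trace K (T (s a)) (u.1 (s a) * e a) = (j : K) * u.2 := by
  classical
  obtain ⟨Δ, hΔ, h⟩ := hD A s e j he hr
  obtain ⟨Δ₁, hΔ₁, hc⟩ := exists_comm (s := s) fun a => (he a).2.1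
  refine dets_kills (fun a => (he a).1) (fun a => (comm_of_endo hB (he a).2.1 hu).symm) ?_
  refine hu _ _ _ _ ⟨Δ ⊓ Δ₁, inferInstance, fun g hg t => ?_⟩
  have h3 := h g hg.1
  show dets s e (fun p => ρ (s p.1) g (t p)) = ((q g ^ j : Kˣ) : K) * _
  rw [← h3]
  exact dets_mul (fun a => (he a).1) (hc _ hg.2) t

/-- relations between logarithms give relations between determinants -/
theorem det_of_log [IsAlgClosed K] [CharZero K] (hneat : IsNeatFamily ι q ρ) {A : Type}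
    [Fintype A] {s : A → I} {e : ∀ a, Module.End K (T (s a))} {j : ℤ}
    (he : ∀ a, IsCentralIdem (ρ (s a)) (e a))
    (hr : ∃ Δ : Subgroup Γ, Δ.FiniteIndex ∧ ∀ γ ∈ Δ, ∀ l : Additive Kˣ →+ ℚ,
      ∑ a, LinearMap.trace K (T (s a)) ((zel ι q ρ γ (castL K l)).1 (s a) * e a) =
        (j : K) * (zel ι q ρ γ (castL K l)).2) :
    ∃ Δ : Subgroup Γ, Δ.FiniteIndex ∧ ∀ γ ∈ Δ,
      ∏ a, detOn (ρ (s a)) (e a) (ι γ) = ((q (ι γ) ^ j : Kˣ) : K) := by
  obtain ⟨Δ, hΔ, hr⟩ := hr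
  obtain ⟨Δ₂, hΔ₂, hn⟩ := hneat
  obtain ⟨Δ₁, hΔ₁, hc⟩ := exists_comm (s := s) fun a => (he a).2.1
  have i1 := finiteIndex_comap ι Δ₁
  refine ⟨Δ ⊓ Δ₁.comap ι ⊓ Δ₂, inferInstance, fun γ hγ => ?_⟩
  have hγ1 : ι γ ∈ Δ₁ := hγ.1.2
  choose μ hμ1 hμ2 using fun a => det_mem (g := ρ (s a) (ι γ)) (g' := ρ (s a) (ι γ)⁻¹)
    (rho_inv_mul (ρ := ρ) _ _) (he a).1 (hc _ hγ1 a)
    (Subgroup.closure
      ({q (ι γ)} ∪ {α : Kˣ | ∃ i, Module.End.HasEigenvalue (ρ i (ι γ)) (α : K)} : Set Kˣ))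
    (fun α hα => Subgroup.subset_closure (Or.inr ⟨s a, hα⟩))
  obtain ⟨x, hx⟩ : ∃ x : Kˣ, x = (∏ a, μ a) * (q (ι γ) ^ j)⁻¹ := ⟨_, rfl⟩
  have hxm : x ∈ Subgroup.closure
      ({q (ι γ)} ∪ {α : Kˣ | ∃ i, Module.End.HasEigenvalue (ρ i (ι γ)) (α : K)} : Set Kˣ) := by
    rw [hx]
    have hq : q (ι γ) ∈ Subgroup.closure
      ({q (ι γ)} ∪ {α : Kˣ | ∃ i, Module.End.HasEigenvalue (ρ i (ι γ)) (α : K)} : Set Kˣ) :=
      Subgroup.subset_closure (Set.mem_union_left _ rfl)
    exact Subgroup.mul_mem _ (Subgroup.prod_mem _ fun a _ => hμ1 a)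
      (Subgroup.inv_mem _ (Subgroup.zpow_mem _ hq j))
  have hx0 : ∀ l : Additive Kˣ →+ ℚ, l (Additive.ofMul x) = 0 := by
    intro l
    have h1 := hr γ hγ.1.1 l
    have h2 : ∀ a, LinearMap.trace K (T (s a)) ((zel ι q ρ γ (castL K l)).1 (s a) * e a) =
        ((l (Additive.ofMul (μ a)) : ℚ) : K) := by
      intro a
      rw [← castL_apply]
      exact trace_fc (rho_inv_mul (ρ := ρ) _ _) (he a).1 (hc _ hγ1 a) (μ a) (hμ2 a) _
    rw [Finset.sum_congr rfl fun a _ => h2 a] at h1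
    have h3 : (zel ι q ρ γ (castL K l)).2 = ((l (Additive.ofMul (q (ι γ))) : ℚ) : K) :=
      castL_apply l _
    rw [h3] at h1
    have h4 : ((∑ a, l (Additive.ofMul (μ a)) : ℚ) : K) =
        (((j : ℚ) * l (Additive.ofMul (q (ι γ))) : ℚ) : K) := by
      push_cast
      exact h1
    have h5 : ∑ a, l (Additive.ofMul (μ a)) = (j : ℚ) * l (Additive.ofMul (q (ι γ))) :=
      Rat.cast_injective h4
    rw [hx, ofMul_mul, map_add, ofMul_inv, map_neg, ofMul_prod, map_sum, h5, ofMul_zpow, map_zsmul,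
      zsmul_eq_mul, add_neg_cancel]
  have hx1 : x = 1 := by
    by_contra hne
    obtain ⟨l, hl⟩ := exists_addQ x fun m hm h => hne (hn γ hγ.2 x hxm m hm h)
    exact hl (hx0 l)
  rw [hx1] at hx
  have h6 : ∏ a, μ a = q (ι γ) ^ j := by
    rw [eq_mul_inv_iff_mul_eq, one_mul] at hx
    exact hx.symm
  rw [← h6, Units.coe_prod]
  exact Finset.prod_congr rfl fun a _ => hμ2 a

end Pool.Agent.T6.H33.ST
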