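import Mathlib

/-!
# Functional calculus of an endomorphism on its generalised eigenspaces
-/

set_option autoImplicit false

namespace Pool.Agent.T6.H33.ST

open Polynomial Module

/-- a number which is not a root of unity is detected by an additive map on the multiplicative
group -/
theorem exists_add {K : Type} [Field K] [CharZero K] (x : Kˣ) (hx : ∀ m : ℕ, 0 < m → x ^ m ≠ 1) :
    ∃ l : Additive Kˣ →+ K, l (Additive.ofMul x) ≠ 0 := by
  have : DivisibleBy K ℤ :=
    { div := fun a n => a / n
      div_zero := fun a => by simp
      div_cancel := fun {n} a hn => by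
        have : (n : K) ≠ 0 := by exact_mod_cast hn
        rw [zsmul_eq_mul]
        field_simp }
  have hB : Module.Baer ℤ K := Module.Baer.of_divisible K
  let f : ℤ →ₗ[ℤ] Additive Kˣ := LinearMap.toSpanSingleton ℤ _ (Additive.ofMul x)
  have hf : Function.Injective f := by
    rw [← LinearMap.ker_eq_bot, eq_bot_iff]
    intro n hn
    rw [LinearMap.mem_ker, LinearMap.toSpanSingleton_apply] at hn
    by_contra h0
    have h1 : x ^ n = 1 := by
      have : Additive.ofMul (x ^ n) = 0 := by rw [ofMul_zpow]; exact hn
      exact ofMul_eq_zero.1 this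
    have h2 : n ≠ 0 := fun h => h0 (by rw [h]; exact Submodule.zero_mem _)
    rcases lt_or_gt_of_ne h2 with h3 | h3
    · apply hx n.natAbs (Int.natAbs_pos.2 h2)
      have h4 : ((n.natAbs : ℕ) : ℤ) = -n := by omega
      rw [← zpow_natCast, h4, zpow_neg, h1, inv_one]
    · apply hx n.natAbs (Int.natAbs_pos.2 h2)
      have h4 : ((n.natAbs : ℕ) : ℤ) = n := by omega
      rw [← zpow_natCast, h4, h1]
  obtain ⟨h, hh⟩ := hB.extension_property f hf (LinearMap.toSpanSingleton ℤ K 1)
  refine ⟨h.toAddMonoidHom, ?_⟩
  have h1 : h (f 1) = 1 := by
    have := congrArg (fun g => g 1) hh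
    simpa using this
  have h2 : f 1 = Additive.ofMul x := by simp [f]
  rw [h2] at h1
  show h (Additive.ofMul x) ≠ 0
  rw [h1]
  exact one_ne_zero

variable {K : Type} [Field K] [IsAlgClosed K] {V : Type} [AddCommGroup V] [Module K V]
  [FiniteDimensional K V]

/-- functional calculus: for every function `c : K → K` a polynomial in `g` acts on the generalised
eigenspaces through `c` -/
theorem exists_poly (g : Module.End K V) (c : K → K) :
    ∃ p : K[X], ∀ α, ∀ x ∈ g.maxGenEigenspace α, aeval g p x = c α • x := by
  classical
  let n := finrank K V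
  let S : Set K := {μ | g.HasEigenvalue μ}
  let I : S → Ideal K[X] := fun α => Ideal.span {(X - C (α : K)) ^ n}
  have hI : Pairwise (Function.onFun IsCoprime I) := by
    intro α β hαβ
    show IsCoprime (I α) (I β)
    rw [Ideal.isCoprime_span_singleton_iff]
    apply IsCoprime.pow
    exact Polynomial.pairwise_coprime_X_sub_C (fun a b h => Subtype.ext h) hαβ
  have : Finite S := g.finite_hasEigenvalue
  obtain ⟨p, hp⟩ := Ideal.exists_forall_sub_mem_ideal hI (fun α => C (c α))
  refine ⟨p, fun α x hx => ?_⟩
  by_cases hα : g.HasEigenvalue α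
  · obtain ⟨h, hh⟩ := Ideal.mem_span_singleton'.1 (hp ⟨α, hα⟩)
    have h1 : p = h * (X - C α) ^ n + C (c α) := by
      rw [hh]
      ring
    rw [Module.End.maxGenEigenspace_eq_genEigenspace_finrank, Module.End.mem_genEigenspace_nat,
      LinearMap.mem_ker] at hx
    rw [h1]
    simp only [map_add, map_mul, map_pow, map_sub, aeval_X, aeval_C, LinearMap.add_apply,
      Module.End.mul_apply]
    have h2 : (g - (algebraMap K (Module.End K V)) α) = g - α • 1 := by
      rw [Algebra.algebraMap_eq_smul_one]
    rw [h2, hx, map_zero, zero_add, Algebra.algebraMap_eq_smul_one]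
    rfl
  · have h1 : x = 0 := by
      by_contra h0
      apply hα
      have h2 : g.HasUnifEigenvalue α ⊤ := by
        intro h3
        have h4 : x ∈ g.genEigenspace α ⊤ := hx
        rw [h3] at h4
        exact h0 (by simpa using h4)
      exact h2.lt zero_lt_one
    rw [h1, map_zero, smul_zero]

/-- functional calculus -/
noncomputable def fc (g : Module.End K V) (c : K → K) : Module.End K V :=
  aeval g (exists_poly g c).choose

theorem fc_apply (g : Module.End K V) (c : K → K) {α : K} {x : V}
    (hx : x ∈ g.maxGenEigenspace α) : fc g c x = c α • x :=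
  (exists_poly g c).choose_spec α x hx

theorem span_gen (g : Module.End K V) {p : V → Prop} (h0 : p 0) (hadd : ∀ x y, p x → p y → p (x + y))
    (h : ∀ α, ∀ x ∈ g.maxGenEigenspace α, p x) (x : V) : p x := by
  have hx : x ∈ ⨆ α, g.maxGenEigenspace α := by
    rw [Module.End.iSup_maxGenEigenspace_eq_top]
    exact Submodule.mem_top
  exact Submodule.iSup_induction _ (motive := p) hx h h0 hadd

theorem lin_ext {W : Type} [AddCommGroup W] [Module K W] (g : Module.End K V) (a b : V →ₗ[K] W)
    (h : ∀ α, ∀ x ∈ g.maxGenEigenspace α, a x = b x) : a = b :=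
  LinearMap.ext fun x => span_gen g (p := fun x => a x = b x) (by rw [map_zero, map_zero])
    (fun x y hx hy => by rw [map_add, map_add, hx, hy]) h x

theorem fc_commute {g u : Module.End K V} (h : Commute u g) (c : K → K) : Commute u (fc g c) := by
  unfold fc
  exact (Polynomial.aeval_mem_adjoin_singleton (R := K) g (p := (exists_poly g c).choose)) |>
    fun hm => by
      refine Algebra.adjoin_induction (p := fun y _ => Commute u y) ?_ ?_ ?_ ?_ hm
      · intro y hy
        rw [Set.mem_singleton_iff] at hy
        rw [hy]
        exact h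
      · intro r
        exact (Algebra.commutes r u).symm
      · intro x y _ _ hx hy
        exact hx.add_right hy
      · intro x y _ _ hx hy
        exact hx.mul_right hy

theorem fc_self (g : Module.End K V) (c : K → K) : Commute g (fc g c) :=
  fc_commute (Commute.refl g) c

theorem fc_mul (g : Module.End K V) (c d : K → K) : fc g c * fc g d = fc g (fun a => c a * d a) := by
  refine lin_ext g _ _ fun α x hx => ?_
  rw [Module.End.mul_apply, fc_apply g d hx, map_smul, fc_apply g c hx, fc_apply g _ hx, smul_smul,
    mul_comm]

theorem fc_one (g : Module.End K V) : fc g (fun _ => 1) = 1 := by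
  refine lin_ext g _ _ fun α x hx => ?_
  rw [fc_apply g _ hx, one_smul]
  rfl

theorem fc_congr (g : Module.End K V) (c d : K → K) (h : ∀ α, g.HasEigenvalue α → c α = d α) :
    fc g c = fc g d := by
  refine lin_ext g _ _ fun α x hx => ?_
  rw [fc_apply g _ hx, fc_apply g _ hx]
  by_cases hα : g.HasEigenvalue α
  · rw [h α hα]
  · have h1 : x = 0 := by
      by_contra h0
      apply hα
      have h2 : g.HasUnifEigenvalue α ⊤ := by
        intro h3
        have h4 : x ∈ g.genEigenspace α ⊤ := hx
        rw [h3] at h4
        exact h0 (by simpa using h4)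
      exact h2.lt zero_lt_one
    rw [h1, smul_zero, smul_zero]

/-- an endomorphism which commutes with enough functions of `g` commutes with the semisimple part -/
theorem commute_of_sep {g c : Module.End K V} {Λ : Set (K → K)}
    (hΛ : ∀ α β, g.HasEigenvalue α → g.HasEigenvalue β → α ≠ β → ∃ l ∈ Λ, l α ≠ l β)
    (hc : ∀ l ∈ Λ, Commute c (fc g l)) (d : K → K) : Commute c (fc g d) := by
  classical
  -- `c` preserves the generalised eigenspaces
  have key : ∀ α, ∀ x ∈ g.maxGenEigenspace α, fc g d (c x) = d α • c x := by
    intro α x hx
    by_cases hα : g.HasEigenvalue α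
    · -- the value on the other projections vanishes
      have h1 : ∀ β, g.HasEigenvalue β → β ≠ α →
          fc g (fun a => if a = β then 1 else 0) (c x) = 0 := by
        intro β hβ hne
        obtain ⟨l, hl, hlne⟩ := hΛ β α hβ hα hne
        have e1 : fc g l (c x) = l α • c x := by
          have := congrArg (fun u : Module.End K V => u x) (hc l hl).eq
          simp only [Module.End.mul_apply] at this
          rw [← this, fc_apply g l hx, map_smul]
        have e2 : fc g (fun a => if a = β then 1 else 0) (fc g l (c x)) =
            l β • fc g (fun a => if a = β then 1 else 0) (c x) := by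
          rw [← Module.End.mul_apply, fc_mul]
          have e3 : fc g (fun a => (if a = β then 1 else 0) * l a) =
              l β • fc g (fun a => if a = β then 1 else 0) := by
            refine lin_ext g _ _ fun γ y hy => ?_
            rw [fc_apply g _ hy, LinearMap.smul_apply, fc_apply g _ hy, smul_smul]
            by_cases h : γ = β
            · subst h; simp
            · simp [h]
          rw [e3]
          rfl
        rw [e1, map_smul] at e2
        have e4 : (l α - l β) • fc g (fun a => if a = β then 1 else 0) (c x) = 0 := by
          rw [sub_smul, e2, sub_self]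
        rcases smul_eq_zero.1 e4 with h | h
        · exact absurd (sub_eq_zero.1 h).symm hlne
        · exact h
      -- hence `fc g d (c x) = d α • c x`
      have h2 : fc g d (c x) - d α • c x = fc g (fun a => d a - d α) (c x) := by
        have : fc g (fun a => d a - d α) = fc g d - d α • (1 : Module.End K V) := by
          refine lin_ext g _ _ fun γ y hy => ?_
          rw [fc_apply g _ hy, LinearMap.sub_apply, LinearMap.smul_apply, fc_apply g _ hy, sub_smul]
          rfl
        rw [this]
        rfl
      have h3 : fc g (fun a => d a - d α) = ∑ β ∈ (g.finite_hasEigenvalue.toFinset.erase α),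
          (d β - d α) • fc g (fun a => if a = β then 1 else 0) := by
        refine lin_ext g _ _ fun γ y hy => ?_
        rw [fc_apply g _ hy, LinearMap.sum_apply]
        simp only [LinearMap.smul_apply, fc_apply g _ hy]
        by_cases hγ : g.HasEigenvalue γ
        · by_cases h : γ = α
          · subst h
            rw [sub_self, zero_smul, Finset.sum_eq_zero]
            intro β hβ
            rw [if_neg (Finset.ne_of_mem_erase hβ).symm, zero_smul, smul_zero]
          · rw [Finset.sum_eq_single γ]
            · simp
            · intro β _ hβ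
              rw [if_neg hβ.symm, zero_smul, smul_zero]
            · intro h'
              exfalso
              apply h'
              rw [Finset.mem_erase]
              exact ⟨h, g.finite_hasEigenvalue.mem_toFinset.2 hγ⟩
        · have hy0 : y = 0 := by
            by_contra h0
            apply hγ
            have h2 : g.HasUnifEigenvalue γ ⊤ := by
              intro h3
              have h4 : y ∈ g.genEigenspace γ ⊤ := hy
              rw [h3] at h4
              exact h0 (by simpa using h4)
            exact h2.lt zero_lt_one
          simp [hy0]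
      rw [← sub_eq_zero, h2, h3, LinearMap.sum_apply, Finset.sum_eq_zero]
      intro β hβ
      rw [LinearMap.smul_apply, h1 β ?_ (Finset.ne_of_mem_erase hβ), smul_zero]
      exact g.finite_hasEigenvalue.mem_toFinset.1 (Finset.mem_of_mem_erase hβ)
    · have hy0 : x = 0 := by
        by_contra h0
        apply hα
        have h2 : g.HasUnifEigenvalue α ⊤ := by
          intro h3
          have h4 : x ∈ g.genEigenspace α ⊤ := hx
          rw [h3] at h4
          exact h0 (by simpa using h4)
        exact h2.lt zero_lt_one
      simp [hy0]
  show c * fc g d = fc g d * c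
  refine lin_ext g _ _ fun α x hx => ?_
  rw [Module.End.mul_apply, Module.End.mul_apply, fc_apply g d hx, map_smul, key α x hx]


/-- conjugation by an invertible element -/
noncomputable def conjEnd (g g' : Module.End K V) : Module.End K (Module.End K V) :=
  (LinearMap.mulLeft K g) * (LinearMap.mulRight K g')

theorem conjEnd_apply (g g' c : Module.End K V) : conjEnd g g' c = g * (c * g') := rfl

theorem isNilpotent_sub_fc (g : Module.End K V) : IsNilpotent (g - fc g id) := by
  refine ⟨finrank K V, ?_⟩
  refine lin_ext g _ _ fun α x hx => ?_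
  have hs : ∀ y ∈ g.maxGenEigenspace α, (g - fc g id) y = (g - α • (1 : Module.End K V)) y := by
    intro y hy
    rw [LinearMap.sub_apply, LinearMap.sub_apply, fc_apply g id hy]
    rfl
  have hst : ∀ y ∈ g.maxGenEigenspace α, (g - α • (1 : Module.End K V)) y ∈ g.maxGenEigenspace α := by
    intro y hy
    have hc : Commute g (g - α • (1 : Module.End K V)) :=
      (Commute.refl g).sub_right ((Commute.one_right g).smul_right α)
    exact Module.End.mapsTo_maxGenEigenspace_of_comm hc α hy
  have hk : ∀ k : ℕ, ∀ y ∈ g.maxGenEigenspace α,
      ((g - fc g id) ^ k) y = ((g - α • (1 : Module.End K V)) ^ k) y := by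
    intro k
    induction k with
    | zero => intro y _; rfl
    | succ k ih =>
      intro y hy
      rw [pow_succ, pow_succ, Module.End.mul_apply, Module.End.mul_apply, hs y hy, ih _ (hst y hy)]
  rw [hk _ x hx]
  rw [Module.End.maxGenEigenspace_eq_genEigenspace_finrank, Module.End.mem_genEigenspace_nat,
    LinearMap.mem_ker] at hx
  rw [hx]
  rfl

theorem exists_pow_conj (g g' : Module.End K V) (h1 : g * g' = 1) (h2 : g' * g = 1) :
    ∃ r : ℕ, ∀ c : Module.End K V, (∀ d, Commute c (fc g d)) → ((conjEnd g g' - 1) ^ r) c = 0 := by
  have hne : ∀ α, g.HasEigenvalue α → α ≠ 0 := by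
    rintro α hα rfl
    obtain ⟨x, hx, hx0⟩ := hα.exists_hasEigenvector
    apply hx0
    rw [Module.End.mem_eigenspace_iff, zero_smul] at hx
    have : (g' * g) x = 0 := by rw [Module.End.mul_apply, hx, map_zero]
    rw [h2] at this
    exact this
  obtain ⟨s, hs⟩ : ∃ s, s = fc g id := ⟨_, rfl⟩
  obtain ⟨s', hs'⟩ : ∃ s', s' = fc g (fun a => a⁻¹) := ⟨_, rfl⟩
  have e1 : s * s' = 1 := by
    rw [hs, hs', fc_mul, fc_congr g _ (fun _ => 1), fc_one]
    intro α hα
    exact mul_inv_cancel₀ (hne α hα)
  have e2 : s' * s = 1 := by
    rw [hs, hs', fc_mul, fc_congr g _ (fun _ => 1), fc_one]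
    intro α hα
    exact inv_mul_cancel₀ (hne α hα)
  have cgs : Commute g s := by rw [hs]; exact fc_self g id
  have cgs' : Commute g s' := by rw [hs']; exact fc_self g _
  have cg's : Commute g' s := by
    show g' * s = s * g'
    calc g' * s = g' * s * (g * g') := by rw [h1, mul_one]
      _ = g' * (s * g) * g' := by noncomm_ring
      _ = g' * (g * s) * g' := by rw [cgs.eq]
      _ = (g' * g) * s * g' := by noncomm_ring
      _ = s * g' := by rw [h2, one_mul]
  have cg's' : Commute g' s' := by
    show g' * s' = s' * g'
    calc g' * s' = g' * s' * (g * g') := by rw [h1, mul_one]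
      _ = g' * (s' * g) * g' := by noncomm_ring
      _ = g' * (g * s') * g' := by rw [cgs'.eq]
      _ = (g' * g) * s' * g' := by noncomm_ring
      _ = s' * g' := by rw [h2, one_mul]
  -- the unipotent part
  obtain ⟨u, hu⟩ : ∃ u, u = g * s' := ⟨_, rfl⟩
  obtain ⟨u', hu'⟩ : ∃ u', u' = g' * s := ⟨_, rfl⟩
  have nu : IsNilpotent (u - 1) := by
    have : u - 1 = (g - s) * s' := by rw [hu, sub_mul, e1]
    rw [this]
    have h3 : IsNilpotent (g - s) := by rw [hs]; exact isNilpotent_sub_fc g
    exact (cgs'.sub_left (show s * s' = s' * s by rw [e1, e2])).isNilpotent_mul_right h3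
  have hgg : g * g' = g' * g := h1.trans h2.symm
  have huu : u * u' = 1 := by
    rw [hu, hu']
    calc g * s' * (g' * s) = g * (s' * g') * s := by noncomm_ring
      _ = g * (g' * s') * s := by rw [cg's'.eq]
      _ = (g * g') * (s' * s) := by noncomm_ring
      _ = 1 := by rw [h1, e2, one_mul]
  have nu' : IsNilpotent (u' - 1) := by
    have : u' - 1 = (u - 1) * (-u') := by
      rw [sub_mul, mul_neg, huu]
      noncomm_ring
    rw [this]
    have hc : u * u' = u' * u := by
      have : u' * u = 1 := by
        rw [hu, hu']
        calc g' * s * (g * s') = g' * (s * g) * s' := by noncomm_ring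
          _ = g' * (g * s) * s' := by rw [cgs.eq]
          _ = (g' * g) * (s * s') := by noncomm_ring
          _ = 1 := by rw [h2, e1, one_mul]
      rw [huu, this]
    have hc' : Commute (u - 1) (-u') := by
      show (u - 1) * (-u') = (-u') * (u - 1)
      rw [mul_neg, neg_mul, sub_mul, mul_sub, hc]
      noncomm_ring
    exact hc'.isNilpotent_mul_right nu
  -- `Ad u` is unipotent
  have nAd : IsNilpotent (conjEnd u u' - 1) := by
    have hL : ∀ a b : Module.End K V, (LinearMap.mulLeft K a) * (LinearMap.mulRight K b) =
        (LinearMap.mulRight K b) * (LinearMap.mulLeft K a) := by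
      intro a b
      ext c
      simp [mul_assoc]
    have h3 : conjEnd u u' - 1 = (LinearMap.mulLeft K (u - 1)) * (LinearMap.mulRight K u') +
        LinearMap.mulRight K (u' - 1) := by
      refine LinearMap.ext fun c => ?_
      simp only [conjEnd, LinearMap.sub_apply, Module.End.mul_apply, LinearMap.mulLeft_apply,
        LinearMap.mulRight_apply, LinearMap.add_apply, Module.End.one_apply]
      noncomm_ring
    rw [h3]
    have hc1 : Commute (LinearMap.mulLeft K (u - 1)) (LinearMap.mulRight K u') := hL _ _
    have n1 : IsNilpotent (LinearMap.mulLeft K (u - 1)) :=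
      (LinearMap.isNilpotent_mulLeft_iff K (u - 1)).2 nu
    have n2 : IsNilpotent (LinearMap.mulRight K (u' - 1)) :=
      (LinearMap.isNilpotent_mulRight_iff K (u' - 1)).2 nu'
    refine Commute.isNilpotent_add ?_ (hc1.isNilpotent_mul_right n1) n2
    apply Commute.mul_left
    · exact hL _ _
    · show LinearMap.mulRight K u' * LinearMap.mulRight K (u' - 1) =
        LinearMap.mulRight K (u' - 1) * LinearMap.mulRight K u'
      refine LinearMap.ext fun c => ?_
      simp only [Module.End.mul_apply, LinearMap.mulRight_apply]
      noncomm_ring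
  obtain ⟨r, hr⟩ := nAd
  refine ⟨r, fun c hc => ?_⟩
  have key : ∀ k : ℕ, ∀ c : Module.End K V, Commute c s → Commute c s' →
      ((conjEnd g g' - 1) ^ k) c = ((conjEnd u u' - 1) ^ k) c := by
    intro k
    induction k with
    | zero => intro c _ _; rfl
    | succ k ih =>
      intro c hc1 hc2
      have h3 : (conjEnd g g' - 1) c = (conjEnd u u' - 1) c := by
        rw [LinearMap.sub_apply, LinearMap.sub_apply, conjEnd_apply, conjEnd_apply, hu, hu']
        congr 1
        calc g * (c * g') = g * ((s' * s) * c * g') := by rw [e2, one_mul]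
          _ = g * s' * ((s * c) * g') := by noncomm_ring
          _ = g * s' * ((c * s) * g') := by rw [hc1.eq]
          _ = g * s' * (c * (s * g')) := by noncomm_ring
          _ = g * s' * (c * (g' * s)) := by rw [cg's.eq]
      have h4 : Commute ((conjEnd g g' - 1) c) s := by
        rw [LinearMap.sub_apply, conjEnd_apply]
        exact (cgs.mul_left (hc1.mul_left cg's)).sub_left hc1
      have h5 : Commute ((conjEnd g g' - 1) c) s' := by
        rw [LinearMap.sub_apply, conjEnd_apply]
        exact (cgs'.mul_left (hc2.mul_left cg's')).sub_left hc2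
      rw [pow_succ, pow_succ, Module.End.mul_apply, Module.End.mul_apply, ih _ h4 h5, h3]
  rw [key r c (by rw [hs]; exact hc _) (by rw [hs']; exact hc _), hr]
  rfl

end Pool.Agent.T6.H33.ST
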