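import Pool.Agent.T6.H33.ST.Defs

/-!
# The forms attached to endomorphisms and to linear maps between spaces of endomorphisms
-/

set_option autoImplicit false

namespace Pool.Agent.T6.H33.ST

open Module

variable {K Γ G I : Type} [Field K] [Group Γ] [Group G] {T : I → Type}
  [∀ i, AddCommGroup (T i)] [∀ i, Module K (T i)]

/-- a bilinear form as a multilinear map -/
def two (i : I) (b : T i →ₗ[K] T i →ₗ[K] K) :
    MultilinearMap K (fun a : Bool => T ((fun _ : Bool => i) a)) K where
  toFun t := b (t true) (t false)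
  map_update_add' := by
    intro _ t a x y
    rcases a with _ | _ <;> simp
  map_update_smul' := by
    intro _ t a c x
    rcases a with _ | _ <;> simp

theorem two_apply (i : I) (b : T i →ₗ[K] T i →ₗ[K] K) (t : ∀ _ : Bool, T i) :
    two i b t = b (t true) (t false) := rfl

/-- the rank one endomorphism `v ↦ B t₁ v • t₀` -/
noncomputable def rk (B : ∀ i, T i →ₗ[K] T i →ₗ[K] K) (i : I) :
    T i →ₗ[K] T i →ₗ[K] Module.End K (T i) :=
  LinearMap.smulRightₗ ∘ₗ (B i)

theorem rk_apply (B : ∀ i, T i →ₗ[K] T i →ₗ[K] K) (i : I) (t₁ t₀ v : T i) :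
    rk B i t₁ t₀ v = B i t₁ v • t₀ := by
  simp [rk]

/-- the function of four vectors attached to a linear map `φ` -/
noncomputable def ff (B : ∀ i, T i →ₗ[K] T i →ₗ[K] K) (x y : I)
    (φ : Module.End K (T x) →ₗ[K] Module.End K (T y)) (t₀ t₁ : T x) (u₀ u₁ : T y) : K :=
  B y (φ (rk B x t₁ t₀) u₀) u₁

section
variable (B : ∀ i, T i →ₗ[K] T i →ₗ[K] K) (x y : I)
    (φ : Module.End K (T x) →ₗ[K] Module.End K (T y))
theorem ff_add0 (a a' b : T x) (c d : T y) :
    ff B x y φ (a + a') b c d = ff B x y φ a b c d + ff B x y φ a' b c d := by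
  simp [ff]
theorem ff_add1 (a b b' : T x) (c d : T y) :
    ff B x y φ a (b + b') c d = ff B x y φ a b c d + ff B x y φ a b' c d := by
  simp [ff]
theorem ff_add2 (a b : T x) (c c' d : T y) :
    ff B x y φ a b (c + c') d = ff B x y φ a b c d + ff B x y φ a b c' d := by
  simp [ff]
theorem ff_add3 (a b : T x) (c d d' : T y) :
    ff B x y φ a b c (d + d') = ff B x y φ a b c d + ff B x y φ a b c d' := by
  simp [ff]
theorem ff_smul0 (r : K) (a b : T x) (c d : T y) :
    ff B x y φ (r • a) b c d = r • ff B x y φ a b c d := by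
  simp [ff]
theorem ff_smul1 (r : K) (a b : T x) (c d : T y) :
    ff B x y φ a (r • b) c d = r • ff B x y φ a b c d := by
  simp [ff]
theorem ff_smul2 (r : K) (a b : T x) (c d : T y) :
    ff B x y φ a b (r • c) d = r • ff B x y φ a b c d := by
  simp [ff]
theorem ff_smul3 (r : K) (a b : T x) (c d : T y) :
    ff B x y φ a b c (r • d) = r • ff B x y φ a b c d := by
  simp [ff]
end

/-- the form on `T x × T x × T y × T y` attached to a linear map from `End (T x)` to `End (T y)` -/
noncomputable def four (B : ∀ i, T i →ₗ[K] T i →ₗ[K] K) (x y : I)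
    (φ : Module.End K (T x) →ₗ[K] Module.End K (T y)) :
    MultilinearMap K (fun a : Bool ⊕ Bool => T (Sum.elim (fun _ => x) (fun _ => y) a)) K where
  toFun t := ff B x y φ (t (Sum.inl false)) (t (Sum.inl true)) (t (Sum.inr false)) (t (Sum.inr true))
  map_update_add' := by
    intro _ t a u v
    rcases a with (_ | _) | (_ | _)
    · simp only [Function.update_self, ne_eq, Sum.inl.injEq, Bool.true_eq_false,
        not_false_eq_true, Function.update_of_ne, reduceCtorEq]
      exact ff_add0 B x y φ u v _ _ _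
    · simp only [Function.update_self, ne_eq, Sum.inl.injEq, Bool.false_eq_true,
        not_false_eq_true, Function.update_of_ne, reduceCtorEq]
      exact ff_add1 B x y φ _ u v _ _
    · simp only [Function.update_self, ne_eq, Sum.inr.injEq, Bool.true_eq_false,
        not_false_eq_true, Function.update_of_ne, reduceCtorEq]
      exact ff_add2 B x y φ _ _ u v _
    · simp only [Function.update_self, ne_eq, Sum.inr.injEq, Bool.false_eq_true,
        not_false_eq_true, Function.update_of_ne, reduceCtorEq]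
      exact ff_add3 B x y φ _ _ _ u v
  map_update_smul' := by
    intro _ t a c u
    rcases a with (_ | _) | (_ | _)
    · simp only [Function.update_self, ne_eq, Sum.inl.injEq, Bool.true_eq_false,
        not_false_eq_true, Function.update_of_ne, reduceCtorEq]
      exact ff_smul0 B x y φ c u _ _ _
    · simp only [Function.update_self, ne_eq, Sum.inl.injEq, Bool.false_eq_true,
        not_false_eq_true, Function.update_of_ne, reduceCtorEq]
      exact ff_smul1 B x y φ c _ u _ _
    · simp only [Function.update_self, ne_eq, Sum.inr.injEq, Bool.true_eq_false,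
        not_false_eq_true, Function.update_of_ne, reduceCtorEq]
      exact ff_smul2 B x y φ c _ _ u _
    · simp only [Function.update_self, ne_eq, Sum.inr.injEq, Bool.false_eq_true,
        not_false_eq_true, Function.update_of_ne, reduceCtorEq]
      exact ff_smul3 B x y φ c _ _ _ u

/-- four vectors as a family -/
def fam {x y : I} (t₀ t₁ : T x) (u₀ u₁ : T y) :
    ∀ a : Bool ⊕ Bool, T (Sum.elim (fun _ => x) (fun _ => y) a)
  | Sum.inl false => t₀
  | Sum.inl true => t₁
  | Sum.inr false => u₀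
  | Sum.inr true => u₁

theorem four_fam (B : ∀ i, T i →ₗ[K] T i →ₗ[K] K) (x y : I)
    (φ : Module.End K (T x) →ₗ[K] Module.End K (T y)) (t₀ t₁ : T x) (u₀ u₁ : T y) :
    four B x y φ (fam t₀ t₁ u₀ u₁) = ff B x y φ t₀ t₁ u₀ u₁ := rfl

/-- two vectors as a family -/
def fam2 {x : I} (t₀ t₁ : T x) : ∀ _ : Bool, T x
  | false => t₀
  | true => t₁

theorem two_fam (i : I) (b : T i →ₗ[K] T i →ₗ[K] K) (t₀ t₁ : T i) :
    two i b (fam2 t₀ t₁) = b t₁ t₀ := rfl

section group
variable {q : G →* Kˣ} {ρ : ∀ i, Representation K G (T i)} {w : I → ℤ}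
    {B : ∀ i, T i →ₗ[K] T i →ₗ[K] K}

theorem rho_inv (i : I) (g : G) (v : T i) : ρ i g (ρ i g⁻¹ v) = v := by
  rw [← Module.End.mul_apply, ← map_mul, mul_inv_cancel, map_one]
  rfl

theorem inv_rho (i : I) (g : G) (v : T i) : ρ i g⁻¹ (ρ i g v) = v := by
  rw [← Module.End.mul_apply, ← map_mul, inv_mul_cancel, map_one]
  rfl

theorem rk_equiv (hB : IsPolarized q ρ w B) (i : I) (g : G) (t₁ t₀ : T i) :
    rk B i (ρ i g t₁) (ρ i g t₀) = ((q g ^ w i : Kˣ) : K) • (ρ i g * rk B i t₁ t₀ * ρ i g⁻¹) := by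
  refine LinearMap.ext fun v => ?_
  rw [rk_apply, LinearMap.smul_apply, Module.End.mul_apply, Module.End.mul_apply, rk_apply,
    map_smul, smul_smul, ← hB.equiv, rho_inv]

/-- the twist of the form of a linear map -/
theorem four_rho (hB : IsPolarized q ρ w B) (x y : I)
    (φ : Module.End K (T x) →ₗ[K] Module.End K (T y)) (g : G) (t₀ t₁ : T x) (u₀ u₁ : T y) :
    ff B x y φ (ρ x g t₀) (ρ x g t₁) (ρ y g u₀) (ρ y g u₁) = ((q g ^ (w x + w y) : Kˣ) : K) *
      B y (ρ y g⁻¹ (φ (ρ x g * rk B x t₁ t₀ * ρ x g⁻¹) (ρ y g u₀))) u₁ := by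
  unfold ff
  rw [rk_equiv hB, map_smul, LinearMap.smul_apply, map_smul, LinearMap.smul_apply, smul_eq_mul]
  conv_lhs => rw [← rho_inv (ρ := ρ) y g (φ (ρ x g * rk B x t₁ t₀ * ρ x g⁻¹) (ρ y g u₀))]
  rw [hB.equiv, zpow_add, Units.val_mul]
  ring

theorem actsBy_four_of (hB : IsPolarized q ρ w B) {x y : I}
    {φ : Module.End K (T x) →ₗ[K] Module.End K (T y)} {g : G} (h : EndEquivariant ρ x y φ g) :
    ActsBy q ρ (Sum.elim (fun _ => x) (fun _ => y)) (w x + w y) (four B x y φ) g := by
  intro t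
  show ff B x y φ (ρ x g (t (Sum.inl false))) (ρ x g (t (Sum.inl true))) (ρ y g (t (Sum.inr false)))
    (ρ y g (t (Sum.inr true))) = _ * ff B x y φ _ _ _ _
  rw [four_rho hB, h]
  unfold ff
  rw [Module.End.mul_apply, Module.End.mul_apply, inv_rho, inv_rho]

/-- the rank one maps span the endomorphisms -/
theorem rk_ext [∀ i, FiniteDimensional K (T i)] (hB : IsPolarized q ρ w B) (i : I) {W : Type}
    [AddCommGroup W] [Module K W] {f g : Module.End K (T i) →ₗ[K] W}
    (h : ∀ t₁ t₀, f (rk B i t₁ t₀) = g (rk B i t₁ t₀)) : f = g := by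
  have hinj : Function.Injective (B i) := by
    rw [← LinearMap.ker_eq_bot, eq_bot_iff]
    intro x hx
    rw [LinearMap.mem_ker] at hx
    exact hB.nondeg i x fun y => by rw [hx]; rfl
  have hsurj : Function.Surjective (B i) :=
    (LinearMap.injective_iff_surjective_of_finrank_eq_finrank
      (Subspace.dual_finrank_eq (K := K) (V := T i)).symm).1 hinj
  refine LinearMap.ext fun a => ?_
  let b := Module.finBasis K (T i)
  choose t ht using fun k => hsurj (b.coord k)
  have ha : a = ∑ k, rk B i (t k) (a (b k)) := by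
    refine b.ext fun l => ?_
    rw [LinearMap.sum_apply]
    simp only [rk_apply, ht, Basis.coord_apply, Basis.repr_self]
    rw [Finset.sum_eq_single l]
    · simp
    · intro k _ hk
      rw [Finsupp.single_eq_of_ne hk, zero_smul]
    · intro hl
      exact absurd (Finset.mem_univ _) hl
  rw [ha, map_sum, map_sum]
  exact Finset.sum_congr rfl fun k _ => h _ _

theorem endEquivariant_of (hB : IsPolarized q ρ w B) [∀ i, FiniteDimensional K (T i)] {x y : I}
    {φ : Module.End K (T x) →ₗ[K] Module.End K (T y)} {g : G}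
    (h : ActsBy q ρ (Sum.elim (fun _ => x) (fun _ => y)) (w x + w y) (four B x y φ) g) :
    EndEquivariant ρ x y φ g := by
  have key : φ ∘ₗ (LinearMap.mulLeft K (ρ x g) * LinearMap.mulRight K (ρ x g⁻¹)) =
      (LinearMap.mulLeft K (ρ y g) * LinearMap.mulRight K (ρ y g⁻¹)) ∘ₗ φ := by
    refine rk_ext hB x fun t₁ t₀ => ?_
    refine LinearMap.ext fun v => ?_
    obtain ⟨u₀, rfl⟩ : ∃ u₀, v = ρ y g u₀ := ⟨ρ y g⁻¹ v, (rho_inv _ _ _).symm⟩
    simp only [LinearMap.comp_apply, Module.End.mul_apply, LinearMap.mulRight_apply,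
      LinearMap.mulLeft_apply]
    rw [inv_rho, ← rho_inv (ρ := ρ) y g (φ (ρ x g * (rk B x t₁ t₀ * ρ x g⁻¹)) (ρ y g u₀))]
    congr 1
    rw [← sub_eq_zero]
    refine hB.nondeg y _ fun u₁ => ?_
    rw [map_sub, LinearMap.sub_apply, sub_eq_zero]
    have h1 := h (fam t₀ t₁ u₀ u₁)
    rw [four_fam] at h1
    have h2 : ff B x y φ (ρ x g t₀) (ρ x g t₁) (ρ y g u₀) (ρ y g u₁) =
        ((q g ^ (w x + w y) : Kˣ) : K) * ff B x y φ t₀ t₁ u₀ u₁ := h1
    rw [four_rho hB] at h2
    have h3 := mul_left_cancel₀ (Units.ne_zero _) h2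
    rw [mul_assoc] at h3
    exact h3
  intro a
  have := congrArg (fun f => f a) key
  simpa [mul_assoc] using this

end group

end Pool.Agent.T6.H33.ST
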