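import Pool.Agent.T6.H33.ST.Forms

/-!
# The Lie algebra of the endomorphisms which kill the Tate classes
-/

set_option autoImplicit false

namespace Pool.Agent.T6.H33.ST

open Module

variable {K Γ G I : Type} [Field K] [Group Γ] [Group G] {T : I → Type}
  [∀ i, AddCommGroup (T i)] [∀ i, Module K (T i)]

theorem kills_zero {A : Type} [Fintype A] [DecidableEq A] (s : A → I) (j : ℤ)
    (f : MultilinearMap K (fun a => T (s a)) K) : Kills s j f 0 := by
  intro t
  simp

theorem kills_add {A : Type} [Fintype A] [DecidableEq A] {s : A → I} {j : ℤ}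
    {f : MultilinearMap K (fun a => T (s a)) K} {z z' : (∀ i, Module.End K (T i)) × K}
    (h : Kills s j f z) (h' : Kills s j f z') : Kills s j f (z + z') := by
  intro t
  simp only [Prod.fst_add, Pi.add_apply, LinearMap.add_apply, MultilinearMap.map_update_add,
    Prod.snd_add]
  rw [Finset.sum_add_distrib, h t, h' t]
  ring

theorem kills_smul {A : Type} [Fintype A] [DecidableEq A] {s : A → I} {j : ℤ}
    {f : MultilinearMap K (fun a => T (s a)) K} {z : (∀ i, Module.End K (T i)) × K} (c : K)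
    (h : Kills s j f z) : Kills s j f (c • z) := by
  intro t
  simp only [Prod.smul_fst, Pi.smul_apply, LinearMap.smul_apply, MultilinearMap.map_update_smul,
    Prod.smul_snd, smul_eq_mul]
  rw [← Finset.mul_sum, h t]
  ring

/-- the Lie algebra of the Tate classes -/
def lieT (ι : Γ →* G) (q : G →* Kˣ) (ρ : ∀ i, Representation K G (T i)) :
    Submodule K ((∀ i, Module.End K (T i)) × K) where
  carrier := {z | ∀ (A : Type) [Fintype A] [DecidableEq A] (s : A → I) (j : ℤ)
    (f : MultilinearMap K (fun a => T (s a)) K), IsTate ι q ρ s j f → Kills s j f z}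
  zero_mem' := fun _ _ _ s j f _ => kills_zero s j f
  add_mem' := fun ha hb A _ _ s j f hf => kills_add (ha A s j f hf) (hb A s j f hf)
  smul_mem' := fun c _ ha A _ _ s j f hf => kills_smul c (ha A s j f hf)

theorem mem_lieT_id {q : G →* Kˣ} {ρ : ∀ i, Representation K G (T i)}
    {z : (∀ i, Module.End K (T i)) × K} : z ∈ lieT (MonoidHom.id G) q ρ ↔ InLie q ρ z := Iff.rfl

theorem finiteIndex_comap (ι : Γ →* G) (Δ : Subgroup G) [Δ.FiniteIndex] :
    (Δ.comap ι).FiniteIndex := by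
  constructor
  rw [Subgroup.index_comap]
  exact (inferInstance : (Δ.subgroupOf ι.range).FiniteIndex).index_ne_zero

theorem isTate_of_isMot (ι : Γ →* G) {q : G →* Kˣ} {ρ : ∀ i, Representation K G (T i)} {A : Type}
    {s : A → I} {j : ℤ} {f : MultilinearMap K (fun a => T (s a)) K} (h : IsMot q ρ s j f) :
    IsTate ι q ρ s j f := by
  obtain ⟨Δ, hΔ, h⟩ := h
  exact ⟨Δ.comap ι, finiteIndex_comap ι Δ, fun γ hγ => h _ hγ⟩

theorem lieT_le (ι : Γ →* G) (q : G →* Kˣ) (ρ : ∀ i, Representation K G (T i)) :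
    lieT ι q ρ ≤ lieT (MonoidHom.id G) q ρ :=
  fun _ hz A _ _ s j f hf => hz A s j f (isTate_of_isMot ι hf)

/-- the adjoint action -/
def adL (ρ : ∀ i, Representation K G (T i)) (g : G) :
    ((∀ i, Module.End K (T i)) × K) →ₗ[K] ((∀ i, Module.End K (T i)) × K) where
  toFun z := (fun i => ρ i g * z.1 i * ρ i g⁻¹, z.2)
  map_add' z z' := by
    ext i x
    · simp
    · simp
  map_smul' c z := by
    ext i x
    · simp
    · simp

theorem adL_mem {ι : Γ →* G} {q : G →* Kˣ} {ρ : ∀ i, Representation K G (T i)} (γ : Γ)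
    {z : (∀ i, Module.End K (T i)) × K} (hz : z ∈ lieT ι q ρ) : adL ρ (ι γ) z ∈ lieT ι q ρ := by
  intro A _ _ s j f hf
  obtain ⟨Δ, hΔ, h⟩ := hf
  have h1 : IsTate ι q ρ s j (f.compLinearMap (fun a => ρ (s a) (ι γ))) := by
    refine ⟨Δ.normalCore, inferInstance, fun δ hδ t => ?_⟩
    have h2 : γ * δ * γ⁻¹ ∈ Δ := Δ.normalCore_le ((Subgroup.normalCore_normal Δ).conj_mem δ hδ γ)
    have h3 := h _ h2 (fun a => ρ (s a) (ι γ) (t a))
    have hq : q (ι (γ * δ * γ⁻¹)) = q (ι δ) := by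
      rw [map_mul, map_mul, map_mul, map_mul, map_inv, map_inv, mul_inv_cancel_comm]
    rw [hq] at h3
    rw [MultilinearMap.compLinearMap_apply, MultilinearMap.compLinearMap_apply, ← h3]
    congr 1
    funext a
    rw [map_mul, map_mul, map_mul, map_mul, Module.End.mul_apply, Module.End.mul_apply,
      map_inv, inv_rho]
  have h2 := hz A s j _ h1
  intro t
  have h3 := h2 (fun a => ρ (s a) (ι γ)⁻¹ (t a))
  rw [MultilinearMap.compLinearMap_apply] at h3
  simp only [rho_inv] at h3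
  show _ = (j : K) * z.2 * f t
  rw [← h3]
  refine Finset.sum_congr rfl fun a _ => ?_
  rw [MultilinearMap.compLinearMap_apply]
  congr 1
  funext b
  by_cases hb : b = a
  · subst hb
    simp [adL]
  · simp [hb]

section der
variable {q : G →* Kˣ} {ρ : ∀ i, Representation K G (T i)} {w : I → ℤ}
    {B : ∀ i, T i →ₗ[K] T i →ₗ[K] K}

/-- an invariant bilinear form is killed -/
theorem der_two {ι : Γ →* G} {i : I} {b : T i →ₗ[K] T i →ₗ[K] K} {j : ℤ}
    (hb : ∃ Δ : Subgroup Γ, Δ.FiniteIndex ∧ ∀ γ ∈ Δ, ∀ x y,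
      b (ρ i (ι γ) x) (ρ i (ι γ) y) = ((q (ι γ) ^ j : Kˣ) : K) * b x y)
    {z : (∀ i, Module.End K (T i)) × K} (hz : z ∈ lieT ι q ρ) (x y : T i) :
    b (z.1 i x) y + b x (z.1 i y) = (j : K) * z.2 * b x y := by
  obtain ⟨Δ, hΔ, h⟩ := hb
  have h1 : IsTate ι q ρ (fun _ : Bool => i) j (two i b) :=
    ⟨Δ, hΔ, fun γ hγ t => h γ hγ (t true) (t false)⟩
  have h2 := hz Bool _ j _ h1 (fam2 y x)
  rw [two_fam, Fintype.sum_bool] at h2
  rw [← h2]
  congr 1

/-- endomorphisms of the motive commute with the Lie algebra -/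
theorem comm_of_endo (hB : IsPolarized q ρ w B) {i : I} {e : Module.End K (T i)}
    (he : IsEndo (ρ i) e) {z : (∀ i, Module.End K (T i)) × K}
    (hz : z ∈ lieT (MonoidHom.id G) q ρ) : Commute (z.1 i) e := by
  obtain ⟨Δ, hΔ, h⟩ := he
  have h1 := der_two (ι := MonoidHom.id G) (b := B i) (j := w i)
    ⟨⊤, inferInstance, fun g _ x y => hB.equiv i g x y⟩ hz
  have h2 := der_two (ι := MonoidHom.id G) (b := B i ∘ₗ e) (j := w i)
    ⟨Δ, hΔ, fun g hg x y => by
      have h3 : e (ρ i g x) = ρ i g (e x) := by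
        rw [← Module.End.mul_apply, (h g hg).eq]
        rfl
      show B i (e (ρ i g x)) (ρ i g y) = _ * B i (e x) y
      rw [h3, hB.equiv]
      rfl⟩ hz
  refine LinearMap.ext fun x => ?_
  rw [← sub_eq_zero]
  refine hB.nondeg i _ fun y => ?_
  have h3 := h1 (e x) y
  have h4 := h2 x y
  simp only [LinearMap.comp_apply] at h4
  rw [map_sub, LinearMap.sub_apply, Module.End.mul_apply, Module.End.mul_apply]
  linear_combination h3 - h4

/-- linear maps between the spaces of endomorphisms which commute with the group commute with the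
Lie algebra -/
theorem comm_of_equiv (hB : IsPolarized q ρ w B) [∀ i, FiniteDimensional K (T i)] {x y : I}
    {φ : Module.End K (T x) →ₗ[K] Module.End K (T y)}
    (hφ : ∃ Δ : Subgroup G, Δ.FiniteIndex ∧ ∀ g ∈ Δ, EndEquivariant ρ x y φ g)
    {z : (∀ i, Module.End K (T i)) × K} (hz : z ∈ lieT (MonoidHom.id G) q ρ)
    (a : Module.End K (T x)) : φ (z.1 x * a - a * z.1 x) = z.1 y * φ a - φ a * z.1 y := by
  obtain ⟨Δ, hΔ, h⟩ := hφ
  have h1 : ∀ i, ∀ x y, B i (z.1 i x) y + B i x (z.1 i y) = (w i : K) * z.2 * B i x y := fun i =>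
    der_two (ι := MonoidHom.id G) (b := B i) (j := w i)
      ⟨⊤, inferInstance, fun g _ x y => hB.equiv i g x y⟩ hz
  have h2 : Kills _ _ (four B x y φ) z :=
    hz _ _ _ _ ⟨Δ, hΔ, fun g hg => actsBy_four_of hB (h g hg)⟩
  have key : φ ∘ₗ (LinearMap.mulLeft K (z.1 x) - LinearMap.mulRight K (z.1 x)) =
      (LinearMap.mulLeft K (z.1 y) - LinearMap.mulRight K (z.1 y)) ∘ₗ φ := by
    refine rk_ext hB x fun t₁ t₀ => ?_
    refine LinearMap.ext fun u₀ => ?_
    rw [← sub_eq_zero]
    refine hB.nondeg y _ fun u₁ => ?_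
    have h3 := h2 (fam t₀ t₁ u₀ u₁)
    rw [Fintype.sum_sum_type, Fintype.sum_bool, Fintype.sum_bool, four_fam] at h3
    have e1 : four B x y φ (Function.update (fam t₀ t₁ u₀ u₁) (Sum.inl true)
        (z.1 x t₁)) = ff B x y φ t₀ (z.1 x t₁) u₀ u₁ := rfl
    have e2 : four B x y φ (Function.update (fam t₀ t₁ u₀ u₁) (Sum.inl false)
        (z.1 x t₀)) = ff B x y φ (z.1 x t₀) t₁ u₀ u₁ := rfl
    have e3 : four B x y φ (Function.update (fam t₀ t₁ u₀ u₁) (Sum.inr true)
        (z.1 y u₁)) = ff B x y φ t₀ t₁ u₀ (z.1 y u₁) := rfl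
    have e4 : four B x y φ (Function.update (fam t₀ t₁ u₀ u₁) (Sum.inr false)
        (z.1 y u₀)) = ff B x y φ t₀ t₁ (z.1 y u₀) u₁ := rfl
    have h4 : ff B x y φ t₀ (z.1 x t₁) u₀ u₁ + ff B x y φ (z.1 x t₀) t₁ u₀ u₁ +
        (ff B x y φ t₀ t₁ u₀ (z.1 y u₁) + ff B x y φ t₀ t₁ (z.1 y u₀) u₁) =
        ((w x + w y : ℤ) : K) * z.2 * ff B x y φ t₀ t₁ u₀ u₁ := by
      rw [← e1, ← e2, ← e3, ← e4]
      exact h3
    have e5 : rk B x (z.1 x t₁) t₀ = ((w x : K) * z.2) • rk B x t₁ t₀ - rk B x t₁ t₀ * z.1 x := by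
      refine LinearMap.ext fun v => ?_
      rw [LinearMap.sub_apply, LinearMap.smul_apply, Module.End.mul_apply, rk_apply, rk_apply,
        rk_apply, smul_smul, ← sub_smul, ← h1]
      congr 1
      ring
    have e6 : rk B x t₁ (z.1 x t₀) = z.1 x * rk B x t₁ t₀ := by
      refine LinearMap.ext fun v => ?_
      rw [Module.End.mul_apply, rk_apply, rk_apply, map_smul]
    have e7 := h1 y (φ (rk B x t₁ t₀) u₀) u₁
    unfold ff at h4
    rw [e5, e6] at h4
    simp only [LinearMap.comp_apply, LinearMap.sub_apply, LinearMap.mulLeft_apply,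
      LinearMap.mulRight_apply, map_sub, map_smul, LinearMap.smul_apply, Module.End.mul_apply,
      smul_eq_mul] at h4 ⊢
    push_cast at h4
    linear_combination h4 - e7
  have := congrArg (fun f => f a) key
  simpa using this

end der

end Pool.Agent.T6.H33.ST
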