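import Mathlib
import Pool.Agent.Y759.TS.Kol

/-!
# Complements and unipotent actions
-/

set_option autoImplicit false

namespace Pool.Agent.T6.H33.ST

open Module

variable {K Γ I : Type} [Field K] [Group Γ]

/-- a stable subspace of a product of semisimple representations has a stable complement -/
theorem exists_compl_aux {M : Type} [AddCommGroup M] [Module K M] [Module (MonoidAlgebra K Γ) M]
    [IsScalarTower K (MonoidAlgebra K Γ) M] [IsSemisimpleModule (MonoidAlgebra K Γ) M]
    (W : Submodule K M) (hW : ∀ γ : Γ, ∀ v ∈ W, MonoidAlgebra.of K Γ γ • v ∈ W) :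
    ∃ W' : Submodule K M, IsCompl W W' ∧ ∀ γ : Γ, ∀ v ∈ W', MonoidAlgebra.of K Γ γ • v ∈ W' := by
  let W₁ : Submodule (MonoidAlgebra K Γ) M :=
    { carrier := W
      zero_mem' := W.zero_mem
      add_mem' := fun ha hb => W.add_mem ha hb
      smul_mem' := fun r x hx => by
        induction r using MonoidAlgebra.induction_on with
        | of g => exact hW g x hx
        | add a b ha hb => rw [add_smul]; exact W.add_mem ha hb
        | smul r f hf => rw [smul_assoc]; exact W.smul_mem r hf }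
  obtain ⟨W₂, hW₂⟩ := exists_isCompl W₁
  refine ⟨W₂.restrictScalars K, ?_, fun γ v hv => W₂.smul_mem _ hv⟩
  constructor
  · rw [Submodule.disjoint_def]
    intro x hx hx'
    exact (Submodule.disjoint_def.1 hW₂.disjoint) x hx hx'
  · rw [codisjoint_iff, eq_top_iff]
    intro x _
    have h1 : x ∈ W₁ ⊔ W₂ := by
      rw [hW₂.sup_eq_top]
      exact Submodule.mem_top
    obtain ⟨y, hy, z, hz, rfl⟩ := Submodule.mem_sup.1 h1
    exact Submodule.add_mem_sup hy hz

theorem prod_ss {R M N : Type} [Ring R] [AddCommGroup M] [Module R M] [AddCommGroup N] [Module R N]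
    [IsSemisimpleModule R M] [IsSemisimpleModule R N] : IsSemisimpleModule R (M × N) := by
  have h1 : IsSemisimpleModule R (LinearMap.range (LinearMap.inl R M N)) :=
    IsSemisimpleModule.range _
  have h2 : IsSemisimpleModule R (LinearMap.range (LinearMap.inr R M N)) :=
    IsSemisimpleModule.range _
  have h3 := IsSemisimpleModule.sup h1 h2
  rw [LinearMap.sup_range_inl_inr] at h3
  exact IsSemisimpleModule.congr (Submodule.topEquiv (R := R) (M := M × N)).symm

theorem trivial_ss : IsSemisimpleModule (MonoidAlgebra K Γ) (Representation.trivial K Γ K).asModule := by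
  rw [← Representation.isSemisimpleRepresentation_iff_isSemisimpleModule_asModule]
  constructor
  intro a
  rcases eq_bot_or_eq_top a.toSubmodule with h | h
  · have ha : a = ⊥ := Subrepresentation.toSubmodule_injective h
    rw [ha]
    exact ⟨⊤, isCompl_bot_top⟩
  · have ha : a = ⊤ := Subrepresentation.toSubmodule_injective h
    rw [ha]
    exact ⟨⊥, isCompl_top_bot⟩

theorem exists_compl [Finite I] {V : I → Type} [∀ i, AddCommGroup (V i)] [∀ i, Module K (V i)]
    (σ : ∀ i, Representation K Γ (V i)) (hσ : ∀ i, (σ i).IsSemisimpleRepresentation)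
    (W : Submodule K ((∀ i, V i) × K))
    (hW : ∀ γ : Γ, ∀ v ∈ W, ((fun i => σ i γ (v.1 i), v.2) : (∀ i, V i) × K) ∈ W) :
    ∃ W' : Submodule K ((∀ i, V i) × K), IsCompl W W' ∧
      ∀ γ : Γ, ∀ v ∈ W', ((fun i => σ i γ (v.1 i), v.2) : (∀ i, V i) × K) ∈ W' := by
  have h1 : ∀ i, IsSemisimpleModule (MonoidAlgebra K Γ) (σ i).asModule := fun i =>
    (Representation.isSemisimpleRepresentation_iff_isSemisimpleModule_asModule _).1 (hσ i)
  have h2 := trivial_ss (K := K) (Γ := Γ)
  have h3 : IsSemisimpleModule (MonoidAlgebra K Γ)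
      ((∀ i, (σ i).asModule) × (Representation.trivial K Γ K).asModule) := prod_ss
  have h4 : ∀ (γ : Γ) (v : (∀ i, (σ i).asModule) × (Representation.trivial K Γ K).asModule),
      MonoidAlgebra.of K Γ γ • v = (fun i => σ i γ (v.1 i), v.2) := by
    intro γ v
    ext i
    · show MonoidAlgebra.of K Γ γ • (v.1 i) = _
      rw [MonoidAlgebra.of_apply, Representation.single_smul, one_smul]
      rfl
    · show MonoidAlgebra.of K Γ γ • v.2 = _
      rw [MonoidAlgebra.of_apply, Representation.single_smul, one_smul]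
      rfl
  let W₀ : Submodule K ((∀ i, (σ i).asModule) × (Representation.trivial K Γ K).asModule) := W
  obtain ⟨W', hW', h5⟩ := exists_compl_aux (K := K) (Γ := Γ)
    (M := (∀ i, (σ i).asModule) × (Representation.trivial K Γ K).asModule) W₀
    (fun γ v hv => by rw [h4]; exact hW γ v hv)
  exact ⟨W', hW', fun γ v hv => by
    have := h5 γ v hv
    rw [h4] at this
    exact this⟩

theorem exists_compl_one {V : Type} [AddCommGroup V] [Module K V]
    (σ : Representation K Γ V) (hσ : σ.IsSemisimpleRepresentation)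
    (W : Submodule K V) (hW : ∀ γ : Γ, ∀ v ∈ W, σ γ v ∈ W) :
    ∃ W' : Submodule K V, IsCompl W W' ∧ ∀ γ : Γ, ∀ v ∈ W', σ γ v ∈ W' := by
  have h1 : IsSemisimpleModule (MonoidAlgebra K Γ) σ.asModule :=
    (Representation.isSemisimpleRepresentation_iff_isSemisimpleModule_asModule _).1 hσ
  have h4 : ∀ (γ : Γ) (v : σ.asModule), MonoidAlgebra.of K Γ γ • v = σ γ v := by
    intro γ v
    rw [MonoidAlgebra.of_apply, Representation.single_smul, one_smul]
    rfl
  let W₀ : Submodule K σ.asModule := W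
  obtain ⟨W', hW', h5⟩ := exists_compl_aux (K := K) (Γ := Γ) (M := σ.asModule) W₀
    (fun γ v hv => by rw [h4]; exact hW γ v hv)
  exact ⟨W', hW', fun γ v hv => by
    have := h5 γ v hv
    rw [h4] at this
    exact this⟩

/-- a normal subgroup which acts through unipotent maps on a semisimple representation acts
trivially -/
theorem unip_trivial [IsAlgClosed K] {V : Type} [AddCommGroup V] [Module K V] [FiniteDimensional K V]
    (σ : Representation K Γ V) (hσ : σ.IsSemisimpleRepresentation) (C : Submodule K V)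
    (hC : ∀ γ : Γ, ∀ v ∈ C, σ γ v ∈ C) (N : Subgroup Γ) [hN : N.Normal]
    (hu : ∀ γ ∈ N, ∃ r : ℕ, ∀ c ∈ C, ((σ γ - 1) ^ r) c = 0) : ∀ γ ∈ N, ∀ c ∈ C, σ γ c = c := by
  let F : Submodule K V :=
    { carrier := {v | v ∈ C ∧ ∀ γ ∈ N, σ γ v = v}
      zero_mem' := ⟨C.zero_mem, fun γ _ => map_zero _⟩
      add_mem' := fun ha hb => ⟨C.add_mem ha.1 hb.1, fun γ hγ => by rw [map_add, ha.2 γ hγ, hb.2 γ hγ]⟩
      smul_mem' := fun c x hx => ⟨C.smul_mem c hx.1, fun γ hγ => by rw [map_smul, hx.2 γ hγ]⟩ }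
  have hF : ∀ γ : Γ, ∀ v ∈ F, σ γ v ∈ F := by
    intro γ v hv
    refine ⟨hC γ v hv.1, fun δ hδ => ?_⟩
    have h1 := hv.2 (γ⁻¹ * δ * γ) (by simpa using hN.conj_mem δ hδ γ⁻¹)
    rw [map_mul, map_mul, Module.End.mul_apply, Module.End.mul_apply] at h1
    have h2 : σ γ (σ γ⁻¹ (σ δ (σ γ v))) = σ γ v := by rw [h1]
    rwa [← Module.End.mul_apply, ← map_mul, mul_inv_cancel, map_one, Module.End.one_apply] at h2
  obtain ⟨F', hFF', hF'⟩ := exists_compl_one σ hσ F hF
  have hD : C ⊓ F' = ⊥ := by
    by_contra hne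
    have : Nontrivial ↥(C ⊓ F') := Submodule.nontrivial_iff_ne_bot.2 hne
    have hst : ∀ γ : N, ∀ v ∈ C ⊓ F', σ γ v ∈ C ⊓ F' := fun γ v hv => ⟨hC _ v hv.1, hF' _ v hv.2⟩
    let φ : N →* Module.End K ↥(C ⊓ F') :=
      { toFun := fun γ => (σ γ).restrict (hst γ)
        map_one' := by
          ext x
          simp
        map_mul' := fun a b => by
          ext x
          simp }
    have hφ : ∀ (γ : N) (x : ↥(C ⊓ F')), ((φ γ x : ↥(C ⊓ F')) : V) = σ γ x := fun γ x => rfl
    obtain ⟨v, hv0, hv⟩ := Pool.Agent.Y759.TS.fixed_vec (k := K) (G := N)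
      (Module.finrank K ↥(C ⊓ F')) ↥(C ⊓ F') φ (fun γ => by
        obtain ⟨r, hr⟩ := hu γ γ.2
        refine ⟨r, LinearMap.ext fun x => ?_⟩
        have key : ∀ k : ℕ, ((((φ γ - 1) ^ k) x : ↥(C ⊓ F')) : V) = ((σ γ - 1) ^ k) (x : V) := by
          intro k
          induction k with
          | zero => rfl
          | succ k ih =>
            rw [pow_succ', pow_succ', Module.End.mul_apply, Module.End.mul_apply, ← ih,
              LinearMap.sub_apply, LinearMap.sub_apply, Submodule.coe_sub, hφ]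
            rfl
        apply Subtype.ext
        rw [key, hr _ x.2.1]
        rfl) le_rfl
    apply hv0
    have h1 : (v : V) ∈ F := ⟨v.2.1, fun γ hγ => by
      have := congrArg (fun y : ↥(C ⊓ F') => (y : V)) (hv ⟨γ, hγ⟩)
      rw [hφ] at this
      exact this⟩
    apply Subtype.ext
    exact (Submodule.disjoint_def.1 hFF'.disjoint) _ h1 v.2.2
  intro γ hγ c hc
  have h1 : c ∈ F ⊔ F' := by
    rw [hFF'.sup_eq_top]
    exact Submodule.mem_top
  obtain ⟨y, hy, z, hz, hyz⟩ := Submodule.mem_sup.1 h1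
  have h2 : z ∈ C ⊓ F' := by
    refine ⟨?_, hz⟩
    have : z = c - y := by rw [← hyz]; abel
    rw [this]
    exact C.sub_mem hc hy.1
  rw [hD, Submodule.mem_bot] at h2
  rw [h2, add_zero] at hyz
  rw [← hyz]
  exact hy.2 γ hγ

end Pool.Agent.T6.H33.ST
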