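import Pool.Agent.T6.H33.ST.Mult
import Pool.Agent.T6.H33.ST.Semi

/-!
# The comparison of the two Lie algebras
-/

set_option autoImplicit false

namespace Pool.Agent.T6.H33.ST

open Module

variable {K Γ G I : Type} [Field K] [Group Γ] [Group G] {T : I → Type}
  [∀ i, AddCommGroup (T i)] [∀ i, Module K (T i)]
  {ι : Γ →* G} {q : G →* Kˣ} {ρ : ∀ i, Representation K G (T i)} {w : I → ℤ}
  {B : ∀ i, T i →ₗ[K] T i →ₗ[K] K}

theorem rho_mul_inv (i : I) (g : G) : ρ i g * ρ i g⁻¹ = 1 := by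
  rw [← map_mul, mul_inv_cancel, map_one]

theorem rho_inv_mul (i : I) (g : G) : ρ i g⁻¹ * ρ i g = 1 := by
  rw [← map_mul, inv_mul_cancel, map_one]

/-- endomorphisms which commute with a subgroup of finite index of `Γ` are endomorphisms of the
motive -/
theorem endosMotivated_of_fourfold [CharZero K] [∀ i, FiniteDimensional K (T i)]
    (h4 : FourfoldTateMotivated ι ρ) : EndosMotivated ι ρ := by
  intro i e he
  rcases subsingleton_or_nontrivial (T i) with hs | hs
  · exact ⟨⊤, inferInstance, fun g _ => LinearMap.ext fun x => Subsingleton.elim _ _⟩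
  obtain ⟨Δ, hΔ, h⟩ := he
  obtain ⟨Δ', hΔ', h'⟩ := h4 i i ((LinearMap.trace K (T i)).smulRight e) ⟨Δ, hΔ, fun γ hγ a => by
    rw [LinearMap.smulRight_apply, LinearMap.smulRight_apply]
    have h1 : LinearMap.trace K (T i) (ρ i (ι γ) * a * ρ i (ι γ)⁻¹) = LinearMap.trace K (T i) a := by
      rw [LinearMap.trace_mul_comm, ← mul_assoc, rho_inv_mul, one_mul]
    rw [h1, mul_smul_comm, smul_mul_assoc, ← (h γ hγ).eq, mul_assoc, rho_mul_inv, mul_one]⟩
  refine ⟨Δ', hΔ', fun g hg => ?_⟩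
  have h1 := h' g hg 1
  rw [mul_one, rho_mul_inv, LinearMap.smulRight_apply, mul_smul_comm, smul_mul_assoc] at h1
  have h2 : LinearMap.trace K (T i) 1 ≠ 0 := by
    rw [LinearMap.trace_one]
    exact_mod_cast (Module.finrank_pos (R := K) (M := T i)).ne'
  have h3 := smul_right_injective _ h2 h1
  show e * ρ i g = ρ i g * e
  calc e * ρ i g = ρ i g * e * (ρ i g⁻¹ * ρ i g) := by rw [← mul_assoc]; exact congrArg (· * ρ i g) h3
    _ = ρ i g * e := by rw [rho_inv_mul, mul_one]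

theorem commute_of_conj {i : I} {g : G} {e : Module.End K (T i)}
    (h : ρ i g * e * ρ i g⁻¹ = e) : Commute e (ρ i g) := by
  show e * ρ i g = ρ i g * e
  calc e * ρ i g = ρ i g * e * ρ i g⁻¹ * ρ i g := by rw [h]
    _ = _ := by rw [mul_assoc, rho_inv_mul, mul_one]

/-- an equivariant projector onto the Lie algebra of the Tate classes -/
theorem exists_proj [Finite I] (hss : ∀ i, (conjRep ι (ρ i)).IsSemisimpleRepresentation) :
    ∃ P : ((∀ i, Module.End K (T i)) × K) →ₗ[K] ((∀ i, Module.End K (T i)) × K),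
      (∀ z, P z ∈ lieT ι q ρ) ∧ (∀ z ∈ lieT ι q ρ, P z = z) ∧
      ∀ γ z, P (adL ρ (ι γ) z) = adL ρ (ι γ) (P z) := by
  obtain ⟨W', hW', hst⟩ := exists_compl (fun i => conjRep ι (ρ i)) hss (lieT ι q ρ)
    (fun γ v hv => adL_mem γ hv)
  refine ⟨(lieT ι q ρ).projection W' hW', fun z => Submodule.projection_apply_mem hW' z,
    fun z hz => Submodule.projection_apply_of_mem_left hW' hz, fun γ z => ?_⟩
  have h1 : z ∈ lieT ι q ρ ⊔ W' := by
    rw [hW'.sup_eq_top]
    exact Submodule.mem_top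
  obtain ⟨a, ha, b, hb, rfl⟩ := Submodule.mem_sup.1 h1
  rw [map_add, map_add, map_add, Submodule.projection_apply_of_mem_left hW' (adL_mem γ ha),
    Submodule.projection_apply_of_mem_right hW' (show adL ρ (ι γ) b ∈ W' from hst γ b hb),
    Submodule.projection_apply_of_mem_left hW' ha, Submodule.projection_apply_of_mem_right hW' hb,
    add_zero, add_zero]

/-- the bracket with `m` -/
def adm (m : (∀ i, Module.End K (T i)) × K) :
    ((∀ i, Module.End K (T i)) × K) →ₗ[K] ((∀ i, Module.End K (T i)) × K) where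
  toFun z := (fun i => m.1 i * z.1 i - z.1 i * m.1 i, 0)
  map_add' z z' := by
    refine Prod.ext ?_ (by simp)
    funext i
    show m.1 i * (z.1 i + z'.1 i) - (z.1 i + z'.1 i) * m.1 i = _ + _
    rw [mul_add, add_mul, add_sub_add_comm]
  map_smul' c z := by
    refine Prod.ext ?_ (by simp)
    funext i
    show m.1 i * (c • z.1 i) - (c • z.1 i) * m.1 i = c • (_ - _)
    rw [mul_smul_comm, smul_mul_assoc, smul_sub]

theorem adm_single [DecidableEq I] (m : (∀ i, Module.End K (T i)) × K) (x : I)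
    (a : Module.End K (T x)) :
    adm m (Pi.single x a, 0) = (Pi.single x (m.1 x * a - a * m.1 x), 0) := by
  refine Prod.ext ?_ rfl
  funext i
  show m.1 i * (Pi.single x a : ∀ i, Module.End K (T i)) i -
    (Pi.single x a : ∀ i, Module.End K (T i)) i * m.1 i = _
  by_cases h : i = x
  · subst h
    simp
  · simp [h]

theorem adL_single [DecidableEq I] (g : G) (x : I) (a : Module.End K (T x)) :
    adL ρ g (Pi.single x a, 0) = (Pi.single x (ρ x g * a * ρ x g⁻¹), 0) := by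
  refine Prod.ext ?_ rfl
  funext i
  show ρ i g * (Pi.single x a : ∀ i, Module.End K (T i)) i * ρ i g⁻¹ = _
  by_cases h : i = x
  · subst h
    simp
  · simp [h]

/-- the projector commutes with the bracket with all elements of the larger Lie algebra -/
theorem proj_adm [Finite I] [∀ i, FiniteDimensional K (T i)]
    (hB : IsPolarized q ρ w B)
    {P : ((∀ i, Module.End K (T i)) × K) →ₗ[K] ((∀ i, Module.End K (T i)) × K)}
    (hP : ∃ Δ : Subgroup G, Δ.FiniteIndex ∧ ∀ g ∈ Δ, ∀ z, P (adL ρ g z) = adL ρ g (P z))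
    {m : (∀ i, Module.End K (T i)) × K} (hm : m ∈ lieT (MonoidHom.id G) q ρ)
    (z : (∀ i, Module.End K (T i)) × K) : P (adm m z) = adm m (P z) := by
  classical
  have : Fintype I := Fintype.ofFinite I
  obtain ⟨Δ, hΔ, hP⟩ := hP
  -- the case of one component
  have h1 : ∀ (x : I) (a : Module.End K (T x)), P (adm m (Pi.single x a, 0)) =
      adm m (P (Pi.single x a, 0)) := by
    intro x a
    rw [adm_single]
    let L : Module.End K (T x) →ₗ[K] ((∀ i, Module.End K (T i)) × K) :=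
      P ∘ₗ LinearMap.inl K _ _ ∘ₗ LinearMap.single K (fun i => Module.End K (T i)) x
    have hL : ∀ a, L a = P (Pi.single x a, 0) := fun a => rfl
    have hLe : ∀ g ∈ Δ, ∀ a, L (ρ x g * a * ρ x g⁻¹) = adL ρ g (L a) := by
      intro g hg a
      rw [hL, hL, ← hP g hg, adL_single]
    refine Prod.ext ?_ ?_
    · funext y
      let φ : Module.End K (T x) →ₗ[K] Module.End K (T y) :=
        LinearMap.proj y ∘ₗ LinearMap.fst K _ _ ∘ₗ L
      exact comm_of_equiv hB (φ := φ) ⟨Δ, hΔ, fun g hg a => by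
        show (L (ρ x g * a * ρ x g⁻¹)).1 y = _
        rw [hLe g hg]
        rfl⟩ hm a
    · show (L (m.1 x * a - a * m.1 x)).2 = 0
      rcases subsingleton_or_nontrivial (T x) with hs | hs
      · have : m.1 x * a - a * m.1 x = 0 := LinearMap.ext fun v => Subsingleton.elim _ _
        rw [this, map_zero]
        rfl
      · let φ : Module.End K (T x) →ₗ[K] Module.End K (T x) :=
          (LinearMap.snd K _ _ ∘ₗ L).smulRight 1
        have h2 := comm_of_equiv hB (φ := φ) ⟨Δ, hΔ, fun g hg a => by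
          show (L (ρ x g * a * ρ x g⁻¹)).2 • (1 : Module.End K (T x)) =
            ρ x g * ((L a).2 • (1 : Module.End K (T x))) * ρ x g⁻¹
          rw [hLe g hg, mul_smul_comm, smul_mul_assoc, mul_one, rho_mul_inv]
          rfl⟩ hm a
        have h3 : (L (m.1 x * a - a * m.1 x)).2 • (1 : Module.End K (T x)) = 0 := by
          refine Eq.trans h2 ?_
          show m.1 x * ((L a).2 • (1 : Module.End K (T x))) - ((L a).2 • (1 : Module.End K (T x))) *
            m.1 x = 0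
          rw [mul_smul_comm, smul_mul_assoc, mul_one, one_mul, sub_self]
        exact (smul_eq_zero.1 h3).resolve_right one_ne_zero
  -- the last component
  have h2 : ∀ t : K, P (adm m (0, t)) = adm m (P (0, t)) := by
    intro t
    have e1 : adm m ((0 : ∀ i, Module.End K (T i)), t) = 0 := by
      refine Prod.ext ?_ rfl
      funext i
      show m.1 i * 0 - 0 * m.1 i = 0
      rw [mul_zero, zero_mul, sub_zero]
    rw [e1, map_zero]
    symm
    refine Prod.ext ?_ rfl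
    funext i
    show m.1 i * (P (0, t)).1 i - (P (0, t)).1 i * m.1 i = 0
    rw [sub_eq_zero]
    refine comm_of_endo hB ⟨Δ, hΔ, fun g hg => ?_⟩ hm
    have e2 : adL ρ g ((0 : ∀ i, Module.End K (T i)), t) = (0, t) := by
      refine Prod.ext ?_ rfl
      funext i
      show ρ i g * 0 * ρ i g⁻¹ = 0
      rw [mul_zero, zero_mul]
    have e3 := hP g hg (0, t)
    rw [e2] at e3
    have e4 : (P (0, t)).1 i = ρ i g * (P (0, t)).1 i * ρ i g⁻¹ :=
      congrFun (congrArg Prod.fst e3) i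
    exact commute_of_conj e4.symm
  have h3 : z = ∑ x, ((Pi.single x (z.1 x) : ∀ i, Module.End K (T i)), (0 : K)) + (0, z.2) := by
    refine Prod.ext ?_ ?_
    · rw [Prod.fst_add, Prod.fst_sum, add_zero, Finset.univ_sum_single]
    · rw [Prod.snd_add, Prod.snd_sum, Finset.sum_const_zero, zero_add]
  rw [h3, map_add, map_add, map_add, map_add, h2, map_sum, map_sum, map_sum, map_sum]
  congr 1
  exact Finset.sum_congr rfl fun x _ => h1 x _

/-- if the four-fold Tate classes are motivated then equivariant maps are motivated -/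
theorem equiv_of_fourfold [Finite I] [CharZero K] [∀ i, FiniteDimensional K (T i)]
    (h4 : FourfoldTateMotivated ι ρ)
    {P : ((∀ i, Module.End K (T i)) × K) →ₗ[K] ((∀ i, Module.End K (T i)) × K)}
    (hP : ∀ γ z, P (adL ρ (ι γ) z) = adL ρ (ι γ) (P z)) :
    ∃ Δ : Subgroup G, Δ.FiniteIndex ∧ ∀ g ∈ Δ, ∀ z, P (adL ρ g z) = adL ρ g (P z) := by
  classical
  have : Fintype I := Fintype.ofFinite I
  let L : ∀ x, Module.End K (T x) →ₗ[K] ((∀ i, Module.End K (T i)) × K) := fun x =>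
    P ∘ₗ LinearMap.inl K _ _ ∘ₗ LinearMap.single K (fun i => Module.End K (T i)) x
  have hL : ∀ x a, L x a = P (Pi.single x a, 0) := fun x a => rfl
  have hLe : ∀ x γ a, L x (ρ x (ι γ) * a * ρ x (ι γ)⁻¹) = adL ρ (ι γ) (L x a) := by
    intro x γ a
    rw [hL, hL, ← hP, adL_single]
  have h1 : ∀ x y, ∃ Δ : Subgroup G, Δ.FiniteIndex ∧ ∀ g ∈ Δ,
      EndEquivariant ρ x y (LinearMap.proj y ∘ₗ LinearMap.fst K _ _ ∘ₗ L x) g := by
    intro x y
    refine h4 x y _ ⟨⊤, inferInstance, fun γ _ a => ?_⟩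
    show (L x (ρ x (ι γ) * a * ρ x (ι γ)⁻¹)).1 y = _
    rw [hLe]
    rfl
  have h2 : ∀ x, ∃ Δ : Subgroup G, Δ.FiniteIndex ∧ ∀ g ∈ Δ,
      EndEquivariant ρ x x ((LinearMap.snd K _ _ ∘ₗ L x).smulRight 1) g := by
    intro x
    refine h4 x x _ ⟨⊤, inferInstance, fun γ _ a => ?_⟩
    show (L x (ρ x (ι γ) * a * ρ x (ι γ)⁻¹)).2 • (1 : Module.End K (T x)) =
      ρ x (ι γ) * ((L x a).2 • (1 : Module.End K (T x))) * ρ x (ι γ)⁻¹
    rw [hLe, mul_smul_comm, smul_mul_assoc, mul_one, rho_mul_inv]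
    rfl
  have h3 : ∀ x, IsEndo (ρ x) ((P (0, 1)).1 x) := by
    intro x
    refine endosMotivated_of_fourfold h4 x _ ⟨⊤, inferInstance, fun γ _ => ?_⟩
    have e2 : adL ρ (ι γ) ((0 : ∀ i, Module.End K (T i)), (1 : K)) = (0, 1) := by
      refine Prod.ext ?_ rfl
      funext i
      show ρ i (ι γ) * 0 * ρ i (ι γ)⁻¹ = 0
      rw [mul_zero, zero_mul]
    have e3 := hP γ (0, 1)
    rw [e2] at e3
    have e4 : (P (0, 1)).1 x = ρ x (ι γ) * (P (0, 1)).1 x * ρ x (ι γ)⁻¹ :=
      congrFun (congrArg Prod.fst e3) x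
    exact commute_of_conj e4.symm
  choose D1 hD1 hD1' using h1
  choose D2 hD2 hD2' using h2
  choose D3 hD3 hD3' using h3
  refine ⟨(⨅ x, ⨅ y, D1 x y) ⊓ ((⨅ x, D2 x) ⊓ ⨅ x, D3 x), ?_, fun g hg z => ?_⟩
  · have i1 : (⨅ x, ⨅ y, D1 x y).FiniteIndex :=
      Subgroup.finiteIndex_iInf fun x => Subgroup.finiteIndex_iInf fun y => hD1 x y
    have i2 : (⨅ x, D2 x).FiniteIndex := Subgroup.finiteIndex_iInf hD2
    have i3 : (⨅ x, D3 x).FiniteIndex := Subgroup.finiteIndex_iInf hD3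
    infer_instance
  obtain ⟨g1, g2, g3⟩ := hg
  have k1 : ∀ x y, g ∈ D1 x y := fun x y => by
    have := Subgroup.mem_iInf.1 (Subgroup.mem_iInf.1 g1 x) y
    exact this
  have k2 : ∀ x, g ∈ D2 x := Subgroup.mem_iInf.1 g2
  have k3 : ∀ x, g ∈ D3 x := Subgroup.mem_iInf.1 g3
  have m1 : ∀ (x : I) (a : Module.End K (T x)), P (adL ρ g (Pi.single x a, 0)) =
      adL ρ g (P (Pi.single x a, 0)) := by
    intro x a
    rw [adL_single]
    refine Prod.ext ?_ ?_
    · funext y
      exact hD1' x y g (k1 x y) a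
    · rcases subsingleton_or_nontrivial (T x) with hs | hs
      · have : a = 0 := LinearMap.ext fun v => Subsingleton.elim _ _
        subst this
        rw [mul_zero, zero_mul]
        show _ = (P (Pi.single x 0, 0)).2
        rfl
      · have h5 := hD2' x g (k2 x) a
        have h6 : (L x (ρ x g * a * ρ x g⁻¹)).2 • (1 : Module.End K (T x)) =
            (L x a).2 • (1 : Module.End K (T x)) := by
          refine Eq.trans h5 ?_
          show ρ x g * ((L x a).2 • (1 : Module.End K (T x))) * ρ x g⁻¹ = _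
          rw [mul_smul_comm, smul_mul_assoc, mul_one, rho_mul_inv]
        exact smul_left_injective K (one_ne_zero (α := Module.End K (T x))) h6
  have m2 : ∀ t : K, P (adL ρ g (0, t)) = adL ρ g (P (0, t)) := by
    intro t
    have e0 : ((0 : ∀ i, Module.End K (T i)), t) = t • (0, 1) := by
      refine Prod.ext ?_ ?_
      · show (0 : ∀ i, Module.End K (T i)) = t • 0
        rw [smul_zero]
      · show t = t • 1
        rw [smul_eq_mul, mul_one]
    have e1 : adL ρ g ((0 : ∀ i, Module.End K (T i)), t) = (0, t) := by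
      refine Prod.ext ?_ rfl
      funext i
      show ρ i g * 0 * ρ i g⁻¹ = 0
      rw [mul_zero, zero_mul]
    rw [e1, e0, map_smul, map_smul]
    congr 1
    refine Prod.ext ?_ rfl
    funext x
    have h5 := (hD3' x g (k3 x)).eq
    show (P (0, 1)).1 x = ρ x g * (P (0, 1)).1 x * ρ x g⁻¹
    rw [← h5, mul_assoc, rho_mul_inv, mul_one]
  have h3 : z = ∑ x, ((Pi.single x (z.1 x) : ∀ i, Module.End K (T i)), (0 : K)) + (0, z.2) := by
    refine Prod.ext ?_ ?_
    · rw [Prod.fst_add, Prod.fst_sum, add_zero, Finset.univ_sum_single]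
    · rw [Prod.snd_add, Prod.snd_sum, Finset.sum_const_zero, zero_add]
  rw [h3, map_add, map_add, map_add, map_add, m2, map_sum, map_sum, map_sum, map_sum]
  congr 1
  exact Finset.sum_congr rfl fun x _ => m1 x _

/-- the two parts of the Lie algebra commute -/
theorem comm_gc [Finite I] [∀ i, FiniteDimensional K (T i)]
    (hB : IsPolarized q ρ w B)
    {P : ((∀ i, Module.End K (T i)) × K) →ₗ[K] ((∀ i, Module.End K (T i)) × K)}
    (hPid : ∀ z ∈ lieT ι q ρ, P z = z)
    (hPG : ∃ Δ : Subgroup G, Δ.FiniteIndex ∧ ∀ g ∈ Δ, ∀ z, P (adL ρ g z) = adL ρ g (P z))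
    {z c : (∀ i, Module.End K (T i)) × K} (hz : z ∈ lieT ι q ρ)
    (hc : c ∈ lieT (MonoidHom.id G) q ρ) (hc0 : P c = 0) (i : I) : Commute (c.1 i) (z.1 i) := by
  have h1 := proj_adm hB hPG (lieT_le ι q ρ hz) c
  have h2 := proj_adm hB hPG hc z
  rw [hc0, map_zero] at h1
  rw [hPid z hz] at h2
  have h3 : adm c z = - adm z c := by
    refine Prod.ext ?_ (by simp [adm])
    funext i
    show c.1 i * z.1 i - z.1 i * c.1 i = - (z.1 i * c.1 i - c.1 i * z.1 i)
    abel
  rw [h3, map_neg, h1, neg_zero] at h2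
  have h4 : adm z c = 0 := by
    rw [← neg_eq_zero]; exact h2.symm
  have h5 : z.1 i * c.1 i - c.1 i * z.1 i = 0 := congrFun (congrArg Prod.fst h4) i
  exact (sub_eq_zero.1 h5).symm

theorem sep_ext0 [CharZero K] [∀ i, FiniteDimensional K (T i)] {i : I} {g : G}
    (hneat : ∀ α β : K, Module.End.HasEigenvalue (ρ i g) α → Module.End.HasEigenvalue (ρ i g) β →
      ∀ m : ℕ, 0 < m → α ^ m = β ^ m → α = β) :
    ∀ α β : K, Module.End.HasEigenvalue (ρ i g) α → Module.End.HasEigenvalue (ρ i g) β → α ≠ β →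
      ∃ l ∈ Set.range (ext0 : (Additive Kˣ →+ K) → K → K), l α ≠ l β := by
  have hne : ∀ α, Module.End.HasEigenvalue (ρ i g) α → α ≠ 0 := by
    rintro α hα rfl
    obtain ⟨x, hx, hx0⟩ := hα.exists_hasEigenvector
    apply hx0
    rw [Module.End.mem_eigenspace_iff, zero_smul] at hx
    have : (ρ i g⁻¹ * ρ i g) x = 0 := by rw [Module.End.mul_apply, hx, map_zero]
    rw [rho_inv_mul] at this
    exact this
  intro α β hα hβ hab
  have h1 := hne α hα
  have h2 := hne β hβ
  obtain ⟨l, hl⟩ := exists_add (Units.mk0 α h1 / Units.mk0 β h2) fun m hm h => by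
    apply hab
    apply hneat α β hα hβ m hm
    rw [div_pow, div_eq_one] at h
    have := congrArg Units.val h
    simpa using this
  refine ⟨ext0 l, ⟨l, rfl⟩, fun h => hl ?_⟩
  rw [ext0_of_ne l h1, ext0_of_ne l h2] at h
  rw [ofMul_div, map_sub, h, sub_self]

/-- the second part of the Lie algebra commutes with a subgroup of finite index of `Γ` -/
theorem comm_fix [IsAlgClosed K] [Finite I] [CharZero K] [∀ i, FiniteDimensional K (T i)]
    (hB : IsPolarized q ρ w B)
    (hss : ∀ i, (conjRep ι (ρ i)).IsSemisimpleRepresentation) (hneat : ∀ i, IsNeat ι (ρ i))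
    {P : ((∀ i, Module.End K (T i)) × K) →ₗ[K] ((∀ i, Module.End K (T i)) × K)}
    (hPid : ∀ z ∈ lieT ι q ρ, P z = z)
    (hP : ∀ γ z, P (adL ρ (ι γ) z) = adL ρ (ι γ) (P z))
    (hPG : ∃ Δ : Subgroup G, Δ.FiniteIndex ∧ ∀ g ∈ Δ, ∀ z, P (adL ρ g z) = adL ρ g (P z)) (i : I) :
    ∃ Δ : Subgroup Γ, Δ.FiniteIndex ∧ ∀ γ ∈ Δ, ∀ c ∈ lieT (MonoidHom.id G) q ρ, P c = 0 →
      Commute (c.1 i) (ρ i (ι γ)) := by
  obtain ⟨Δ, hΔ, hn⟩ := hneat i
  refine ⟨Δ.normalCore, inferInstance, fun γ hγ c hc hc0 => ?_⟩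
  let pr : ((∀ i, Module.End K (T i)) × K) →ₗ[K] Module.End K (T i) :=
    LinearMap.proj i ∘ₗ LinearMap.fst K _ _
  let C : Submodule K (Module.End K (T i)) :=
    (lieT (MonoidHom.id G) q ρ ⊓ LinearMap.ker P).map pr
  have hmem : ∀ {c}, c ∈ lieT (MonoidHom.id G) q ρ → P c = 0 → c.1 i ∈ C := fun hc hc0 =>
    Submodule.mem_map_of_mem (f := pr) ⟨hc, hc0⟩
  have h1 := unip_trivial (conjRep ι (ρ i)) (hss i) C ?_ Δ.normalCore ?_ γ hγ (c.1 i) (hmem hc hc0)
  · exact commute_of_conj h1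
  · rintro γ v ⟨c, ⟨hc, hc0⟩, rfl⟩
    have h2 : adL ρ (ι γ) c ∈ lieT (MonoidHom.id G) q ρ :=
      adL_mem (ι := MonoidHom.id G) (ι γ) hc
    have h3 : P (adL ρ (ι γ) c) = 0 := by
      rw [hP, LinearMap.mem_ker.1 hc0, map_zero]
    exact hmem h2 h3
  · intro γ hγ
    obtain ⟨r, hr⟩ := exists_pow_conj (ρ i (ι γ)) (ρ i (ι γ)⁻¹) (rho_mul_inv _ _) (rho_inv_mul _ _)
    refine ⟨r, ?_⟩
    rintro v ⟨c, ⟨hc, hc0⟩, rfl⟩
    have h2 : conjRep ι (ρ i) γ = conjEnd (ρ i (ι γ)) (ρ i (ι γ)⁻¹) :=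
      LinearMap.ext fun a => mul_assoc _ _ _
    rw [h2]
    apply hr
    intro d
    refine commute_of_sep (sep_ext0 (hn γ (Δ.normalCore_le hγ))) ?_ d
    rintro _ ⟨l, rfl⟩
    exact comm_gc hB hPid hPG (zel_mem ι q ρ γ l) hc (LinearMap.mem_ker.1 hc0) i

/-- invariant functionals are not zero on invariant elements -/
theorem exists_fixed [Finite I] (hss : ∀ i, (conjRep ι (ρ i)).IsSemisimpleRepresentation)
    {z : (∀ i, Module.End K (T i)) × K} (hz : z ∈ lieT ι q ρ) :
    ∃ u ∈ lieT ι q ρ, (∀ γ, adL ρ (ι γ) u = u) ∧ u.2 = z.2 := by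
  let W : Submodule K ((∀ i, Module.End K (T i)) × K) :=
    lieT ι q ρ ⊓ LinearMap.ker (LinearMap.snd K _ _)
  obtain ⟨W', hW', hst⟩ := exists_compl (fun i => conjRep ι (ρ i)) hss W
    (fun γ v hv => ⟨adL_mem γ hv.1, hv.2⟩)
  have h1 : z ∈ W ⊔ W' := by
    rw [hW'.sup_eq_top]
    exact Submodule.mem_top
  obtain ⟨a, ha, b, hb, hab⟩ := Submodule.mem_sup.1 h1
  have hb' : b ∈ lieT ι q ρ := by
    have : b = z - a := by rw [← hab]; abel
    rw [this]
    exact Submodule.sub_mem _ hz ha.1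
  have h2 : a.2 = 0 := ha.2
  refine ⟨b, hb', fun γ => ?_, ?_⟩
  · rw [← sub_eq_zero]
    refine (Submodule.disjoint_def.1 hW'.disjoint) _ ⟨Submodule.sub_mem _ (adL_mem γ hb') hb', ?_⟩
      (Submodule.sub_mem _ (hst γ b hb) hb)
    show b.2 - b.2 = 0
    exact sub_self _
  · rw [← hab]
    show b.2 = a.2 + b.2
    rw [h2, zero_add]

/-- central self-adjoint elements of the Lie algebra are similitudes -/
theorem eq_of_selfadjoint [CharZero K] (hB : IsPolarized q ρ w B) (hN : NoTypeFour ρ B)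
    {c : (∀ i, Module.End K (T i)) × K} (hc : c ∈ lieT (MonoidHom.id G) q ρ) {i : I}
    (he : IsEndo (ρ i) (c.1 i)) : c.1 i = ((w i : K) / 2 * c.2) • 1 := by
  have h1 := der_two (ι := MonoidHom.id G) (b := B i) (j := w i)
    ⟨⊤, inferInstance, fun g _ x y => hB.equiv i g x y⟩ hc
  have h2 := hN i (c.1 i) he fun e' he' => comm_of_endo hB he' hc
  refine LinearMap.ext fun x => ?_
  rw [← sub_eq_zero]
  refine hB.nondeg i _ fun y => ?_
  have h3 := h1 x y
  rw [← h2 x y] at h3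
  rw [map_sub, LinearMap.sub_apply, LinearMap.smul_apply, Module.End.one_apply, map_smul,
    LinearMap.smul_apply, smul_eq_mul]
  linear_combination h3 / 2

/-- an equivariant projector if the Lie algebra is motivic -/
theorem exists_proj_of_motivic [Finite I] (hG : IsReductive q ρ) (hL : LieIsMotivic ι q ρ) :
    ∃ P : ((∀ i, Module.End K (T i)) × K) →ₗ[K] ((∀ i, Module.End K (T i)) × K),
      (∀ z, P z ∈ lieT ι q ρ) ∧ (∀ z ∈ lieT ι q ρ, P z = z) ∧
      (∀ γ z, P (adL ρ (ι γ) z) = adL ρ (ι γ) (P z)) ∧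
      ∃ Δ : Subgroup G, Δ.FiniteIndex ∧ ∀ g ∈ Δ, ∀ z, P (adL ρ g z) = adL ρ g (P z) := by
  obtain ⟨Δ, hΔ, h⟩ := hL
  -- the normaliser
  have hmul : ∀ g g' z, adL ρ (g * g') z = adL ρ g (adL ρ g' z) := by
    intro g g' z
    refine Prod.ext ?_ rfl
    funext i
    show ρ i (g * g') * z.1 i * ρ i (g * g')⁻¹ = ρ i g * (ρ i g' * z.1 i * ρ i g'⁻¹) * ρ i g⁻¹
    rw [mul_inv_rev, map_mul, map_mul]
    noncomm_ring
  have hone : ∀ z, adL ρ 1 z = z := by
    intro z
    refine Prod.ext ?_ rfl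
    funext i
    show ρ i 1 * z.1 i * ρ i 1⁻¹ = z.1 i
    rw [inv_one, map_one, one_mul, mul_one]
  let S : Subgroup G :=
    { carrier := {g | ∀ z, adL ρ g z ∈ lieT ι q ρ ↔ z ∈ lieT ι q ρ}
      one_mem' := fun z => by rw [hone]
      mul_mem' := fun {g g'} hg hg' z => by rw [hmul, hg, hg']
      inv_mem' := fun {g} hg z => by rw [← hg, ← hmul, mul_inv_cancel, hone] }
  have hΔS : Δ ≤ S := by
    intro g hg z
    refine ⟨fun hz => ?_, fun hz => h g hg z hz⟩
    have h1 : adL ρ g⁻¹ (adL ρ g z) ∈ lieT ι q ρ := h g⁻¹ (Δ.inv_mem hg) _ hz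
    rwa [← hmul, inv_mul_cancel, hone] at h1
  have hιS : ∀ γ, ι γ ∈ S := by
    intro γ z
    refine ⟨fun hz => ?_, fun hz => adL_mem γ hz⟩
    have h1 : adL ρ (ι γ⁻¹) (adL ρ (ι γ) z) ∈ lieT ι q ρ := adL_mem γ⁻¹ hz
    rwa [← hmul, ← map_mul, inv_mul_cancel, map_one, hone] at h1
  have hSfin : S.FiniteIndex := Subgroup.finiteIndex_of_le hΔS
  obtain ⟨W', hW', hst⟩ := exists_compl (fun i => conjRep S.subtype (ρ i))
    (hG.semisimple S hSfin) (lieT ι q ρ) (fun g v hv => (g.2 v).2 hv)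
  have key : ∀ g ∈ S, ∀ z, (lieT ι q ρ).projection W' hW' (adL ρ g z) =
      adL ρ g ((lieT ι q ρ).projection W' hW' z) := by
    intro g hg z
    have h1 : z ∈ lieT ι q ρ ⊔ W' := by
      rw [hW'.sup_eq_top]
      exact Submodule.mem_top
    obtain ⟨a, ha, b, hb, rfl⟩ := Submodule.mem_sup.1 h1
    rw [map_add, map_add, map_add, Submodule.projection_apply_of_mem_left hW' ((hg a).2 ha),
      Submodule.projection_apply_of_mem_right hW' (show adL ρ g b ∈ W' from hst ⟨g, hg⟩ b hb),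
      Submodule.projection_apply_of_mem_left hW' ha, Submodule.projection_apply_of_mem_right hW' hb,
      add_zero, add_zero]
  exact ⟨(lieT ι q ρ).projection W' hW', fun z => Submodule.projection_apply_mem hW' z,
    fun z hz => Submodule.projection_apply_of_mem_left hW' hz, fun γ z => key _ (hιS γ) z,
    S, hSfin, key⟩

/-- endomorphisms which commute with the Lie algebra are endomorphisms of the motive -/
theorem isEndo_of_comm (hB : IsPolarized q ρ w B) (hA : IsAlgebraic q ρ) {i : I}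
    {e : Module.End K (T i)} (he : ∀ m ∈ lieT (MonoidHom.id G) q ρ, e * m.1 i = m.1 i * e) :
    IsEndo (ρ i) e := by
  obtain ⟨Δ, hΔ, h⟩ := hA Bool (fun _ => i) (w i) (two i (B i ∘ₗ e)) fun m hm t => by
    have h1 := der_two (ι := MonoidHom.id G) (b := B i) (j := w i)
      ⟨⊤, inferInstance, fun g _ x y => hB.equiv i g x y⟩ hm (e (t true)) (t false)
    rw [Fintype.sum_bool]
    show B i (e (m.1 i (t true))) (t false) + B i (e (t true)) (m.1 i (t false)) =
      (w i : K) * m.2 * B i (e (t true)) (t false)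
    rw [← h1, ← Module.End.mul_apply e, he m hm, Module.End.mul_apply]
  refine ⟨Δ, hΔ, fun g hg => LinearMap.ext fun x => ?_⟩
  rw [← sub_eq_zero]
  refine hB.nondeg i _ fun y => ?_
  obtain ⟨y, rfl⟩ : ∃ y', y = ρ i g y' := ⟨ρ i g⁻¹ y, (rho_inv _ _ _).symm⟩
  rw [map_sub, LinearMap.sub_apply, Module.End.mul_apply, Module.End.mul_apply, hB.equiv, sub_eq_zero]
  exact h g hg (fam2 y x)

/-- **the two Lie algebras are equal** -/
theorem lieT_eq [IsAlgClosed K] [Finite I] [CharZero K] [∀ i, FiniteDimensional K (T i)]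
    (hB : IsPolarized q ρ w B) (hG : IsReductive q ρ)
    (hE : EndosMotivated ι ρ) (hL : LieIsMotivic ι q ρ)
    (hss : ∀ i, (conjRep ι (ρ i)).IsSemisimpleRepresentation) (hneat : ∀ i, IsNeat ι (ρ i))
    (hC : CentreIsTate ι q ρ) {m : (∀ i, Module.End K (T i)) × K}
    (hm : m ∈ lieT (MonoidHom.id G) q ρ) : m ∈ lieT ι q ρ := by
  obtain ⟨P, hPmem, hPid, hP, hPG⟩ := exists_proj_of_motivic hG hL
  -- the second part is zero
  have key : ∀ c ∈ lieT (MonoidHom.id G) q ρ, P c = 0 → c = 0 := by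
    intro c hc hc0
    have h1 : c ∈ lieT ι q ρ := hC c hc fun m hm i => by
      obtain ⟨Δ, hΔ, h⟩ := comm_fix hB hss hneat hPid hP hPG i
      exact (comm_of_endo hB (hE i _ ⟨Δ, hΔ, fun γ hγ => h γ hγ c hc hc0⟩) hm).eq.symm
    rw [← hPid c h1, hc0]
  have h1 : m - P m = 0 := by
    apply key
    · exact Submodule.sub_mem _ hm (lieT_le ι q ρ (hPmem m))
    · rw [map_sub, hPid _ (hPmem m), sub_self]
  rw [sub_eq_zero.1 h1]
  exact hPmem m

/-- without factors of type IV the centre is in the Lie algebra of the monodromy group -/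
theorem centre_of_noTypeFour [Finite I] [CharZero K] [IsAlgClosed K]
    [∀ i, FiniteDimensional K (T i)] (hB : IsPolarized q ρ w B) (hA : IsAlgebraic q ρ)
    (hE : EndosMotivated ι ρ)
    (hss : ∀ i, (conjRep ι (ρ i)).IsSemisimpleRepresentation)
    (hN : NoTypeFour ρ B) (hq : NotTorsion ι q) : CentreIsTate ι q ρ := by
  -- the multiple of the weight in the smaller Lie algebra
  obtain ⟨γ₀, hγ₀⟩ := hq
  obtain ⟨l, hl⟩ := exists_add _ hγ₀
  obtain ⟨u, hu, hufix, hu0⟩ := exists_fixed hss (zel_mem ι q ρ γ₀ l)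
  have hu0' : u.2 ≠ 0 := by rw [hu0]; exact hl
  have hu1 : ∀ i, u.1 i = ((w i : K) / 2 * u.2) • 1 := by
    intro i
    refine eq_of_selfadjoint hB hN (lieT_le ι q ρ hu) ?_
    refine hE i _ ⟨⊤, inferInstance, fun γ _ => ?_⟩
    have h1 : ρ i (ι γ) * u.1 i * ρ i (ι γ)⁻¹ = u.1 i := congrFun (congrArg Prod.fst (hufix γ)) i
    exact commute_of_conj h1
  intro c hc hcc
  have h1 : ∀ i, c.1 i = ((w i : K) / 2 * c.2) • 1 := fun i =>
    eq_of_selfadjoint hB hN hc (isEndo_of_comm hB hA fun m hm => hcc m hm i)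
  have h2 : c = (c.2 / u.2) • u := by
    refine Prod.ext ?_ ?_
    · funext i
      rw [h1 i, Prod.smul_fst, Pi.smul_apply, hu1 i, smul_smul]
      congr 1
      field_simp
    · rw [Prod.smul_snd, smul_eq_mul]
      field_simp
  show c ∈ lieT ι q ρ
  rw [h2]
  exact Submodule.smul_mem _ _ hu

/-- all Tate classes are motivated if the two Lie algebras are equal -/
theorem all_of_lie (hA : IsAlgebraic q ρ)
    (h : ∀ m ∈ lieT (MonoidHom.id G) q ρ, m ∈ lieT ι q ρ) : AllTateMotivated ι q ρ := by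
  classical
  intro A _ s j f hf
  have : Fintype A := Fintype.ofFinite A
  exact hA A s j f fun z hz => h z hz A s j f hf

theorem fourfold_of_all [∀ i, FiniteDimensional K (T i)] (hB : IsPolarized q ρ w B)
    (h : AllTateMotivated ι q ρ) : FourfoldTateMotivated ι ρ := by
  rintro x y φ ⟨Δ, hΔ, hφ⟩
  obtain ⟨Δ', hΔ', h'⟩ := h _ _ _ (four B x y φ) ⟨Δ, hΔ, fun γ hγ => actsBy_four_of hB (hφ γ hγ)⟩
  exact ⟨Δ', hΔ', fun g hg => endEquivariant_of hB (h' g hg)⟩

theorem lieIsMotivic_of_fourfold [Finite I] [CharZero K] [∀ i, FiniteDimensional K (T i)]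
    (hss : ∀ i, (conjRep ι (ρ i)).IsSemisimpleRepresentation) (h4 : FourfoldTateMotivated ι ρ) :
    LieIsMotivic ι q ρ := by
  obtain ⟨P, hPmem, hPid, hP⟩ := exists_proj (q := q) hss
  obtain ⟨Δ, hΔ, h⟩ := equiv_of_fourfold h4 hP
  refine ⟨Δ, hΔ, fun g hg z hz => ?_⟩
  have h1 : P (adL ρ g z) = adL ρ g z := by rw [h g hg, hPid z hz]
  have h2 := hPmem (adL ρ g z)
  rw [h1] at h2
  exact h2

theorem centre_of_all (h : AllTateMotivated ι q ρ) : CentreIsTate ι q ρ := by
  intro z hz _ A _ _ s j f hf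
  exact hz A s j f (h A s j f hf)

theorem same_of_all (ho : OntoQuotients ι) (h : AllTateMotivated ι q ρ) : SameClasses ι q ρ := by
  intro A _ s j f hf g
  obtain ⟨Δ, hΔ, hf'⟩ := h A s j f ⟨⊤, inferInstance, fun γ _ => hf γ⟩
  obtain ⟨γ, d, hd, rfl⟩ := ho Δ hΔ g
  intro t
  have h1 := hf γ (fun a => ρ (s a) d (t a))
  rw [hf' d hd t] at h1
  have h2 : (fun a => ρ (s a) (ι γ * d) (t a)) = fun a => ρ (s a) (ι γ) (ρ (s a) d (t a)) := by
    funext a
    rw [map_mul]
    rfl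
  rw [h2, h1, map_mul, mul_zpow, Units.val_mul, mul_assoc]

end Pool.Agent.T6.H33.ST
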