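import Pool.Agent.T6.H33.ST.Eig
import Pool.Agent.T6.H33.ST.Lie

/-!
# Tate classes and generalised eigenvalues
-/

set_option autoImplicit false

namespace Pool.Agent.T6.H33.ST

open Module

section lin
variable {K A : Type} [Field K] [Fintype A] [DecidableEq A] {V : A → Type}
  [∀ a, AddCommGroup (V a)] [∀ a, Module K (V a)]

theorem mult_zero (f : MultilinearMap K V K) (h : ∀ a, Module.End K (V a)) (μ : K)
    (hf : ∀ t, f (fun a => h a (t a)) = μ * f t) (β : A → K) (hβ : ∏ a, β a ≠ μ) :
    ∀ (n : ℕ) (k : A → ℕ), ∑ a, k a = n → ∀ t, (∀ a, ((h a - β a • 1) ^ (k a)) (t a) = 0) →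
      f t = 0 := by
  intro n
  induction n using Nat.strong_induction_on with
  | _ n ih =>
    intro k hk t ht
    by_cases h0 : ∃ a, k a = 0
    · obtain ⟨a, ha⟩ := h0
      have h1 := ht a
      rw [ha, pow_zero] at h1
      exact f.map_coord_zero a h1
    · push Not at h0
      have e1 : (fun a => h a (t a)) = (fun a => β a • t a) + fun a => (h a - β a • 1) (t a) := by
        funext a
        rw [Pi.add_apply, LinearMap.sub_apply, LinearMap.smul_apply]
        simp
      have e2 := hf t
      rw [e1, MultilinearMap.map_add_univ, Finset.sum_eq_single Finset.univ] at e2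
      · rw [Finset.piecewise_univ, MultilinearMap.map_smul_univ, smul_eq_mul] at e2
        have e3 : (∏ a, β a - μ) * f t = 0 := by rw [sub_mul, e2, sub_self]
        rcases mul_eq_zero.1 e3 with h | h
        · exact absurd (sub_eq_zero.1 h) hβ
        · exact h
      · intro S _ hS
        obtain ⟨a, ha⟩ : ∃ a, a ∉ S := by
          by_contra hcon
          push Not at hcon
          exact hS (Finset.eq_univ_iff_forall.2 hcon)
        refine ih (∑ a, if a ∈ S then k a else k a - 1) ?_ _ rfl _ fun b => ?_
        · rw [← hk]
          refine Finset.sum_lt_sum (fun b _ => ?_) ⟨a, Finset.mem_univ a, ?_⟩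
          · split_ifs <;> omega
          · rw [if_neg ha]
            have := h0 a
            omega
        · by_cases hb : b ∈ S
          · rw [if_pos hb, Finset.piecewise_eq_of_mem _ _ _ hb, map_smul, ht b, smul_zero]
          · rw [if_neg hb, Finset.piecewise_eq_of_notMem _ _ _ hb, ← Module.End.mul_apply,
              ← pow_succ]
            have e4 : k b - 1 + 1 = k b := by have := h0 b; omega
            rw [e4]
            exact ht b
      · intro h
        exact absurd (Finset.mem_univ _) h

theorem mult_ext [IsAlgClosed K] [∀ a, FiniteDimensional K (V a)] (f g : MultilinearMap K V K)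
    (h : ∀ a, Module.End K (V a))
    (H : ∀ (α : A → K) t, (∀ a, t a ∈ (h a).maxGenEigenspace (α a)) → f t = g t) : f = g := by
  have key : ∀ S : Finset A, ∀ t, (∀ a, a ∉ S → ∃ α, t a ∈ (h a).maxGenEigenspace α) →
      f t = g t := by
    intro S
    induction S using Finset.induction_on with
    | empty =>
      intro t ht
      choose α hα using fun a => ht a (Finset.notMem_empty a)
      exact H α t hα
    | insert a S ha ih =>
      intro t ht
      have h1 := span_gen (h a) (p := fun x => f (Function.update t a x) = g (Function.update t a x))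
        (by rw [f.map_update_zero, g.map_update_zero])
        (fun x y hx hy => by rw [f.map_update_add, g.map_update_add, hx, hy])
        (fun α x hx => ih _ fun b hb => by
          by_cases hba : b = a
          · subst hba
            exact ⟨α, by rw [Function.update_self]; exact hx⟩
          · rw [Function.update_of_ne hba]
            exact ht b (by simp [hba, hb])) (t a)
      simpa using h1
  ext t
  exact key Finset.univ t fun a ha => absurd (Finset.mem_univ a) ha

/-- the derivation of a multilinear map -/
def derM (f : MultilinearMap K V K) (z : ∀ a, Module.End K (V a)) : MultilinearMap K V K :=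
  ∑ a, f.compLinearMap (Function.update (fun _ => LinearMap.id) a (z a))

theorem derM_apply (f : MultilinearMap K V K) (z : ∀ a, Module.End K (V a)) (t : ∀ a, V a) :
    derM f z t = ∑ a, f (Function.update t a (z a (t a))) := by
  rw [derM, MultilinearMap.sum_apply]
  refine Finset.sum_congr rfl fun a _ => ?_
  rw [MultilinearMap.compLinearMap_apply]
  congr 1
  funext b
  by_cases hb : b = a
  · subst hb
    simp
  · simp [hb]

end lin

/-- the function attached to an additive character of the multiplicative group -/
noncomputable def ext0 {K : Type} [Field K] (l : Additive Kˣ →+ K) : K → K := by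
  classical
  exact fun α => if h : α = 0 then 0 else l (Additive.ofMul (Units.mk0 α h))

theorem ext0_of_ne {K : Type} [Field K] (l : Additive Kˣ →+ K) {α : K} (h : α ≠ 0) :
    ext0 l α = l (Additive.ofMul (Units.mk0 α h)) := by
  unfold ext0
  rw [dif_neg h]

variable {K Γ G I : Type} [Field K] [Group Γ] [Group G] {T : I → Type}
  [∀ i, AddCommGroup (T i)] [∀ i, Module K (T i)]

/-- the element of the Lie algebra attached to an element of `Γ` and an additive character -/
noncomputable def zel [IsAlgClosed K] [∀ i, FiniteDimensional K (T i)] (ι : Γ →* G) (q : G →* Kˣ)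
    (ρ : ∀ i, Representation K G (T i)) (γ : Γ) (l : Additive Kˣ →+ K) :
    (∀ i, Module.End K (T i)) × K :=
  (fun i => fc (ρ i (ι γ)) (ext0 l), l (Additive.ofMul (q (ι γ))))

theorem zel_mem [IsAlgClosed K] [CharZero K] [∀ i, FiniteDimensional K (T i)] (ι : Γ →* G)
    (q : G →* Kˣ) (ρ : ∀ i, Representation K G (T i)) (γ : Γ) (l : Additive Kˣ →+ K) :
    zel ι q ρ γ l ∈ lieT ι q ρ := by
  intro A _ _ s j f hf
  obtain ⟨Δ, hΔ, hf⟩ := hf
  obtain ⟨n, hn, -, hγ⟩ := Subgroup.exists_pow_mem_of_index_ne_zero hΔ.index_ne_zero γ
  have key : derM f (fun a => fc (ρ (s a) (ι γ)) (ext0 l)) =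
      ((j : K) * l (Additive.ofMul (q (ι γ)))) • f := by
    refine mult_ext _ _ (fun a => ρ (s a) (ι γ)) fun α t ht => ?_
    rw [derM_apply, MultilinearMap.smul_apply, smul_eq_mul]
    have e1 : ∀ a, f (Function.update t a (fc (ρ (s a) (ι γ)) (ext0 l) (t a))) =
        ext0 l (α a) * f t := by
      intro a
      rw [fc_apply _ _ (ht a), MultilinearMap.map_update_smul, Function.update_eq_self, smul_eq_mul]
    rw [Finset.sum_congr rfl fun a _ => e1 a, ← Finset.sum_mul]
    by_cases h0 : f t = 0
    · rw [h0, mul_zero, mul_zero]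
    congr 1
    have hex : ∀ a, ∃ k : ℕ, ((ρ (s a) (ι γ) - α a • 1) ^ k) (t a) = 0 := by
      intro a
      have := ht a
      rw [Module.End.mem_maxGenEigenspace] at this
      exact this
    choose k hk using hex
    have hα : ∀ a, α a ≠ 0 := by
      intro a ha
      apply h0
      apply f.map_coord_zero a
      have h1 := hk a
      rw [ha, zero_smul, sub_zero] at h1
      have h2 : ((ρ (s a) (ι γ)⁻¹) ^ (k a)) (((ρ (s a) (ι γ)) ^ (k a)) (t a)) = t a := by
        rw [← Module.End.mul_apply, ← map_pow, ← map_pow, ← map_mul, inv_pow, inv_mul_cancel,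
          map_one]
        rfl
      rw [← h2, h1, map_zero]
    have hprod : ∏ a, (α a) ^ n = ((q (ι (γ ^ n)) ^ j : Kˣ) : K) := by
      by_contra hne
      apply h0
      refine mult_zero f (fun a => (ρ (s a) (ι γ)) ^ n) _ ?_ (fun a => α a ^ n) hne _ k rfl t ?_
      · intro t
        have h1 := hf _ hγ t
        rw [← h1]
        congr 1
        funext a
        rw [map_pow, map_pow]
      · intro a
        have h1 : Commute (ρ (s a) (ι γ)) (α a • (1 : Module.End K (T (s a)))) :=
          (Commute.one_right _).smul_right _
        have h2 : ((ρ (s a) (ι γ)) ^ n - (α a ^ n) • (1 : Module.End K (T (s a)))) =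
            (∑ i ∈ Finset.range n, (ρ (s a) (ι γ)) ^ i * (α a • (1 : Module.End K (T (s a)))) ^
              (n - 1 - i)) * (ρ (s a) (ι γ) - α a • 1) := by
          rw [h1.geom_sum₂_mul, smul_pow, one_pow]
        have h3 : Commute (∑ i ∈ Finset.range n, (ρ (s a) (ι γ)) ^ i *
            (α a • (1 : Module.End K (T (s a)))) ^ (n - 1 - i)) (ρ (s a) (ι γ) - α a • 1) := by
          apply Commute.sum_left
          intro i _
          have h4 : Commute (ρ (s a) (ι γ)) (ρ (s a) (ι γ) - α a • 1) := (Commute.refl _).sub_right h1
          have h5 : Commute (α a • (1 : Module.End K (T (s a)))) (ρ (s a) (ι γ) - α a • 1) :=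
            h1.symm.sub_right (Commute.refl _)
          exact (h4.pow_left i).mul_left (h5.pow_left _)
        rw [h2, h3.mul_pow, Module.End.mul_apply, hk a, map_zero]
    have hu : ∏ a, (Units.mk0 (α a) (hα a)) ^ n = (q (ι γ) ^ n) ^ j := by
      apply Units.ext
      rw [map_pow, map_pow] at hprod
      rw [← hprod]
      simp
    have hl : l (Additive.ofMul (∏ a, (Units.mk0 (α a) (hα a)) ^ n)) =
        l (Additive.ofMul ((q (ι γ) ^ n) ^ j)) := by rw [hu]
    have h6 : (n : K) * ∑ a, ext0 l (α a) = (n : K) * ((j : K) * l (Additive.ofMul (q (ι γ)))) := by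
      have h7 : l (Additive.ofMul (∏ a, (Units.mk0 (α a) (hα a)) ^ n)) =
          (n : K) * ∑ a, ext0 l (α a) := by
        rw [ofMul_prod, map_sum, Finset.mul_sum]
        refine Finset.sum_congr rfl fun a _ => ?_
        rw [ofMul_pow, map_nsmul, ext0_of_ne l (hα a), nsmul_eq_mul]
      have h8 : l (Additive.ofMul ((q (ι γ) ^ n) ^ j)) =
          (n : K) * ((j : K) * l (Additive.ofMul (q (ι γ)))) := by
        rw [ofMul_zpow, map_zsmul, ofMul_pow, map_nsmul, nsmul_eq_mul, zsmul_eq_mul]
        ring
      rw [← h7, hl, h8]
    exact mul_left_cancel₀ (by exact_mod_cast hn.ne') h6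
  intro t
  have h1 := congrArg (fun g => g t) key
  rw [derM_apply] at h1
  exact h1

end Pool.Agent.T6.H33.ST
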